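import Pool.Agent.Helper38.LinL.Machine

/-!
# Linear grammars
-/

namespace Pool.Agent.Helper38.LinL

/-- A linear context-free grammar over the alphabet `α`: a finite set `N` of nonterminals, a start
symbol, finitely many rules `A → u B v` (given as `(A, u, B, v)`) and finitely many rules
`A → u` (given as `(A, u)`). -/
structure LinearGrammar (α : Type) where
  N : Type
  finN : Finite N
  start : N
  rules : Finset (N × List α × N × List α)
  term : Finset (N × List α)

variable {α : Type}

/-- `G.Derives A u B v`: the sentential form `u B v` is derivable from the nonterminal `A`. -/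
inductive LinearGrammar.Derives (G : LinearGrammar α) (A : G.N) : List α → G.N → List α → Prop
  | refl : Derives G A [] A []
  | step {u B v u' C v'} : Derives G A u B v → (B, u', C, v') ∈ G.rules →
      Derives G A (u ++ u') C (v' ++ v)

/-- The language generated by the grammar. -/
def LinearGrammar.language (G : LinearGrammar α) : Set (List α) :=
  {w | ∃ u B v t, G.Derives G.start u B v ∧ (B, t) ∈ G.term ∧ w = u ++ t ++ v}

/-- In the loops `A ⇒* u A v` at `A`, the word `v` is determined by `u` and the length of `v`. -/
def LinearGrammar.RightDet (G : LinearGrammar α) (A : G.N) : Prop :=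
  ∀ u v v', G.Derives A u A v → G.Derives A u A v' → v.length = v'.length → v = v'

/-- In the loops `A ⇒* u A v` at `A`, the word `u` is determined by `v` and the length of `u`. -/
def LinearGrammar.LeftDet (G : LinearGrammar α) (A : G.N) : Prop :=
  ∀ u u' v, G.Derives A u A v → G.Derives A u' A v → u.length = u'.length → u = u'

/-- The loops at `A` have bounded width: for some constants `a, b, k` and all words `x, y` and
numbers `s` there are at most `k` triples `(B, u, v)`, where `A ⇒* u B v`, the nonterminal `A` is
derivable from `B`, `u` is a prefix of `x`, `v` is a suffix of `y` and `a |u| + b |v| = s`. -/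
def LinearGrammar.Narrow (G : LinearGrammar α) (A : G.N) : Prop :=
  ∃ a b k : ℕ, ∀ (x y : List α) (s : ℕ),
    {t : G.N × List α × List α | t.2.1 <+: x ∧ t.2.2 <:+ y ∧
      a * t.2.1.length + b * t.2.2.length = s ∧ G.Derives A t.2.1 t.1 t.2.2 ∧
      ∃ u v, G.Derives t.1 u A v}.encard ≤ k

/-- The loops at `A` have bounded width seen from their end: for some constants `a, b, k` and all
words `x, y` and numbers `s` there are at most `k` triples `(B, u, v)`, where `B ⇒* u A v`, the
nonterminal `B` is derivable from `A`, `u` is a suffix of `x`, `v` is a prefix of `y` and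
`a |u| + b |v| = s`. -/
def LinearGrammar.CoNarrow (G : LinearGrammar α) (A : G.N) : Prop :=
  ∃ a b k : ℕ, ∀ (x y : List α) (s : ℕ),
    {t : G.N × List α × List α | t.2.1 <:+ x ∧ t.2.2 <+: y ∧
      a * t.2.1.length + b * t.2.2.length = s ∧ G.Derives t.1 t.2.1 A t.2.2 ∧
      ∃ u v, G.Derives A u t.1 v}.encard ≤ k

end Pool.Agent.Helper38.LinL
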