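import Pool.Agent.Helper38.LinL.Fn

/-!
# Arithmetic and predicates in logarithmic space
-/

namespace Pool.Agent.Helper38.LinL

open Classical

set_option linter.unusedSimpArgs false
set_option linter.unusedVariables false

variable {α : Type} {X Y Z : Type} [Cod X] [Cod Y] [Cod Z]

theorem Fn.natRec {T : List α → X → ℕ} {F : List α → X → ℕ → Y}
    {step : List α → X × ℕ × Y → Y} (hT : Fn T) (hi : Fn fun w x => F w x 0) (hs : Fn step)
    (hstep : ∀ w x t, F w x (t + 1) = step w (x, t, F w x t))
    (hb : ∃ b : List α → X → ℕ, PB b ∧ ∀ w x t, t ≤ T w x → norm' (F w x t) ≤ b w x) :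
    Fn fun w x => F w x (T w x) := by
  have hF : ∀ w x t, recF (fun w x => F w x 0) step w x t = F w x t := by
    intro w x t
    induction t with
    | zero => rfl
    | succ t ih =>
      show step w (x, t, recF _ step w x t) = _
      rw [ih, hstep]
  have := Fn.recN (T := T) (init := fun w x => F w x 0) hT hi hs (by
    obtain ⟨b, hb1, hb2⟩ := hb
    refine ⟨b, hb1, fun w x t ht => ?_⟩
    rw [hF]
    exact hb2 w x t ht)
  convert this using 1
  funext w x
  rw [hF]

theorem Fn.id1 : Fn fun (_ : List α) (x : ℕ) => x := Fn.id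

theorem Fn.add {f g : List α → X → ℕ} (hf : Fn f) (hg : Fn g) :
    Fn fun w x => f w x + g w x := by
  refine Fn.natRec (F := fun w x t => f w x + t) (step := fun w p => p.2.2 + 1) hg
    (by simpa using hf) (Fn.id.snd.snd.succ) (fun w x t => by simp [add_assoc])
    ⟨fun w x => f w x + g w x, hf.pb.add hg.pb, fun w x t ht => ?_⟩
  simp; omega

theorem Fn.pred {f : List α → X → ℕ} (hf : Fn f) : Fn fun w x => f w x - 1 := by
  refine Fn.natRec (F := fun w x t => t - 1) (step := fun w p => p.2.1) hf
    Fn.zero (Fn.id.snd.fst) (fun w x t => by simp)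
    ⟨fun w x => f w x, hf.pb, fun w x t ht => ?_⟩
  simp; omega

theorem Fn.sub {f g : List α → X → ℕ} (hf : Fn f) (hg : Fn g) :
    Fn fun w x => f w x - g w x := by
  refine Fn.natRec (F := fun w x t => f w x - t) (step := fun w p => p.2.2 - 1) hg
    (by simpa using hf) (Fn.id.snd.snd.pred) (fun w x t => by simp [Nat.sub_sub])
    ⟨fun w x => f w x, hf.pb, fun w x t ht => ?_⟩
  simp

theorem Fn.mul {f g : List α → X → ℕ} (hf : Fn f) (hg : Fn g) :
    Fn fun w x => f w x * g w x := by
  refine Fn.natRec (F := fun w x t => f w x * t) (step := fun w p => p.2.2 + f w p.1) hg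
    (by simpa using Fn.zero) (Fn.id.snd.snd.add (hf.comp Fn.id.fst))
    (fun w x t => by simp [mul_add])
    ⟨fun w x => f w x * g w x, hf.pb.mul hg.pb, fun w x t ht => ?_⟩
  simp
  exact Nat.mul_le_mul_left _ ht

theorem Fn.cond {c : List α → X → ℕ} {a b : List α → X → Y} (hc : Fn c) (ha : Fn a)
    (hb : Fn b) : Fn fun w x => if c w x = 0 then a w x else b w x := by
  refine Fn.natRec (F := fun w x t => if t = 0 then a w x else b w x)
    (step := fun w p => b w p.1) hc
    (by simpa using ha) (hb.comp Fn.id.fst)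
    (fun w x t => by simp)
    ⟨fun w x => norm' (a w x) + norm' (b w x), (PB.norm' ha).add (PB.norm' hb),
      fun w x t ht => ?_⟩
  simp only
  split_ifs <;> omega

/-- Indicator of a proposition. -/
noncomputable def ind (p : Prop) : ℕ := if p then 1 else 0

@[simp] theorem ind_eq_zero {p : Prop} : ind p = 0 ↔ ¬ p := by unfold ind; split_ifs with h <;> simp [h]

theorem ind_le (p : Prop) : ind p ≤ 1 := by unfold ind; split_ifs <;> simp

theorem ind_pos {p : Prop} (h : p) : ind p = 1 := by simp [ind, h]

theorem ind_neg {p : Prop} (h : ¬ p) : ind p = 0 := by simp [ind, h]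

/-- Logarithmic space predicates. -/
def FP (P : List α → X → Prop) : Prop := Fn fun w x => ind (P w x)

theorem Fn.ite {P : List α → X → Prop} [∀ w x, Decidable (P w x)] {a b : List α → X → Y}
    (hP : FP P) (ha : Fn a)
    (hb : Fn b) : Fn fun w x => if P w x then a w x else b w x := by
  have := Fn.cond hP hb ha
  convert this using 3 with w x
  by_cases h : P w x <;> simp [h]

theorem FP.ne_zero {f : List α → X → ℕ} (hf : Fn f) : FP fun w x => f w x ≠ 0 := by
  have := Fn.cond hf (Fn.const 0) (Fn.const 1)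
  unfold FP ind
  convert this using 3 with w x
  by_cases h : f w x = 0 <;> simp [h]

theorem FP.eq_zero {f : List α → X → ℕ} (hf : Fn f) : FP fun w x => f w x = 0 := by
  have := Fn.cond hf (Fn.const 1) (Fn.const 0)
  unfold FP ind
  convert this using 3 with w x
  by_cases h : f w x = 0 <;> simp [h]

theorem FP.congr {P P' : List α → X → Prop} (hP : FP P) (h : ∀ w x, P' w x ↔ P w x) :
    FP P' := by
  have : P' = P := by funext w x; exact propext (h w x)
  rw [this]; exact hP

theorem FP.comp {P : List α → Y → Prop} {g : List α → X → Y} (hP : FP P) (hg : Fn g) :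
    FP fun w x => P w (g w x) := Fn.comp (f := fun w x => ind (P w x)) hP hg

theorem FP.not {P : List α → X → Prop} (hP : FP P) : FP fun w x => ¬ P w x := by
  have := Fn.ite hP (Fn.const 0) (Fn.const 1)
  unfold FP ind
  convert this using 3 with w x
  by_cases h : P w x <;> simp [h]

theorem FP.and {P Q : List α → X → Prop} (hP : FP P) (hQ : FP Q) :
    FP fun w x => P w x ∧ Q w x := by
  have := Fn.ite hP (Fn.ite hQ (Fn.const 1) (Fn.const 0)) (Fn.const 0)
  unfold FP ind
  convert this using 3 with w x
  by_cases h : P w x <;> by_cases h' : Q w x <;> simp [h, h']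

theorem FP.or {P Q : List α → X → Prop} (hP : FP P) (hQ : FP Q) :
    FP fun w x => P w x ∨ Q w x :=
  (hP.not.and hQ.not).not.congr fun w x => by tauto

theorem FP.le {f g : List α → X → ℕ} (hf : Fn f) (hg : Fn g) :
    FP fun w x => f w x ≤ g w x :=
  (FP.eq_zero (hf.sub hg)).congr fun w x => by omega

theorem FP.lt {f g : List α → X → ℕ} (hf : Fn f) (hg : Fn g) :
    FP fun w x => f w x < g w x :=
  (FP.le hf.succ hg).congr fun w x => by omega

theorem FP.eq {f g : List α → X → ℕ} (hf : Fn f) (hg : Fn g) :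
    FP fun w x => f w x = g w x :=
  ((FP.le hf hg).and (FP.le hg hf)).congr fun w x => by omega

theorem FP.true : FP fun (_ : List α) (_ : X) => True :=
  (FP.eq (Fn.const 0) (Fn.const 0)).congr fun w x => by simp

theorem FP.false : FP fun (_ : List α) (_ : X) => False := FP.true.not.congr fun w x => by simp

theorem FP.constP (p : Prop) : FP fun (_ : List α) (_ : X) => p := by
  by_cases hp : p
  · simp only [hp]; exact FP.true
  · simp only [hp]; exact FP.false

theorem FP.bex {b : List α → X → ℕ} {P : List α → X × ℕ → Prop} (hb : Fn b) (hP : FP P) :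
    FP fun w x => ∃ t < b w x, P w (x, t) := by
  unfold FP
  refine Fn.natRec (F := fun w x t => ind (∃ s < t, P w (x, s)))
    (step := fun w p => ind (p.2.2 ≠ 0 ∨ P w (p.1, p.2.1))) hb
    (by simpa [ind] using Fn.zero)
    ((FP.ne_zero Fn.id.snd.snd).or (hP.comp (Fn.id.fst.pair Fn.id.snd.fst)))
    (fun w x t => ?_)
    ⟨fun w x => 1, PB.const 1, fun w x t ht => ?_⟩
  · have : (∃ s < t + 1, P w (x, s)) ↔ (ind (∃ s < t, P w (x, s)) ≠ 0 ∨ P w (x, t)) := by
      rw [ne_eq, ind_eq_zero, not_not]
      constructor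
      · rintro ⟨s, hs, h⟩
        rcases Nat.lt_succ_iff_lt_or_eq.1 hs with h' | rfl
        · exact Or.inl ⟨s, h', h⟩
        · right; exact h
      · rintro (⟨s, hs, h⟩ | h)
        · exact ⟨s, by omega, h⟩
        · exact ⟨t, by omega, h⟩
    simp only [this]
  · simp only [norm'_nat]
    exact ind_le _

theorem FP.ball {b : List α → X → ℕ} {P : List α → X × ℕ → Prop} (hb : Fn b) (hP : FP P) :
    FP fun w x => ∀ t < b w x, P w (x, t) :=
  (FP.bex hb hP.not).not.congr fun w x => by
    push Not
    rfl

theorem FP.bexF {β : Type} (s : Finset β) {P : β → List α → X → Prop}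
    (h : ∀ b ∈ s, FP (P b)) : FP fun w x => ∃ b ∈ s, P b w x := by
  induction s using Finset.induction_on with
  | empty => exact FP.false.congr fun w x => by simp
  | insert b s hb ih =>
    refine ((h b (Finset.mem_insert_self ..)).or (ih fun b' hb' =>
      h b' (Finset.mem_insert_of_mem hb'))).congr fun w x => ?_
    simp

theorem FP.exFin {β : Type} [Fintype β] {P : β → List α → X → Prop}
    (h : ∀ b, FP (P b)) : FP fun w x => ∃ b, P b w x :=
  (FP.bexF Finset.univ fun b _ => h b).congr fun w x => by simp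

theorem FP.allFin {β : Type} [Fintype β] {P : β → List α → X → Prop}
    (h : ∀ b, FP (P b)) : FP fun w x => ∀ b, P b w x :=
  (FP.exFin fun b => (h b).not).not.congr fun w x => by push Not; rfl

theorem Fn.sumF {β : Type} (s : Finset β) {f : β → List α → X → ℕ}
    (h : ∀ b ∈ s, Fn (f b)) : Fn fun w x => ∑ b ∈ s, f b w x := by
  induction s using Finset.induction_on with
  | empty => simpa using Fn.const 0
  | insert b s hb ih =>
    have := (h b (Finset.mem_insert_self ..)).add (ih fun b' hb' =>
      h b' (Finset.mem_insert_of_mem hb'))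
    convert this using 3 with w x
    rw [Finset.sum_insert hb]

theorem Fn.letterP (a : α) {f : List α → X → ℕ} (hf : Fn f) :
    FP fun w x => w[f w x]? = some a := by
  have := Fn.letter a hf
  unfold FP ind
  unfold letterTest at this
  convert this using 3 with w x
  by_cases h : w[f w x]? = some a <;> simp [h]

theorem Fn.len : Fn fun (w : List α) (_ : X) => w.length := by
  have := (Fn.lenSucc (α := α) (X := X)).pred
  simpa using this

theorem Fn.mod {f g : List α → X → ℕ} (hf : Fn f) (hg : Fn g) :
    Fn fun w x => f w x % g w x := by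
  refine Fn.natRec (F := fun w x t => t % g w x)
    (step := fun w p => if p.2.2 + 1 = g w p.1 then 0 else p.2.2 + 1) hf
    (by simpa using Fn.zero)
    (Fn.ite (FP.eq Fn.id.snd.snd.succ (hg.comp Fn.id.fst)) Fn.zero Fn.id.snd.snd.succ)
    (fun w x t => ?_)
    ⟨fun w x => f w x, hf.pb, fun w x t ht => ?_⟩
  · simp only
    rcases Nat.eq_zero_or_pos (g w x) with h0 | h0
    · rw [h0]; simp
    · have h1 := Nat.mod_lt t h0
      split_ifs with h2
      · have h3 := Nat.div_add_mod t (g w x)
        have h4 : t + 1 = g w x * (t / g w x + 1) := by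
          rw [mul_add, mul_one]
          omega
        rw [h4, Nat.mul_mod_right]
      · rw [Nat.add_mod, Nat.mod_eq_of_lt (a := t % g w x + 1 % g w x)]
        · rcases Nat.lt_or_ge 1 (g w x) with h3 | h3
          · rw [Nat.mod_eq_of_lt h3]
          · omega
        · rcases Nat.lt_or_ge 1 (g w x) with h3 | h3
          · rw [Nat.mod_eq_of_lt h3]; omega
          · omega
  · simp only [norm'_nat]
    exact (Nat.mod_le _ _).trans ht

theorem FP.dvd {f g : List α → X → ℕ} (hf : Fn f) (hg : Fn g) :
    FP fun w x => f w x ∣ g w x :=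
  (FP.eq_zero (hg.mod hf)).congr fun w x => Nat.dvd_iff_mod_eq_zero

theorem Fn.div {f g : List α → X → ℕ} (hf : Fn f) (hg : Fn g) :
    Fn fun w x => f w x / g w x := by
  refine Fn.natRec (F := fun w x t => t / g w x)
    (step := fun w p => if g w p.1 ∣ p.2.1 + 1 then p.2.2 + 1 else p.2.2) hf
    (by simpa using Fn.zero)
    (Fn.ite (FP.dvd (hg.comp Fn.id.fst) Fn.id.snd.fst.succ) Fn.id.snd.snd.succ Fn.id.snd.snd)
    (fun w x t => ?_)
    ⟨fun w x => f w x, hf.pb, fun w x t ht => ?_⟩
  · simp only
    rw [Nat.succ_div]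
    split_ifs <;> rfl
  · simp only [norm'_nat]
    exact (Nat.div_le_self _ _).trans ht

theorem FP.prime {f : List α → X → ℕ} (hf : Fn f) : FP fun w x => Nat.Prime (f w x) := by
  refine ((FP.le (Fn.const 2) hf).and (FP.ball hf (P := fun w p => 2 ≤ p.2 → ¬ p.2 ∣ f w p.1)
    ?_)).congr fun w x => ?_
  · refine ((FP.le (Fn.const 2) Fn.id.snd).not.or
      (FP.dvd Fn.id.snd (hf.comp Fn.id.fst)).not).congr fun w x => ?_
    tauto
  · rw [Nat.prime_def_lt']
    constructor
    · rintro ⟨h1, h2⟩
      exact ⟨h1, fun t ht h3 => h2 t h3 ht⟩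
    · rintro ⟨h1, h2⟩
      exact ⟨h1, fun t h3 ht => h2 t ht h3⟩

theorem inL_of_FP (S : Set (List α)) (P : List α → Unit → Prop) (hP : FP P)
    (h : ∀ w, P w () ↔ w ∈ S) : InL S :=
  inL_of_Fn S _ hP fun w => by
    rw [← h, ne_eq, ind_eq_zero, not_not]

end Pool.Agent.Helper38.LinL
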