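import Pool.Agent.Helper38.LinL.Run
import Pool.Agent.Helper38.LinL.Arith

/-!
# Existence of runs of given weight is decidable in logarithmic space
-/

namespace Pool.Agent.Helper38.LinL

open Classical

set_option linter.unusedSimpArgs false
set_option linter.unusedVariables false
set_option linter.unusedSectionVars false

variable {α : Type} {X Y Z : Type} [Cod X] [Cod Y] [Cod Z]

theorem PB.pow {b : List α → X → ℕ} (hb : PB b) (n : ℕ) : PB fun w x => b w x ^ n := by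
  obtain ⟨e, he⟩ := hb
  refine ⟨e * n, fun w x => ?_⟩
  rw [pow_mul]
  exact Nat.pow_le_pow_left (he w x) n

theorem PB.size : PB fun (w : List α) (x : X) => size w x := ⟨1, fun w x => by simp⟩

theorem PB.exists_of_le {b : List α → X → ℕ} (hb : PB b) {f : List α → X × ℕ → ℕ} (hf : PB f) :
    ∃ b' : List α → X → ℕ, PB b' ∧ ∀ w x t, t ≤ b w x → f w (x, t) ≤ b' w x := by
  obtain ⟨e, he⟩ := hf
  refine ⟨fun w x => (LinL.size w x + b w x) ^ e, (PB.size.add hb).pow e, fun w x t ht => ?_⟩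
  refine (he w (x, t)).trans (Nat.pow_le_pow_left ?_ e)
  simp only [LinL.size, norm'_prod, norm'_nat]
  omega

theorem Fn.bsum {b : List α → X → ℕ} {f : List α → X × ℕ → ℕ} (hb : Fn b) (hf : Fn f) :
    Fn fun w x => ∑ t ∈ Finset.range (b w x), f w (x, t) := by
  obtain ⟨b', hb', hfb⟩ := hb.pb.exists_of_le hf.pb
  refine Fn.natRec (F := fun w x t => ∑ s ∈ Finset.range t, f w (x, s))
    (step := fun w p => p.2.2 + f w (p.1, p.2.1)) hb
    (by simpa using Fn.zero)
    (Fn.id.snd.snd.add (hf.comp (Fn.id.fst.pair Fn.id.snd.fst)))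
    (fun w x t => by simp only [Finset.sum_range_succ])
    ⟨fun w x => b w x * b' w x, hb.pb.mul hb', fun w x t ht => ?_⟩
  simp only [norm'_nat]
  calc ∑ s ∈ Finset.range t, f w (x, s) ≤ ∑ s ∈ Finset.range t, b' w x :=
        Finset.sum_le_sum fun s hs => hfb w x s (by have := Finset.mem_range.1 hs; omega)
    _ = t * b' w x := by simp
    _ ≤ _ := Nat.mul_le_mul_right _ ht

theorem Fn.powC {f : List α → X → ℕ} (hf : Fn f) (n : ℕ) : Fn fun w x => f w x ^ n := by
  induction n with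
  | zero => simpa using Fn.const 1
  | succ n ih =>
    have := ih.mul hf
    simpa [pow_succ] using this

theorem Fn.powMod {f k p : List α → X → ℕ} (hf : Fn f) (hk : Fn k) (hp : Fn p) :
    Fn fun w x => f w x ^ k w x % (p w x + 1) := by
  refine Fn.natRec (F := fun w x t => f w x ^ t % (p w x + 1))
    (step := fun w y => (y.2.2 * f w y.1) % (p w y.1 + 1)) hk
    ?_ ((Fn.id.snd.snd.mul (hf.comp Fn.id.fst)).mod (hp.comp Fn.id.fst).succ)
    (fun w x t => ?_) ⟨fun w x => p w x + 1, hp.succ.pb, fun w x t ht => ?_⟩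
  · simpa using (Fn.const 1).mod hp.succ
  · simp only [pow_succ]
    conv_rhs => rw [Nat.mul_mod, Nat.mod_mod, ← Nat.mul_mod]
  · simp only [norm'_nat]
    exact (Nat.mod_lt _ (by omega)).le

section kane

variable (A : WA α) {pos : List α → X × ℕ → ℕ} {T τ l : List α → X → ℕ}

/-- The letters read. -/
def rd (pos : List α → X × ℕ → ℕ) (w : List α) (x : X) : ℕ → Option α := fun t => w[pos w (x, t)]?

/-- One step of the residue vector. -/
noncomputable def vstep (pos : List α → X × ℕ → ℕ) (T : List α → X → ℕ) (w : List α)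
    (y : (X × ℕ × ℕ) × ℕ × (A.Q → ℕ)) : A.Q → ℕ := fun q' =>
  (if y.2.1 % (T w y.1.1 + 1) = T w y.1.1 then
    ∑ q, if (∃ a, rd pos w y.1.1 (y.2.1 / (T w y.1.1 + 1)) = some a ∧ A.tr a q q') then
      y.2.2 q else 0
  else y.2.2 q' + ∑ e ∈ A.eps, if e.2.2 = q' then y.1.2.2 ^ e.2.1 * y.2.2 e.1 else 0) %
    (y.1.2.1 + 1)

theorem vr_step (w : List α) (x : X) (p z : ℕ) (q0 : A.Q) (t : ℕ) :
    (fun q => A.vr (rd pos w x) (T w x) q0 (p + 1) z (t + 1) q) =
      vstep A pos T w ((x, p, z), t, fun q => A.vr (rd pos w x) (T w x) q0 (p + 1) z t q) := by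
  funext q'
  unfold WA.vr vstep
  simp only [WA.Vs, Nat.cast_id]
  rw [← ZMod.natCast_eq_natCast_iff']
  split_ifs with h
  · rw [Nat.cast_sum, Nat.cast_sum]
    refine Finset.sum_congr rfl fun q _ => ?_
    split_ifs
    · rw [ZMod.natCast_mod]
    · rfl
  · rw [Nat.cast_add, Nat.cast_add, Nat.cast_sum, Nat.cast_sum, ZMod.natCast_mod]
    congr 1
    refine Finset.sum_congr rfl fun e _ => ?_
    split_ifs
    · rw [Nat.cast_mul, Nat.cast_mul, ZMod.natCast_mod]
    · rfl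

theorem FP.exLetter {f : List α → X → ℕ} (hf : Fn f) (p : α → Prop) [Finite α] :
    FP fun w x => ∃ a, w[f w x]? = some a ∧ p a := by
  have := Fintype.ofFinite α
  refine FP.exFin fun a => (Fn.letterP a hf).and (FP.constP _)

theorem Fn.vstep' [Finite α] (hpos : Fn pos) (hT : Fn T) :
    Fn (Y := A.Q → ℕ) (vstep A pos T) := by
  refine Fn.pi fun q' => ?_
  unfold vstep
  have hTy : Fn fun (w : List α) (y : (X × ℕ × ℕ) × ℕ × (A.Q → ℕ)) => T w y.1.1 :=
    hT.comp Fn.id.fst.fst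
  have ht : Fn fun (w : List α) (y : (X × ℕ × ℕ) × ℕ × (A.Q → ℕ)) => y.2.1 := Fn.id.snd.fst
  have hv : ∀ q, Fn fun (w : List α) (y : (X × ℕ × ℕ) × ℕ × (A.Q → ℕ)) => y.2.2 q := fun q =>
    Fn.id.snd.snd.app q
  refine Fn.mod (Fn.ite (FP.eq (ht.mod hTy.succ) hTy) (Fn.sumF _ fun q _ => Fn.ite ?_ (hv q)
    Fn.zero) ((hv q').add (Fn.sumF _ fun e _ => Fn.ite (FP.constP _)
      ((Fn.id.fst.snd.snd.powC _).mul (hv _)) Fn.zero))) Fn.id.fst.snd.fst.succ
  exact FP.exLetter (hpos.comp (Fn.id.fst.fst.pair (ht.div hTy.succ))) _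

theorem Fn.vr [Finite α] (hpos : Fn pos) (hT : Fn T) (hτ : Fn τ) (q0 q : A.Q) :
    Fn fun w (y : X × ℕ × ℕ) => A.vr (rd pos w y.1) (T w y.1) q0 (y.2.1 + 1) y.2.2 (τ w y.1) q := by
  refine Fn.app (f := fun w (y : X × ℕ × ℕ) q => A.vr (rd pos w y.1) (T w y.1) q0 (y.2.1 + 1)
    y.2.2 (τ w y.1) q) ?_ q
  refine Fn.natRec (F := fun w (y : X × ℕ × ℕ) t => fun q => A.vr (rd pos w y.1) (T w y.1) q0
    (y.2.1 + 1) y.2.2 t q) (step := vstep A pos T) (hτ.comp Fn.id.fst) ?_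
    (Fn.vstep' A hpos hT) (fun w y t => ?_)
    ⟨fun w y => Fintype.card A.Q * (y.2.1 + 1), (PB.const _).mul Fn.id.snd.fst.succ.pb,
      fun w y t ht => ?_⟩
  · refine Fn.pi fun q => ?_
    unfold WA.vr
    simp only [WA.Vs]
    by_cases h : q = q0
    · simp only [h, if_true]
      exact (Fn.const 1).mod Fn.id.snd.fst.succ
    · simp only [h, if_false]
      exact (Fn.const 0).mod Fn.id.snd.fst.succ
  · exact vr_step A w y.1 y.2.1 y.2.2 q0 t
  · simp only [norm'_pi, norm'_nat]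
    calc _ ≤ ∑ _q : A.Q, (y.2.1 + 1) := Finset.sum_le_sum fun q _ =>
          (Nat.mod_lt _ (by omega)).le
      _ = _ := by simp

theorem FP.sp [Finite α] (hpos : Fn pos) (hT : Fn T) (hτ : Fn τ) (hl : Fn l) (q0 q : A.Q) :
    FP fun w x => A.SP (rd pos w x) (T w x) q0 (τ w x) q (l w x) := by
  have hD : Fn fun w x => A.W * τ w x + l w x := ((Fn.const A.W).mul hτ).add hl
  have hm : Fn fun w x => A.C * τ w x + 1 := ((Fn.const A.C).mul hτ).succ
  have hb : Fn fun w x => ((A.W * τ w x + l w x) + 1 + (A.C * τ w x + 1) + 3) ^ 4 :=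
    ((hD.succ.add hm).add (Fn.const 3)).powC 4
  refine (FP.bex hb (P := fun w (y : X × ℕ) => (y.2 + 1).Prime ∧
    (A.W * τ w y.1 + l w y.1) + 1 < y.2 + 1 ∧
    (∑ z ∈ Finset.range (y.2 + 1), (z ^ (y.2 - l w y.1) % (y.2 + 1)) *
      A.vr (rd pos w y.1) (T w y.1) q0 (y.2 + 1) z (τ w y.1) q) % (y.2 + 1) ≠ 0) ?_).congr
    fun w x => ?_
  · refine (FP.prime Fn.id.snd.succ).and ((FP.lt (hD.comp Fn.id.fst).succ Fn.id.snd.succ).and
      (FP.ne_zero ((Fn.bsum Fn.id.snd.succ (f := fun w (y : (X × ℕ) × ℕ) =>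
        (y.2 ^ (y.1.2 - l w y.1.1) % (y.1.2 + 1)) *
      A.vr (rd pos w y.1.1) (T w y.1.1) q0 (y.1.2 + 1) y.2 (τ w y.1.1) q) ?_).mod
        Fn.id.snd.succ)))
    refine (Fn.powMod Fn.id.snd (Fn.id.fst.snd.sub (hl.comp Fn.id.fst.fst)) Fn.id.fst.snd).mul ?_
    exact (Fn.vr A hpos hT hτ q0 q).comp
      (g := fun w (y : (X × ℕ) × ℕ) => (y.1.1, y.1.2, y.2))
      (Fn.id.fst.fst.pair (Fn.id.fst.snd.pair Fn.id.snd))
  · have hC : A.C ^ τ w x < 2 ^ (A.C * τ w x + 1) := by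
      calc A.C ^ τ w x ≤ (2 ^ A.C) ^ τ w x := Nat.pow_le_pow_left Nat.lt_two_pow_self.le _
        _ = 2 ^ (A.C * τ w x) := by rw [← pow_mul]
        _ < _ := Nat.pow_lt_pow_right (by norm_num) (by omega)
    rw [A.test (rd pos w x) (T w x) q0 (τ w x) q (l w x) (A.W * τ w x + l w x)
      (A.C * τ w x + 1) (by omega) (by omega) hC]
    constructor
    · rintro ⟨p, hp, hpr, h1, h2⟩
      refine ⟨p - 1, ?_, ?_⟩
      · have := hpr.pos
        omega
      · have h3 : p - 1 + 1 = p := by have := hpr.pos; omega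
        simp only [h3]
        exact ⟨hpr, h1, h2⟩
    · rintro ⟨p, hp, hpr, h1, h2⟩
      exact ⟨p + 1, by omega, hpr, h1, h2⟩

/-- The existence of a run reading the letters in the positions `pos 0, ..., pos (t-1)` of the
input and having weight `l` is decidable in logarithmic space. -/
theorem FP.run [Finite α] {t : List α → X → ℕ} (hpos : Fn pos) (ht : Fn t) (hl : Fn l)
    (q0 q : A.Q) : FP fun w x => A.Run (rd pos w x) q0 q (t w x) (l w x) := by
  have hT : Fn fun w x => Fintype.card A.Q * (l w x + 1) := (Fn.const _).mul hl.succ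
  have hτ : Fn fun w x => t w x * (Fintype.card A.Q * (l w x + 1) + 1) +
      Fintype.card A.Q * (l w x + 1) := (ht.mul hT.succ).add hT
  exact (FP.sp A hpos hT hτ hl q0 q).congr fun w x => A.run_iff _ _ _ _ _

end kane

end Pool.Agent.Helper38.LinL
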