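import Pool.Agent.Helper38.LinL.KaneFn

/-!
# Logarithmic space machines are simulated by logarithmic space functions

The converse of `inL_of_FP`, in the form of closure of `L` under logarithmic space reductions.
-/

namespace Pool.Agent.Helper38.LinL

open Classical

set_option linter.unusedSimpArgs false
set_option linter.unusedVariables false
set_option linter.unusedSectionVars false

variable {α β : Type} {X : Type} [Cod X]

/-- The number with given digits. -/
def num (B : ℕ) (f : ℕ → ℕ) (n : ℕ) : ℕ := ∑ i ∈ Finset.range n, f i * B ^ i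

theorem num_succ (B : ℕ) (f : ℕ → ℕ) (n : ℕ) :
    num B f (n + 1) = f 0 + B * num B (fun i => f (i + 1)) n := by
  unfold num
  rw [Finset.sum_range_succ', Finset.mul_sum]
  simp only [pow_zero, mul_one, pow_succ]
  rw [add_comm]
  congr 1
  exact Finset.sum_congr rfl fun i _ => by ring

theorem num_lt {B : ℕ} : ∀ {n : ℕ} {f : ℕ → ℕ}, (∀ i, f i < B) → num B f n < B ^ n := by
  intro n
  induction n with
  | zero => intro f _; simp [num]
  | succ n ih =>
    intro f hf
    rw [num_succ, pow_succ]
    have h1 := ih (f := fun i => f (i + 1)) fun i => hf (i + 1)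
    have h2 := hf 0
    calc f 0 + B * num B (fun i => f (i + 1)) n < B + B * num B (fun i => f (i + 1)) n := by omega
      _ = B * (num B (fun i => f (i + 1)) n + 1) := by ring
      _ ≤ B * B ^ n := Nat.mul_le_mul_left _ h1
      _ = _ := by ring

theorem num_digit {B : ℕ} : ∀ {n : ℕ} {f : ℕ → ℕ} {h : ℕ}, (∀ i, f i < B) → h < n →
    num B f n / B ^ h % B = f h := by
  intro n
  induction n with
  | zero => intro f h _ hh; omega
  | succ n ih =>
    intro f h hf hh
    rw [num_succ]
    have hB : 0 < B := lt_of_le_of_lt (Nat.zero_le _) (hf 0)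
    cases h with
    | zero =>
      simp only [pow_zero, Nat.div_one]
      rw [Nat.add_mul_mod_self_left, Nat.mod_eq_of_lt (hf 0)]
    | succ h =>
      rw [pow_succ, mul_comm (B ^ h) B, ← Nat.div_div_eq_div_mul, Nat.add_mul_div_left _ _ hB,
        Nat.div_eq_of_lt (hf 0), Nat.zero_add]
      exact ih (f := fun i => f (i + 1)) (fun i => hf (i + 1)) (by omega)

theorem num_update {B : ℕ} {n : ℕ} {f : ℕ → ℕ} {h v : ℕ} (hh : h < n) :
    num B (Function.update f h v) n + f h * B ^ h = num B f n + v * B ^ h := by
  unfold num
  have hm := Finset.mem_range.2 hh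
  rw [← Finset.add_sum_erase _ _ hm, ← Finset.add_sum_erase (Finset.range n)
    (fun i => f i * B ^ i) hm]
  have : ∑ x ∈ (Finset.range n).erase h, Function.update f h v x * B ^ x =
      ∑ x ∈ (Finset.range n).erase h, f x * B ^ x := by
    refine Finset.sum_congr rfl fun i hi => ?_
    rw [Function.update_of_ne (Finset.ne_of_mem_erase hi)]
  rw [this]
  simp only [Function.update_self]
  ring

theorem num_zero {B n : ℕ} : num B (fun _ => 0) n = 0 := by simp [num]

section code

variable (M : TM β)

noncomputable instance : Fintype M.Q := by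
  have := M.finQ
  exact Fintype.ofFinite _

noncomputable instance : Fintype M.Γ := by
  have := M.finΓ
  exact Fintype.ofFinite _

noncomputable instance [Finite β] : Fintype (Sym β) := by
  have : Finite (Sym β) := by
    refine Finite.of_injective (β := Option (Option β)) (fun s => match s with
      | Sym.lend => none
      | Sym.rend => some none
      | Sym.letter a => some (some a)) ?_
    rintro (_ | a | _) (_ | b | _) h <;> simp_all
  exact Fintype.ofFinite _

/-- Number of a state. -/
noncomputable def qc (q : M.Q) : ℕ := (Fintype.equivFin M.Q q).val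

theorem qc_inj {q q' : M.Q} (h : qc M q = qc M q') : q = q' :=
  (Fintype.equivFin M.Q).injective (Fin.ext h)

theorem qc_lt (q : M.Q) : qc M q < Fintype.card M.Q := (Fintype.equivFin M.Q q).isLt

/-- Number of a tape symbol. -/
noncomputable def gc (g : M.Γ) : ℕ :=
  if g = M.blank then 0 else (Fintype.equivFin M.Γ g).val + 1

theorem gc_blank : gc M M.blank = 0 := by simp [gc]

theorem gc_inj {q q' : M.Γ} (h : gc M q = gc M q') : q = q' := by
  unfold gc at h
  split_ifs at h with h1 h2 h3
  · rw [h1, h2]
  · exact (Fintype.equivFin M.Γ).injective (Fin.ext (by omega))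

/-- Base. -/
noncomputable def bas : ℕ := Fintype.card M.Γ + 1

theorem gc_lt (q : M.Γ) : gc M q < bas M := by
  unfold gc bas
  have := (Fintype.equivFin M.Γ q).isLt
  split_ifs <;> omega

theorem two_le_bas : 2 ≤ bas M := by
  unfold bas
  have : 0 < Fintype.card M.Γ := Fintype.card_pos_iff.2 ⟨M.blank⟩
  omega

/-- Codes of configurations. -/
noncomputable def encC (H : ℕ) (d : Cfg M) : ℕ × ℕ × ℕ × ℕ :=
  (qc M d.q, d.inp, num (bas M) (fun i => gc M (d.tape i)) (H + 1), bas M ^ d.head)

/-- The case `z` applies to the code `e`. -/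
def condE (w : List β) (e : ℕ × ℕ × ℕ × ℕ) (z : M.Q × Sym β × M.Γ) : Prop :=
  qc M z.1 = e.1 ∧ readSym w e.2.1 = z.2.1 ∧ gc M z.2.2 = e.2.2.1 / e.2.2.2 % bas M

theorem condE_encC {H : ℕ} {w : List β} {d : Cfg M} (hd : d.head ≤ H)
    (z : M.Q × Sym β × M.Γ) :
    condE M w (encC M H d) z ↔ z = (d.q, readSym w d.inp, d.tape d.head) := by
  unfold condE encC
  simp only
  rw [num_digit (fun i => gc_lt M _) (by omega)]
  obtain ⟨q, s, g⟩ := z
  simp only [Prod.mk.injEq]
  constructor
  · rintro ⟨h1, h2, h3⟩
    exact ⟨qc_inj M h1, h2.symm, gc_inj M h3⟩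
  · rintro ⟨rfl, rfl, rfl⟩
    exact ⟨rfl, rfl, rfl⟩

/-- Move of the power. -/
noncomputable def moveP (B P : ℕ) : Dir → ℕ
  | Dir.left => if P = 1 then 1 else P / B
  | Dir.stay => P
  | Dir.right => P * B

theorem moveP_pow {B : ℕ} (hB : 2 ≤ B) (h : ℕ) (d : Dir) :
    moveP B (B ^ h) d = B ^ moveHead h d := by
  cases d with
  | left =>
    unfold moveP moveHead
    cases h with
    | zero => simp
    | succ h =>
      have : B ^ (h + 1) ≠ 1 := by
        have := Nat.one_lt_pow (n := h + 1) (by omega) (show 1 < B by omega)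
        omega
      rw [if_neg this, pow_succ, Nat.mul_div_cancel _ (by omega)]
      rfl
  | stay => rfl
  | right => simp [moveP, moveHead, pow_succ]

/-- The next code in the case `z`. -/
noncomputable def valE (n : ℕ) (e : ℕ × ℕ × ℕ × ℕ) (z : M.Q × Sym β × M.Γ) : ℕ × ℕ × ℕ × ℕ :=
  match M.δ z.1 z.2.1 z.2.2 with
  | none => e
  | some t => (qc M t.1, moveInp n e.2.1 t.2.2.1,
      e.2.2.1 + gc M t.2.1 * e.2.2.2 - gc M z.2.2 * e.2.2.2, moveP (bas M) e.2.2.2 t.2.2.2)

/-- The next configuration; halting configurations are repeated. -/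
def nextC (w : List β) (d : Cfg M) : Cfg M := (M.step w d).getD d

theorem valE_encC {H : ℕ} {w : List β} {d : Cfg M} (hd : d.head ≤ H) :
    valE M w.length (encC M H d) (d.q, readSym w d.inp, d.tape d.head) =
      encC M H (nextC M w d) := by
  unfold valE nextC TM.step
  simp only
  cases hδ : M.δ d.q (readSym w d.inp) (d.tape d.head) with
  | none => simp
  | some t =>
    simp only [Option.map_some, Option.getD_some]
    unfold encC
    simp only [Prod.mk.injEq]
    refine ⟨trivial, trivial, ?_, moveP_pow (two_le_bas M) _ _⟩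
    have h1 := num_update (B := bas M) (n := H + 1) (f := fun i => gc M (d.tape i))
      (h := d.head) (v := gc M t.2.1) (by omega)
    have h2 : (fun i => gc M (Function.update d.tape d.head t.2.1 i)) =
        Function.update (fun i => gc M (d.tape i)) d.head (gc M t.2.1) := by
      funext i
      by_cases hi : i = d.head
      · subst hi; simp
      · simp [Function.update_of_ne hi]
    rw [h2]
    omega

/-- The next code. -/
noncomputable def nextE [Finite β] (w : List β) (e : ℕ × ℕ × ℕ × ℕ) : ℕ × ℕ × ℕ × ℕ :=
  (∑ z, ind (condE M w e z) * (valE M w.length e z).1,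
    ∑ z, ind (condE M w e z) * (valE M w.length e z).2.1,
    ∑ z, ind (condE M w e z) * (valE M w.length e z).2.2.1,
    ∑ z, ind (condE M w e z) * (valE M w.length e z).2.2.2)

theorem nextE_encC [Finite β] {H : ℕ} {w : List β} {d : Cfg M} (hd : d.head ≤ H) :
    nextE M w (encC M H d) = encC M H (nextC M w d) := by
  rw [← valE_encC M hd]
  set z0 : M.Q × Sym β × M.Γ := (d.q, readSym w d.inp, d.tape d.head) with hz0
  have key : ∀ f : M.Q × Sym β × M.Γ → ℕ,
      ∑ z, ind (condE M w (encC M H d) z) * f z = f z0 := by
    intro f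
    rw [Finset.sum_eq_single z0]
    · rw [ind_pos ((condE_encC M hd z0).2 rfl), one_mul]
    · intro z _ hz
      rw [ind_neg (fun h => hz ((condE_encC M hd z).1 h)), zero_mul]
    · intro h; exact absurd (Finset.mem_univ _) h
  unfold nextE
  rw [key, key, key, key]

/-- Halting codes. -/
def haltE (w : List β) (e : ℕ × ℕ × ℕ × ℕ) : Prop :=
  ∀ z, condE M w e z → M.δ z.1 z.2.1 z.2.2 = none

theorem haltE_encC {H : ℕ} {w : List β} {d : Cfg M} (hd : d.head ≤ H) :
    haltE M w (encC M H d) ↔ M.step w d = none := by
  unfold haltE TM.step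
  rw [Option.map_eq_none_iff]
  constructor
  · intro h
    exact h _ ((condE_encC M hd _).2 rfl)
  · intro h z hz
    rw [(condE_encC M hd z).1 hz]
    exact h

/-- The computation. -/
def runC (w : List β) : ℕ → Cfg M
  | 0 => M.init
  | t + 1 => nextC M w (runC w t)

theorem reach_runC (w : List β) (t : ℕ) : M.Reach w M.init (runC M w t) := by
  induction t with
  | zero => exact Relation.ReflTransGen.refl
  | succ t ih =>
    unfold runC nextC
    cases h : M.step w (runC M w t) with
    | none => simpa using ih
    | some d => exact ih.tail h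

theorem exists_runC {w : List β} {d : Cfg M} (h : M.Reach w M.init d) :
    ∃ t, runC M w t = d := by
  induction h with
  | refl => exact ⟨0, rfl⟩
  | tail _ h1 ih =>
    obtain ⟨t, ht⟩ := ih
    refine ⟨t + 1, ?_⟩
    unfold runC nextC
    rw [ht, h1]
    rfl

theorem runC_add {w : List β} {t : ℕ} (h : M.step w (runC M w t) = none) (s : ℕ) :
    runC M w (t + s) = runC M w t := by
  induction s with
  | zero => rfl
  | succ s ih =>
    show nextC M w (runC M w (t + s)) = _
    rw [ih]
    unfold nextC
    rw [h]
    rfl

theorem pow_bound (B c n : ℕ) : ∃ e, ∀ n, B ^ (c * (Nat.log 2 n + 1) + 1) ≤ (n + 2) ^ e := by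
  refine ⟨B * c + B * c + B, fun n => ?_⟩
  have h1 : B ≤ 2 ^ B := Nat.lt_two_pow_self.le
  have h2 : 2 ^ Nat.log 2 n ≤ n + 2 := by
    rcases Nat.eq_zero_or_pos n with rfl | h
    · simp
    · exact (Nat.pow_log_le_self 2 (by omega)).trans (by omega)
  calc B ^ (c * (Nat.log 2 n + 1) + 1) ≤ (2 ^ B) ^ (c * (Nat.log 2 n + 1) + 1) :=
        Nat.pow_le_pow_left h1 _
    _ = (2 ^ Nat.log 2 n) ^ (B * c) * 2 ^ (B * c + B) := by
        rw [← pow_mul, ← pow_mul, ← pow_add]; congr 1; ring
    _ ≤ (n + 2) ^ (B * c) * (n + 2) ^ (B * c + B) :=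
        Nat.mul_le_mul (Nat.pow_le_pow_left h2 _) (Nat.pow_le_pow_left (by omega) _)
    _ = _ := by rw [← pow_add]; congr 1; ring

theorem inp_le (w : List β) (t : ℕ) : (runC M w t).inp ≤ w.length + 1 := by
  induction t with
  | zero => simp [runC, TM.init]
  | succ t ih =>
    unfold runC nextC TM.step
    cases h : M.δ (runC M w t).q (readSym w (runC M w t).inp)
      ((runC M w t).tape (runC M w t).head) with
    | none => simpa using ih
    | some s =>
      simp only [Option.map_some, Option.getD_some]
      cases s.2.2.1 with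
      | left => simp only [moveInp]; omega
      | stay => simpa [moveInp] using ih
      | right => simp only [moveInp]; omega

end code

section reduction

/-- `L` is closed under logarithmic space reductions. -/
theorem FP.inL_comp [Finite β] {S : Set (List β)} (hS : InL S) {V : List α → X → List β}
    (hlen : Fn fun w x => (V w x).length)
    (hV : ∀ b, FP fun w (y : X × ℕ) => (V w y.1)[y.2]? = some b) :
    FP fun w x => V w x ∈ S := by
  obtain ⟨M, c, hM⟩ := hS
  obtain ⟨e, he⟩ := pow_bound (bas M) c 0
  have hFβ : Fintype β := Fintype.ofFinite β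
  let H : List β → ℕ := fun v => c * (Nat.log 2 v.length + 1)
  have hhead : ∀ v t, (runC M v t).head ≤ H v := fun v t => (hM v).1 _ (reach_runC M v t)
  -- the sequence of codes
  let F : List α → X → ℕ → ℕ × ℕ × ℕ × ℕ := fun w x t =>
    encC M (H (V w x)) (runC M (V w x) t)
  have hFs : ∀ w x t, F w x (t + 1) = nextE M (V w x) (F w x t) := fun w x t =>
    (nextE_encC M (hhead _ _)).symm
  let Dp : List α → X → ℕ := fun w x => ((V w x).length + 2) ^ e
  have hDp : Fn Dp := (hlen.add (Fn.const 2)).powC e
  have hb1 : ∀ v t, (encC M (H v) (runC M v t)).1 < Fintype.card M.Q := fun v t => qc_lt M _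
  have hb2 : ∀ v t, (encC M (H v) (runC M v t)).2.1 < v.length + 2 := fun v t => by
    have := inp_le M v t
    show (runC M v t).inp < _
    omega
  have hb3 : ∀ v t, (encC M (H v) (runC M v t)).2.2.1 < (v.length + 2) ^ e := fun v t =>
    lt_of_lt_of_le (num_lt fun i => gc_lt M _) (he _)
  have hb4 : ∀ v t, (encC M (H v) (runC M v t)).2.2.2 < (v.length + 2) ^ e + 1 := fun v t => by
    refine Nat.lt_succ_of_le (le_trans ?_ (he _))
    show bas M ^ (runC M v t).head ≤ _
    exact Nat.pow_le_pow_right (by have := two_le_bas M; omega) (by have := hhead v t; simp only [H] at this; omega)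
  -- number of steps
  let T : List α → X → ℕ := fun w x => Fintype.card M.Q * (((V w x).length + 2) *
    (Dp w x * (Dp w x + 1)))
  have hT : Fn T := (Fn.const _).mul ((hlen.add (Fn.const 2)).mul (hDp.mul hDp.succ))
  have hhalt : ∀ v : List β, ∀ k, M.step v (runC M v k) = none →
      (∀ j < k, M.step v (runC M v j) ≠ none) →
      k < Fintype.card M.Q * ((v.length + 2) * ((v.length + 2) ^ e *
        ((v.length + 2) ^ e + 1))) := by
    intro v k hk hmin
    let f : Fin (k + 1) → Fin (Fintype.card M.Q) × Fin (v.length + 2) ×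
        Fin ((v.length + 2) ^ e) × Fin ((v.length + 2) ^ e + 1) := fun t =>
      (⟨_, hb1 v t⟩, ⟨_, hb2 v t⟩, ⟨_, hb3 v t⟩, ⟨_, hb4 v t⟩)
    have hne : ∀ s t, s < t → t ≤ k →
        encC M (H v) (runC M v s) ≠ encC M (H v) (runC M v t) := by
      intro s t hst htk heq
      have hshift : ∀ i, encC M (H v) (runC M v (s + i)) = encC M (H v) (runC M v (t + i)) := by
        intro i
        induction i with
        | zero => exact heq
        | succ i ih =>
          show encC M (H v) (nextC M v (runC M v (s + i))) =
            encC M (H v) (nextC M v (runC M v (t + i)))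
          rw [← nextE_encC M (hhead _ _), ← nextE_encC M (hhead _ _), ih]
      have h1 := hshift (k - t)
      rw [show t + (k - t) = k by omega] at h1
      have h2 : haltE M v (encC M (H v) (runC M v k)) := (haltE_encC M (hhead _ _)).2 hk
      rw [← h1, haltE_encC M (hhead _ _)] at h2
      exact hmin _ (by omega) h2
    have hinj : Function.Injective f := by
      intro s t hst
      simp only [f, Prod.mk.injEq, Fin.mk.injEq] at hst
      have h0 : encC M (H v) (runC M v s) = encC M (H v) (runC M v t) := by
        refine Prod.ext hst.1 (Prod.ext hst.2.1 (Prod.ext hst.2.2.1 hst.2.2.2))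
      rcases lt_trichotomy s.val t.val with h | h | h
      · exact absurd h0 (hne _ _ h (by omega))
      · exact Fin.ext h
      · exact absurd h0.symm (hne _ _ h (by omega))
    have := Fintype.card_le_of_injective f hinj
    simp only [Fintype.card_fin, Fintype.card_prod] at this
    omega
  have hfinal : ∀ w x, ((runC M (V w x) (T w x)).q ∈ M.accept ↔ V w x ∈ S) := by
    intro w x
    obtain ⟨d, hd1, hd2, hd3⟩ := (hM (V w x)).2
    obtain ⟨k', hk'⟩ := exists_runC M hd1
    have hex : ∃ k, M.step (V w x) (runC M (V w x) k) = none := ⟨k', by rw [hk']; exact hd2⟩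
    have hk := Nat.find_spec hex
    have hlt := hhalt (V w x) (Nat.find hex) hk fun j hj => Nat.find_min hex hj
    have h1 : runC M (V w x) (T w x) = runC M (V w x) (Nat.find hex) := by
      have := runC_add M hk (T w x - Nat.find hex)
      rwa [Nat.add_sub_cancel' (le_of_lt hlt)] at this
    have h2 : d = runC M (V w x) (Nat.find hex) := by
      have h3 : Nat.find hex ≤ k' := Nat.find_min' hex (by rw [hk']; exact hd2)
      have := runC_add M hk (k' - Nat.find hex)
      rw [Nat.add_sub_cancel' h3, hk'] at this
      exact this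
    rw [h1, ← h2]
    exact hd3
  -- the function computing codes
  have hstep : Fn fun w (p : X × ℕ × (ℕ × ℕ × ℕ × ℕ)) => nextE M (V w p.1) p.2.2 := by
    let Y := X × ℕ × (ℕ × ℕ × ℕ × ℕ)
    have h1 : Fn fun (w : List α) (p : Y) => p.2.2.1 := Fn.id.snd.snd.fst
    have h2 : Fn fun (w : List α) (p : Y) => p.2.2.2.1 := Fn.id.snd.snd.snd.fst
    have h3 : Fn fun (w : List α) (p : Y) => p.2.2.2.2.1 := Fn.id.snd.snd.snd.snd.fst
    have h4 : Fn fun (w : List α) (p : Y) => p.2.2.2.2.2 := Fn.id.snd.snd.snd.snd.snd
    have hl : Fn fun (w : List α) (p : Y) => (V w p.1).length := hlen.comp Fn.id.fst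
    have hread : ∀ s : Sym β, FP fun w (p : Y) => readSym (V w p.1) p.2.2.2.1 = s := by
      intro s
      have hVp : ∀ b, FP fun w (p : Y) => (V w p.1)[p.2.2.2.1 - 1]? = some b := fun b =>
        (hV b).comp (g := fun w (p : Y) => (p.1, p.2.2.2.1 - 1)) (Fn.id.fst.pair h2.pred)
      cases s with
      | lend =>
        refine (FP.eq_zero h2).congr fun w p => ?_
        unfold readSym
        cases h : p.2.2.2.1 with
        | zero => simp
        | succ n =>
          simp only
          cases (V w p.1)[n]? <;> simp
      | letter b =>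
        refine ((FP.ne_zero h2).and (hVp b)).congr fun w p => ?_
        unfold readSym
        cases h : p.2.2.2.1 with
        | zero => simp
        | succ n =>
          simp only [Nat.add_sub_cancel]
          cases (V w p.1)[n]? <;> simp
      | rend =>
        refine ((FP.ne_zero h2).and (FP.allFin fun b => (hVp b).not)).congr fun w p => ?_
        unfold readSym
        cases h : p.2.2.2.1 with
        | zero => simp
        | succ n =>
          simp only [Nat.add_sub_cancel]
          cases (V w p.1)[n]? <;> simp
    have hcond : ∀ z, FP fun w (p : Y) => condE M (V w p.1) p.2.2 z := by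
      intro z
      unfold condE
      exact (FP.eq (Fn.const _) h1).and ((hread _).and (FP.eq (Fn.const _)
        ((h3.div h4).mod (Fn.const _))))
    have hval : ∀ z, Fn fun w (p : Y) => valE M (V w p.1).length p.2.2 z := by
      intro z
      unfold valE
      cases hδ : M.δ z.1 z.2.1 z.2.2 with
      | none => exact Fn.id.snd.snd
      | some t =>
        simp only
        refine (Fn.const _).pair (Fn.pair ?_ (Fn.pair ?_ ?_))
        · cases t.2.2.1 with
          | left => exact h2.pred
          | stay => exact h2
          | right =>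
            have := Fn.ite (FP.le h2.succ hl.succ) h2.succ hl.succ
            convert this using 3 with w p
            simp only [moveInp]
            split_ifs with h <;> omega
        · exact (h3.add ((Fn.const _).mul h4)).sub ((Fn.const _).mul h4)
        · cases t.2.2.2 with
          | left => exact Fn.ite (FP.eq h4 (Fn.const 1)) (Fn.const 1) (h4.div (Fn.const _))
          | stay => exact h4
          | right => exact h4.mul (Fn.const _)
    unfold nextE
    exact Fn.pair (Fn.sumF _ fun z _ => Fn.mul (hcond z) (hval z).fst)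
      (Fn.pair (Fn.sumF _ fun z _ => Fn.mul (hcond z) (hval z).snd.fst)
      (Fn.pair (Fn.sumF _ fun z _ => Fn.mul (hcond z) (hval z).snd.snd.fst)
      (Fn.sumF _ fun z _ => Fn.mul (hcond z) (hval z).snd.snd.snd)))
  have hF : Fn fun w x => F w x (T w x) := by
    refine Fn.natRec (step := fun w p => nextE M (V w p.1) p.2.2) hT ?_ hstep hFs ?_
    · have h0 : (fun w x => F w x 0) = fun (w : List α) (x : X) =>
          ((qc M M.start, 0, 0, 1) : ℕ × ℕ × ℕ × ℕ) := by
        funext w x
        simp only [F, runC, TM.init, encC, gc_blank, num_zero, pow_zero]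
      rw [h0]
      exact (Fn.const _).pair ((Fn.const _).pair ((Fn.const _).pair (Fn.const _)))
    · refine ⟨fun w x => Fintype.card M.Q + ((V w x).length + 2) + Dp w x + (Dp w x + 1),
        (((PB.const _).add (hlen.add (Fn.const 2)).pb).add hDp.pb).add hDp.succ.pb,
        fun w x t _ => ?_⟩
      have h1 := hb1 (V w x) t
      have h2 := hb2 (V w x) t
      have h3 := hb3 (V w x) t
      have h4 := hb4 (V w x) t
      simp only [norm'_prod, norm'_nat]
      simp only [F, Dp]
      omega
  have hacc : FP fun w x => ∃ q ∈ (Set.toFinite M.accept).toFinset,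
      (F w x (T w x)).1 = qc M q := FP.bexF _ fun q _ => FP.eq hF.fst (Fn.const _)
  refine hacc.congr fun w x => ?_
  rw [← hfinal w x]
  constructor
  · intro h
    exact ⟨_, (Set.Finite.mem_toFinset _).2 h, rfl⟩
  · rintro ⟨q, hq, h⟩
    have : (runC M (V w x) (T w x)).q = q := qc_inj M h
    rw [this]
    exact (Set.Finite.mem_toFinset _).1 hq

/-- A language is in `L` iff it is decided by a logarithmic space function. -/
theorem inL_iff_FP [Finite α] {S : Set (List α)} :
    InL S ↔ FP fun w (_ : Unit) => w ∈ S := by
  constructor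
  · intro h
    exact FP.inL_comp h (V := fun w _ => w) Fn.len fun b => Fn.letterP b Fn.id.snd
  · intro h
    exact inL_of_FP S _ h fun w => Iff.rfl

/-- Closure of `L` under logarithmic space reductions. -/
theorem InL.of_reduction [Finite α] [Finite β] {S : Set (List β)} (hS : InL S)
    {V : List α → List β} (hlen : Fn fun w (_ : Unit) => (V w).length)
    (hV : ∀ b, FP fun w (y : Unit × ℕ) => (V w)[y.2]? = some b) : InL (V ⁻¹' S) :=
  inL_iff_FP.2 (FP.inL_comp hS (V := fun w _ => V w) hlen hV)

end reduction

end Pool.Agent.Helper38.LinL
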