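import Pool.Agent.Helper38.LinL.Sim2

/-!
# Structured commands and their compilation to register programs
-/

namespace Pool.Agent.Helper38.LinL

open Classical

inductive Cmd (α : Type)
  | skip : Cmd α
  | inc (r : ℕ) : Cmd α
  | dec (r : ℕ) : Cmd α
  | seq (a b : Cmd α) : Cmd α
  | whileNZ (r : ℕ) (c : Cmd α) : Cmd α
  | hr : Cmd α
  | hl : Cmd α
  | ifSym (s : Sym α) (c : Cmd α) : Cmd α
  | untilSym (s : Sym α) (c : Cmd α) : Cmd α

/-- Big-step semantics with register values bounded by `B`. -/
inductive Big {α : Type} (w : List α) (B : ℕ) : Cmd α → (ℕ → ℕ) → ℕ → (ℕ → ℕ) → ℕ → Prop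
  | skip {σ h} : Big w B Cmd.skip σ h σ h
  | inc {σ h r} : σ r + 1 ≤ B → Big w B (Cmd.inc r) σ h (Function.update σ r (σ r + 1)) h
  | dec {σ h r} : σ r ≠ 0 → Big w B (Cmd.dec r) σ h (Function.update σ r (σ r - 1)) h
  | seq {a b σ h σ' h' σ'' h''} : Big w B a σ h σ' h' → Big w B b σ' h' σ'' h'' →
      Big w B (Cmd.seq a b) σ h σ'' h''
  | wz {r c σ h} : σ r = 0 → Big w B (Cmd.whileNZ r c) σ h σ h
  | ws {r c σ h σ' h' σ'' h''} : σ r ≠ 0 → Big w B c σ h σ' h' →
      Big w B (Cmd.whileNZ r c) σ' h' σ'' h'' → Big w B (Cmd.whileNZ r c) σ h σ'' h''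
  | hr {σ h} : Big w B Cmd.hr σ h σ (min (h + 1) (w.length + 1))
  | hl {σ h} : Big w B Cmd.hl σ h σ (h - 1)
  | if0 {s c σ h} : readSym w h ≠ s → Big w B (Cmd.ifSym s c) σ h σ h
  | if1 {s c σ h σ' h'} : readSym w h = s → Big w B c σ h σ' h' →
      Big w B (Cmd.ifSym s c) σ h σ' h'
  | uz {s c σ h} : readSym w h = s → Big w B (Cmd.untilSym s c) σ h σ h
  | us {s c σ h σ' h' σ'' h''} : readSym w h ≠ s → Big w B c σ h σ' h' →
      Big w B (Cmd.untilSym s c) σ' h' σ'' h'' → Big w B (Cmd.untilSym s c) σ h σ'' h''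

def Cmd.size {α : Type} : Cmd α → ℕ
  | Cmd.skip => 0
  | Cmd.inc _ => 1
  | Cmd.dec _ => 1
  | Cmd.seq a b => a.size + b.size
  | Cmd.whileNZ _ c => c.size + 2
  | Cmd.hr => 1
  | Cmd.hl => 1
  | Cmd.ifSym _ c => c.size + 1
  | Cmd.untilSym _ c => c.size + 2

/-- Code of the command, when placed at address `a`. -/
def Cmd.code {α : Type} : Cmd α → ℕ → List (Instr α)
  | Cmd.skip, _ => []
  | Cmd.inc r, _ => [Instr.inc r]
  | Cmd.dec r, _ => [Instr.dec r]
  | Cmd.seq x y, a => x.code a ++ y.code (a + x.size)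
  | Cmd.whileNZ r c, a => Instr.jz r (a + c.size + 2) :: (c.code (a + 1) ++ [Instr.jmp a])
  | Cmd.hr, _ => [Instr.hr]
  | Cmd.hl, _ => [Instr.hl]
  | Cmd.ifSym s c, a => Instr.jn s (a + c.size + 1) :: c.code (a + 1)
  | Cmd.untilSym s c, a => Instr.js s (a + c.size + 2) :: (c.code (a + 1) ++ [Instr.jmp a])

theorem Cmd.length_code {α : Type} : ∀ (c : Cmd α) (a : ℕ), (c.code a).length = c.size
  | Cmd.skip, _ => rfl
  | Cmd.inc _, _ => rfl
  | Cmd.dec _, _ => rfl
  | Cmd.seq x y, a => by simp [Cmd.code, Cmd.size, x.length_code, y.length_code]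
  | Cmd.whileNZ r c, a => by simp [Cmd.code, Cmd.size, c.length_code]
  | Cmd.hr, _ => rfl
  | Cmd.hl, _ => rfl
  | Cmd.ifSym s c, a => by simp [Cmd.code, Cmd.size, c.length_code]
  | Cmd.untilSym s c, a => by simp [Cmd.code, Cmd.size, c.length_code]

/-- The code `Q` sits in `P` at address `a`. -/
def At {α : Type} (P : List (Instr α)) (a : ℕ) (Q : List (Instr α)) : Prop :=
  a + Q.length ≤ P.length ∧ ∀ i < Q.length, P[a + i]? = Q[i]?

theorem At.left {α : Type} {P : List (Instr α)} {a : ℕ} {Q R : List (Instr α)}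
    (h : At P a (Q ++ R)) : At P a Q := by
  refine ⟨?_, fun i hi => ?_⟩
  · have := h.1
    simp only [List.length_append] at this
    omega
  · rw [h.2 i (by simp; omega), List.getElem?_append_left hi]

theorem At.right {α : Type} {P : List (Instr α)} {a : ℕ} {Q R : List (Instr α)}
    (h : At P a (Q ++ R)) : At P (a + Q.length) R := by
  refine ⟨?_, fun i hi => ?_⟩
  · have := h.1
    simp only [List.length_append] at this
    omega
  · rw [add_assoc, h.2 (Q.length + i) (by simp; omega), List.getElem?_append_right (by omega)]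
    simp

theorem At.head {α : Type} {P : List (Instr α)} {a : ℕ} {x : Instr α} {R : List (Instr α)}
    (h : At P a (x :: R)) : P[a]? = some x := by
  simpa using h.2 0 (by simp)

theorem At.tail {α : Type} {P : List (Instr α)} {a : ℕ} {x : Instr α} {R : List (Instr α)}
    (h : At P a (x :: R)) : At P (a + 1) R :=
  At.right (Q := [x]) h

theorem Big.flow {α : Type} {w : List α} {B : ℕ} {P : List (Instr α)} {c : Cmd α}
    {σ σ' : ℕ → ℕ} {h h' : ℕ} (hb : Big w B c σ h σ' h') :
    ∀ {a : ℕ}, At P a (c.code a) →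
      Relation.ReflTransGen (FStep P w B) ⟨a, σ, h⟩ ⟨a + c.size, σ', h'⟩ := by
  induction hb with
  | skip => intro a _; exact Relation.ReflTransGen.refl
  | inc hB => intro a ha; exact Relation.ReflTransGen.single (FStep.inc ha.head hB)
  | dec h0 => intro a ha; exact Relation.ReflTransGen.single (FStep.dec ha.head h0)
  | @seq x y σ h σ' h' σ'' h'' _ _ ih1 ih2 =>
    intro a ha
    have h1 := ih1 (At.left ha)
    have h2 := ih2 (a := a + x.size) (by
      have := At.right ha
      rwa [Cmd.length_code] at this)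
    have := h1.trans h2
    rwa [add_assoc] at this
  | @wz r c σ h h0 =>
    intro a ha
    exact Relation.ReflTransGen.single (FStep.jz0 ha.head h0 (by
      have := ha.1
      rw [Cmd.length_code] at this
      simpa [Cmd.size, add_assoc] using this))
  | @ws r c σ h σ' h' σ'' h'' h0 _ _ ih1 ih2 =>
    intro a ha
    have h1 := ih1 (a := a + 1) (At.left (At.tail ha))
    have h2 := At.right (At.tail ha)
    rw [Cmd.length_code] at h2
    have h3 : FStep P w B ⟨a + 1 + c.size, σ', h'⟩ ⟨a, σ', h'⟩ := by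
      apply FStep.jmp h2.head
      have := ha.1
      omega
    exact Relation.ReflTransGen.head (FStep.jz1 ha.head h0) (h1.trans
      (Relation.ReflTransGen.head h3 (ih2 ha)))
  | hr => intro a ha; exact Relation.ReflTransGen.single (FStep.hr ha.head)
  | hl => intro a ha; exact Relation.ReflTransGen.single (FStep.hl ha.head)
  | @if0 s c σ h h0 =>
    intro a ha
    exact Relation.ReflTransGen.single (FStep.jn0 ha.head h0 (by
      have := ha.1
      rw [Cmd.length_code] at this
      simpa [Cmd.size, add_assoc] using this))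
  | @if1 s c σ h σ' h' h0 _ ih =>
    intro a ha
    have h1 := ih (a := a + 1) (At.tail ha)
    rw [show a + (Cmd.ifSym s c).size = a + 1 + c.size by simp only [Cmd.size]; ring]
    exact Relation.ReflTransGen.head (FStep.jn1 ha.head h0) h1
  | @uz s c σ h h0 =>
    intro a ha
    exact Relation.ReflTransGen.single (FStep.js0 ha.head h0 (by
      have := ha.1
      rw [Cmd.length_code] at this
      simpa [Cmd.size, add_assoc] using this))
  | @us s c σ h σ' h' σ'' h'' h0 _ _ ih1 ih2 =>
    intro a ha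
    have h1 := ih1 (a := a + 1) (At.left (At.tail ha))
    have h2 := At.right (At.tail ha)
    rw [Cmd.length_code] at h2
    have h3 : FStep P w B ⟨a + 1 + c.size, σ', h'⟩ ⟨a, σ', h'⟩ := by
      apply FStep.jmp h2.head
      have := ha.1
      omega
    exact Relation.ReflTransGen.head (FStep.js1 ha.head h0) (h1.trans
      (Relation.ReflTransGen.head h3 (ih2 ha)))

/-- A number above all registers used. -/
def Cmd.maxReg {α : Type} : Cmd α → ℕ
  | Cmd.skip => 0
  | Cmd.inc r => r + 1
  | Cmd.dec r => r + 1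
  | Cmd.seq a b => max a.maxReg b.maxReg
  | Cmd.whileNZ r c => max (r + 1) c.maxReg
  | Cmd.hr => 0
  | Cmd.hl => 0
  | Cmd.ifSym _ c => c.maxReg
  | Cmd.untilSym _ c => c.maxReg

theorem Cmd.regLt {α : Type} : ∀ (c : Cmd α) (a K : ℕ), c.maxReg ≤ K →
    ∀ x ∈ c.code a, x.RegLt K
  | Cmd.skip, _, _, _ => by simp [Cmd.code]
  | Cmd.inc r, _, K, h => by
      simp only [Cmd.maxReg] at h
      simp only [Cmd.code, List.mem_singleton, forall_eq, Instr.RegLt]
      omega
  | Cmd.dec r, _, K, h => by
      simp only [Cmd.maxReg] at h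
      simp only [Cmd.code, List.mem_singleton, forall_eq, Instr.RegLt]
      omega
  | Cmd.seq x y, a, K, h => by
      simp only [Cmd.maxReg, max_le_iff] at h
      intro z hz
      simp only [Cmd.code, List.mem_append] at hz
      rcases hz with hz | hz
      · exact x.regLt _ K h.1 z hz
      · exact y.regLt _ K h.2 z hz
  | Cmd.whileNZ r c, a, K, h => by
      simp only [Cmd.maxReg, max_le_iff] at h
      intro z hz
      simp only [Cmd.code, List.mem_cons, List.mem_append, List.not_mem_nil, or_false] at hz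
      rcases hz with rfl | hz | rfl
      · simp only [Instr.RegLt]; omega
      · exact c.regLt _ K h.2 z hz
      · trivial
  | Cmd.hr, _, _, _ => by simp [Cmd.code, Instr.RegLt]
  | Cmd.hl, _, _, _ => by simp [Cmd.code, Instr.RegLt]
  | Cmd.ifSym s c, a, K, h => by
      simp only [Cmd.maxReg] at h
      intro z hz
      simp only [Cmd.code, List.mem_cons] at hz
      rcases hz with rfl | hz
      · trivial
      · exact c.regLt _ K h z hz
  | Cmd.untilSym s c, a, K, h => by
      simp only [Cmd.maxReg] at h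
      intro z hz
      simp only [Cmd.code, List.mem_cons, List.mem_append, List.not_mem_nil, or_false] at hz
      rcases hz with rfl | hz | rfl
      · trivial
      · exact c.regLt _ K h z hz
      · trivial

theorem inL_of_cmd {α : Type} (X : Set (List α)) (c : Cmd α) (e : ℕ)
    (h : ∀ w : List α, ∃ (σ : ℕ → ℕ) (i : ℕ),
      Big w ((w.length + 2) ^ e) c (fun _ => 0) 0 σ i ∧ (σ 0 ≠ 0 ↔ w ∈ X)) : InL X := by
  refine inL_of_program X (c.code 0) (c.maxReg + 1) (by omega) (c.regLt 0 _ (by omega)) e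
    fun w => ?_
  obtain ⟨σ, i, h1, h2⟩ := h w
  refine ⟨σ, i, ?_, h2⟩
  have := h1.flow (P := c.code 0) (a := 0) ⟨by simp, fun i _ => by simp⟩
  rw [Cmd.length_code]
  simpa using this

end Pool.Agent.Helper38.LinL
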