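import Pool.Agent.Helper38.LinL.Prime

/-!
# Counting runs of a weighted automaton by power sums over prime fields
-/

namespace Pool.Agent.Helper38.LinL

open Finset Polynomial

/-- A weighted automaton: finitely many states, moves without reading (with a weight), and moves
reading a letter (of weight `0`). -/
structure WA (α : Type) where
  Q : Type
  fin : Fintype Q
  dec : DecidableEq Q
  eps : Finset (Q × ℕ × Q)
  tr : α → Q → Q → Prop

attribute [instance] WA.fin WA.dec

open Classical in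
/-- Vectors of path counts with respect to the schedule: `T` non-reading or idle steps, then one
reading step, and so on. -/
noncomputable def WA.Vs {α : Type} (A : WA α) {S : Type} [CommSemiring S] (c : ℕ → Option α) (T : ℕ) (q0 : A.Q) (z : S) :
    ℕ → A.Q → S
  | 0 => fun q => if q = q0 then 1 else 0
  | τ + 1 => fun q' => if τ % (T + 1) = T then
        ∑ q, if (∃ a, c (τ / (T + 1)) = some a ∧ A.tr a q q') then A.Vs c T q0 z τ q else 0
      else A.Vs c T q0 z τ q' +
        ∑ e ∈ A.eps, if e.2.2 = q' then z ^ e.2.1 * A.Vs c T q0 z τ e.1 else 0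

/-- Schedule paths. -/
def WA.SP {α : Type} (A : WA α) (c : ℕ → Option α) (T : ℕ) (q0 : A.Q) : ℕ → A.Q → ℕ → Prop
  | 0 => fun q l => q = q0 ∧ l = 0
  | τ + 1 => fun q' l => if τ % (T + 1) = T then
        ∃ q, (∃ a, c (τ / (T + 1)) = some a ∧ A.tr a q q') ∧ A.SP c T q0 τ q l
      else A.SP c T q0 τ q' l ∨ ∃ e ∈ A.eps, e.2.2 = q' ∧ e.2.1 ≤ l ∧
        A.SP c T q0 τ e.1 (l - e.2.1)

variable {α : Type} (A : WA α)

theorem coeff_sum_ne_zero {ι : Type*} (s : Finset ι) (f : ι → ℕ[X]) (l : ℕ) :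
    (∑ i ∈ s, f i).coeff l ≠ 0 ↔ ∃ i ∈ s, (f i).coeff l ≠ 0 := by
  rw [Polynomial.finsetSum_coeff, ne_eq, Finset.sum_eq_zero_iff]
  push Not
  rfl

theorem WA.coeff_Vs (c : ℕ → Option α) (T : ℕ) (q0 : A.Q) (τ : ℕ) :
    ∀ (q : A.Q) (l : ℕ), (A.Vs c T q0 (X : ℕ[X]) τ q).coeff l ≠ 0 ↔ A.SP c T q0 τ q l := by
  induction τ with
  | zero =>
    intro q l
    simp only [WA.Vs, WA.SP]
    by_cases h : q = q0
    · simp [h, Polynomial.coeff_one]
    · simp [h]
  | succ τ ih =>
    intro q' l
    simp only [WA.Vs, WA.SP]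
    by_cases hτ : τ % (T + 1) = T
    · rw [if_pos hτ, if_pos hτ, coeff_sum_ne_zero]
      constructor
      · rintro ⟨q, _, hq⟩
        by_cases h : ∃ a, c (τ / (T + 1)) = some a ∧ A.tr a q q'
        · rw [if_pos h] at hq
          exact ⟨q, h, (ih q l).1 hq⟩
        · rw [if_neg h] at hq
          simp at hq
      · rintro ⟨q, h, hq⟩
        refine ⟨q, Finset.mem_univ _, ?_⟩
        rw [if_pos h]
        exact (ih q l).2 hq
    · rw [if_neg hτ, if_neg hτ, Polynomial.coeff_add]
      have h1 : ∀ a b : ℕ, a + b ≠ 0 ↔ a ≠ 0 ∨ b ≠ 0 := by intro a b; omega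
      rw [h1, coeff_sum_ne_zero, ih]
      refine or_congr Iff.rfl ?_
      constructor
      · rintro ⟨e, he, hne⟩
        by_cases h : e.2.2 = q'
        · rw [if_pos h, Polynomial.coeff_X_pow_mul'] at hne
          by_cases h2 : e.2.1 ≤ l
          · rw [if_pos h2] at hne
            exact ⟨e, he, h, h2, (ih _ _).1 hne⟩
          · rw [if_neg h2] at hne
            exact absurd rfl hne
        · rw [if_neg h] at hne
          simp at hne
      · rintro ⟨e, he, h, h2, hs⟩
        refine ⟨e, he, ?_⟩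
        rw [if_pos h, Polynomial.coeff_X_pow_mul', if_pos h2]
        exact (ih _ _).2 hs

theorem WA.map_Vs {S S' : Type} [CommSemiring S] [CommSemiring S'] (f : S →+* S')
    (c : ℕ → Option α) (T : ℕ) (q0 : A.Q) (z : S) (τ : ℕ) :
    ∀ q, f (A.Vs c T q0 z τ q) = A.Vs c T q0 (f z) τ q := by
  induction τ with
  | zero =>
    intro q
    simp only [WA.Vs]
    split_ifs <;> simp
  | succ τ ih =>
    intro q'
    simp only [WA.Vs]
    split_ifs with hτ
    · rw [map_sum]
      refine Finset.sum_congr rfl fun q _ => ?_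
      split_ifs
      · exact ih q
      · exact map_zero f
    · rw [map_add, map_sum, ih]
      congr 1
      refine Finset.sum_congr rfl fun e _ => ?_
      split_ifs
      · rw [map_mul, map_pow, ih]
      · exact map_zero f

/-- Bound for the weights. -/
def WA.W : ℕ := A.eps.sup fun e => e.2.1

theorem WA.natDegree_Vs (c : ℕ → Option α) (T : ℕ) (q0 : A.Q) (τ : ℕ) :
    ∀ q, (A.Vs c T q0 (X : ℕ[X]) τ q).natDegree ≤ A.W * τ := by
  induction τ with
  | zero =>
    intro q
    simp only [WA.Vs]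
    split_ifs <;> simp
  | succ τ ih =>
    intro q'
    have hle : A.W * τ ≤ A.W * (τ + 1) := Nat.mul_le_mul_left _ (Nat.le_succ _)
    simp only [WA.Vs]
    split_ifs with hτ
    · refine Polynomial.natDegree_sum_le_of_forall_le _ _ fun q _ => ?_
      split_ifs
      · exact (ih q).trans hle
      · simp
    · refine (Polynomial.natDegree_add_le _ _).trans (max_le ((ih q').trans hle) ?_)
      refine Polynomial.natDegree_sum_le_of_forall_le _ _ fun e he => ?_
      split_ifs
      · refine Polynomial.natDegree_mul_le.trans ?_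
        have h1 : e.2.1 ≤ A.W := Finset.le_sup (f := fun e : A.Q × ℕ × A.Q => e.2.1) he
        have h2 := ih e.1
        rw [Polynomial.natDegree_X_pow]
        calc e.2.1 + _ ≤ A.W + A.W * τ := Nat.add_le_add h1 h2
          _ = A.W * (τ + 1) := by ring
      · simp

/-- Bound for the number of runs. -/
def WA.C : ℕ := Fintype.card A.Q + A.eps.card + 1

theorem WA.Vs_one_le (c : ℕ → Option α) (T : ℕ) (q0 : A.Q) (τ : ℕ) :
    ∀ q, A.Vs c T q0 (1 : ℕ) τ q ≤ A.C ^ τ := by
  have hC : 1 ≤ A.C := by unfold WA.C; omega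
  induction τ with
  | zero =>
    intro q
    simp only [WA.Vs]
    split_ifs <;> simp
  | succ τ ih =>
    intro q'
    simp only [WA.Vs]
    split_ifs with hτ
    · calc _ ≤ ∑ _q : A.Q, A.C ^ τ := by
            refine Finset.sum_le_sum fun q _ => ?_
            split_ifs
            · exact ih q
            · exact Nat.zero_le _
        _ = Fintype.card A.Q * A.C ^ τ := by simp
        _ ≤ A.C * A.C ^ τ := Nat.mul_le_mul_right _ (by unfold WA.C; omega)
        _ = A.C ^ (τ + 1) := by rw [pow_succ]; ring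
    · calc A.Vs c T q0 (1 : ℕ) τ q' + ∑ e ∈ A.eps, (if e.2.2 = q' then
            1 ^ e.2.1 * A.Vs c T q0 (1 : ℕ) τ e.1 else 0)
            ≤ A.C ^ τ + ∑ _e ∈ A.eps, A.C ^ τ := by
            refine Nat.add_le_add (ih q') (Finset.sum_le_sum fun e _ => ?_)
            split_ifs
            · rw [one_pow, one_mul]; exact ih e.1
            · exact Nat.zero_le _
        _ = (1 + A.eps.card) * A.C ^ τ := by rw [Finset.sum_const, smul_eq_mul]; ring
        _ ≤ A.C * A.C ^ τ := Nat.mul_le_mul_right _ (by unfold WA.C; omega)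
        _ = A.C ^ (τ + 1) := by rw [pow_succ]; ring

theorem WA.coeff_le (c : ℕ → Option α) (T : ℕ) (q0 : A.Q) (τ : ℕ) (q : A.Q) (l : ℕ) :
    (A.Vs c T q0 (X : ℕ[X]) τ q).coeff l ≤ A.C ^ τ := by
  refine le_trans ?_ (A.Vs_one_le c T q0 τ q)
  have h1 := A.map_Vs (Polynomial.evalRingHom (1 : ℕ)) c T q0 X τ q
  rw [Polynomial.coe_evalRingHom, Polynomial.eval_X] at h1
  rw [← h1, Polynomial.eval_eq_sum_range]
  by_cases hl : l ≤ (A.Vs c T q0 (X : ℕ[X]) τ q).natDegree
  · have := Finset.single_le_sum (f := fun i => (A.Vs c T q0 (X : ℕ[X]) τ q).coeff i * 1 ^ i)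
      (s := Finset.range ((A.Vs c T q0 (X : ℕ[X]) τ q).natDegree + 1))
      (fun _ _ => Nat.zero_le _) (Finset.mem_range.2 (Nat.lt_succ_of_le hl))
    simpa using this
  · rw [Polynomial.coeff_eq_zero_of_natDegree_lt (by omega)]
    exact Nat.zero_le _

/-- Extraction of a coefficient by a power sum. -/
theorem sum_pow_mul_eval (p : ℕ) [Fact p.Prime] (f : ℕ[X]) (D l : ℕ) (hf : f.natDegree ≤ D)
    (hl : l ≤ D) (hp : D + 1 < p) :
    ∑ z ∈ Finset.range p, ((z : ZMod p) ^ (p - 1 - l) *
      (f.map (Nat.castRingHom (ZMod p))).eval (z : ZMod p)) = -((f.coeff l : ℕ) : ZMod p) := by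
  have hp1 : p - 1 - l ≠ 0 := by omega
  -- power sums
  have hpow : ∀ e : ℕ, 0 < e → e < 2 * (p - 1) →
      ∑ z ∈ Finset.range p, ((z : ZMod p) ^ e) = if e = p - 1 then -1 else 0 := by
    intro e he he2
    have h1 : ∑ z ∈ Finset.range p, ((z : ZMod p) ^ e) = ∑ z : ZMod p, z ^ e := by
      symm
      refine Finset.sum_bij (fun (z : ZMod p) _ => z.val) ?_ ?_ ?_ ?_
      · intro z _
        exact Finset.mem_range.2 (ZMod.val_lt z)
      · intro a _ b _ h
        exact ZMod.val_injective p h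
      · intro b hb
        exact ⟨(b : ZMod p), Finset.mem_univ _, ZMod.val_cast_of_lt (Finset.mem_range.1 hb)⟩
      · intro a _
        simp
    rw [h1]
    have h2 : ∑ z : ZMod p, z ^ e = ∑ z : (ZMod p)ˣ, ((z : ZMod p)) ^ e := by
      rw [← Finset.sum_filter_add_sum_filter_not Finset.univ (fun z : ZMod p => z = 0)]
      have h3 : ∑ z ∈ Finset.univ.filter (fun z : ZMod p => z = 0), z ^ e = 0 := by
        apply Finset.sum_eq_zero
        intro z hz
        rw [(Finset.mem_filter.1 hz).2, zero_pow (by omega)]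
      rw [h3, zero_add]
      symm
      refine Finset.sum_bij (fun (z : (ZMod p)ˣ) _ => (z : ZMod p)) ?_ ?_ ?_ ?_
      · intro z _
        simp
      · intro a _ b _ h
        exact Units.ext h
      · intro b hb
        exact ⟨Units.mk0 b (Finset.mem_filter.1 hb).2, Finset.mem_univ _, rfl⟩
      · intro a _
        rfl
    rw [h2]
    have h4 := FiniteField.sum_pow_units (ZMod p) e
    rw [ZMod.card] at h4
    rw [h4]
    by_cases h5 : e = p - 1
    · simp [h5]
    · rw [if_neg h5, if_neg]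
      rintro ⟨k, hk⟩
      rcases k with _ | _ | k
      · omega
      · omega
      · have : 2 * (p - 1) ≤ (p - 1) * (k + 1 + 1) := by nlinarith
        omega
  calc ∑ z ∈ Finset.range p, ((z : ZMod p) ^ (p - 1 - l) *
      (f.map (Nat.castRingHom (ZMod p))).eval (z : ZMod p))
      = ∑ z ∈ Finset.range p, ∑ i ∈ Finset.range (D + 1),
          ((f.coeff i : ℕ) : ZMod p) * (z : ZMod p) ^ (p - 1 - l + i) := by
        refine Finset.sum_congr rfl fun z _ => ?_
        rw [Polynomial.eval_eq_sum_range' (n := D + 1)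
          (lt_of_le_of_lt Polynomial.natDegree_map_le (by omega)), Finset.mul_sum]
        refine Finset.sum_congr rfl fun i _ => ?_
        rw [Polynomial.coeff_map, pow_add]
        simp only [Nat.coe_castRingHom]
        ring
    _ = ∑ i ∈ Finset.range (D + 1), ((f.coeff i : ℕ) : ZMod p) *
          ∑ z ∈ Finset.range p, (z : ZMod p) ^ (p - 1 - l + i) := by
        rw [Finset.sum_comm]
        simp_rw [Finset.mul_sum]
    _ = ∑ i ∈ Finset.range (D + 1), ((f.coeff i : ℕ) : ZMod p) *
          (if i = l then -1 else 0) := by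
        refine Finset.sum_congr rfl fun i hi => ?_
        rw [Finset.mem_range] at hi
        rw [hpow _ (by omega) (by omega)]
        congr 1
        by_cases h : i = l
        · rw [if_pos h, if_pos (by omega)]
        · rw [if_neg h, if_neg (by omega)]
    _ = -((f.coeff l : ℕ) : ZMod p) := by
        simp only [mul_ite, mul_neg, mul_one, mul_zero]
        rw [Finset.sum_ite_eq' (Finset.range (D + 1)) l]
        rw [if_pos (Finset.mem_range.2 (by omega))]

/-- Residues of the path count vectors, as natural numbers. -/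
noncomputable def WA.vr (c : ℕ → Option α) (T : ℕ) (q0 : A.Q) (p z : ℕ) (τ : ℕ) (q : A.Q) : ℕ :=
  (A.Vs c T q0 z τ q) % p

theorem WA.test (c : ℕ → Option α) (T : ℕ) (q0 : A.Q) (τ : ℕ) (q : A.Q) (l D m : ℕ)
    (hD : A.W * τ ≤ D) (hl : l ≤ D) (hm : A.C ^ τ < 2 ^ m) :
    A.SP c T q0 τ q l ↔ ∃ p < (D + 1 + m + 3) ^ 4 + 1, p.Prime ∧ D + 1 < p ∧
      (∑ z ∈ Finset.range p, (z ^ (p - 1 - l) % p) * A.vr c T q0 p z τ q) % p ≠ 0 := by
  have key : ∀ p, p.Prime → D + 1 < p →
      ((∑ z ∈ Finset.range p, (z ^ (p - 1 - l) % p) * A.vr c T q0 p z τ q) % p = 0 ↔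
        p ∣ (A.Vs c T q0 (X : ℕ[X]) τ q).coeff l) := by
    intro p hp hDp
    have : Fact p.Prime := ⟨hp⟩
    rw [← Nat.dvd_iff_mod_eq_zero, ← ZMod.natCast_eq_zero_iff, ← ZMod.natCast_eq_zero_iff]
    have h1 := sum_pow_mul_eval p (A.Vs c T q0 (X : ℕ[X]) τ q) D l
      ((A.natDegree_Vs c T q0 τ q).trans hD) hl hDp
    have h2 : ((∑ z ∈ Finset.range p, (z ^ (p - 1 - l) % p) * A.vr c T q0 p z τ q : ℕ) : ZMod p) =
        ∑ z ∈ Finset.range p, ((z : ZMod p) ^ (p - 1 - l) *
          ((A.Vs c T q0 (X : ℕ[X]) τ q).map (Nat.castRingHom (ZMod p))).eval (z : ZMod p)) := by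
      rw [Nat.cast_sum]
      refine Finset.sum_congr rfl fun z _ => ?_
      rw [Nat.cast_mul, ZMod.natCast_mod, Nat.cast_pow]
      congr 1
      unfold WA.vr
      rw [ZMod.natCast_mod]
      have h3 := A.map_Vs (Nat.castRingHom (ZMod p)) c T q0 z τ q
      have h4 := A.map_Vs ((Polynomial.evalRingHom (z : ZMod p)).comp
        (Polynomial.mapRingHom (Nat.castRingHom (ZMod p)))) c T q0 X τ q
      simp only [RingHom.comp_apply, Polynomial.coe_mapRingHom, Polynomial.coe_evalRingHom,
        Polynomial.map_X, Polynomial.eval_X] at h4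
      rw [h4, ← Nat.coe_castRingHom, h3]
    rw [h2, h1, neg_eq_zero]
  rw [← A.coeff_Vs]
  constructor
  · intro hne
    obtain ⟨p, hp, hD', hpX, hnd⟩ := exists_prime_not_dvd (D + 1) m
      ((A.Vs c T q0 (X : ℕ[X]) τ q).coeff l) (Nat.pos_of_ne_zero hne)
      (lt_of_le_of_lt (A.coeff_le c T q0 τ q l) hm)
    refine ⟨p, by omega, hp, hD', fun h => hnd ((key p hp hD').1 h)⟩
  · rintro ⟨p, _, hp, hD', h⟩ h0
    apply h
    rw [key p hp hD', h0]
    exact dvd_zero _

end Pool.Agent.Helper38.LinL
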