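import Pool.Agent.Helper38.LinL.WidthCase2

/-!
# Decomposition of derivations into loops, and the main theorem
-/

namespace Pool.Agent.Helper38.LinL

open Classical

set_option linter.unusedSimpArgs false
set_option linter.unusedVariables false
set_option linter.unusedSectionVars false

variable {α : Type}

namespace LinearGrammar

variable (G : LinearGrammar α)

/-- Words generated by derivations with all nonterminals in `S`. -/
inductive Gen (S : Set G.N) : G.N → List α → Prop
  | base {A t} : A ∈ S → (A, t) ∈ G.term → Gen S A t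
  | step {A u B v x} : A ∈ S → (A, u, B, v) ∈ G.rules → Gen S B x → Gen S A (u ++ x ++ v)

variable {G}

theorem Gen.mem {S : Set G.N} {A : G.N} {x : List α} (h : G.Gen S A x) : A ∈ S := by
  cases h with
  | base h _ => exact h
  | step h _ _ => exact h

theorem Gen.of_derives {A B : G.N} {u v : List α} (h : G.Derives A u B v) : ∀ {x : List α},
    G.Gen Set.univ B x → G.Gen Set.univ A (u ++ x ++ v) := by
  induction h with
  | refl => intro x hx; simpa using hx
  | @step u B v u' C v' _ hr ih =>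
    intro x hx
    have := ih (Gen.step (Set.mem_univ _) hr hx)
    simpa [List.append_assoc] using this

theorem mem_language {x : List α} : x ∈ G.language ↔ G.Gen Set.univ G.start x := by
  constructor
  · rintro ⟨u, B, v, t, h, ht, rfl⟩
    exact Gen.of_derives h (Gen.base (Set.mem_univ _) ht)
  · intro h
    suffices H : ∀ A x, G.Gen Set.univ A x → ∃ u B v t, G.Derives A u B v ∧ (B, t) ∈ G.term ∧
        x = u ++ t ++ v from H _ _ h
    intro A x h
    induction h with
    | base _ ht => exact ⟨[], _, [], _, .refl, ht, by simp⟩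
    | step _ hr _ ih =>
      obtain ⟨u, B, v, t, h1, h2, rfl⟩ := ih
      exact ⟨_, B, _, t, (Derives.single hr).trans h1, h2, by simp⟩

/-- The last visit to a nonterminal. -/
theorem Gen.last {S : Set G.N} {A B : G.N} {x : List α} (h : G.Gen S B x) :
    G.Gen (S \ {A}) B x ∨ ∃ u v x', G.Derives B u A v ∧ x = u ++ x' ++ v ∧ A ∈ S ∧
      ((A, x') ∈ G.term ∨ ∃ u' C v' x'', (A, u', C, v') ∈ G.rules ∧ x' = u' ++ x'' ++ v' ∧
        G.Gen (S \ {A}) C x'') := by
  induction h with
  | @base B t hB ht =>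
    by_cases hBA : B = A
    · subst hBA
      exact Or.inr ⟨[], [], t, .refl, by simp, hB, Or.inl ht⟩
    · exact Or.inl (Gen.base ⟨hB, hBA⟩ ht)
  | @step B u C v x hB hr hC ih =>
    rcases ih with ih | ⟨u1, v1, x', h1, rfl, h2, h3⟩
    · by_cases hBA : B = A
      · subst hBA
        exact Or.inr ⟨[], [], _, .refl, by simp, hB, Or.inr ⟨_, _, _, _, hr, rfl, ih⟩⟩
      · exact Or.inl (Gen.step ⟨hB, hBA⟩ hr ih)
    · exact Or.inr ⟨u ++ u1, v1 ++ v, x', (Derives.single hr).trans h1, by simp, h2, h3⟩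

variable (G) in
/-- Words generated by at most `m` loops with steps between them. -/
def Ge : ℕ → G.N → List α → Prop
  | 0, _, _ => False
  | m + 1, A, x => ∃ u v x', G.Derives A u A v ∧ x = u ++ x' ++ v ∧
      ((A, x') ∈ G.term ∨ ∃ u' C v' x'', (A, u', C, v') ∈ G.rules ∧ x' = u' ++ x'' ++ v' ∧
        Ge m C x'')

theorem ge_of_gen (m : ℕ) : ∀ {S : Set G.N} {A : G.N} {x : List α}, S.ncard ≤ m →
    G.Gen S A x → G.Ge m A x := by
  induction m with
  | zero =>
    intro S A x hS h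
    have := G.finN
    have h1 : S = ∅ := by
      rwa [Nat.le_zero, Set.ncard_eq_zero S.toFinite] at hS
    have := h.mem
    rw [h1] at this
    exact this
  | succ m ih =>
    intro S A x hS h
    have := G.finN
    have hA := h.mem
    rcases h.last (A := A) with h1 | ⟨u, v, x', h1, h2, _, h3⟩
    · exact absurd rfl h1.mem.2
    · refine ⟨u, v, x', h1, h2, ?_⟩
      rcases h3 with h3 | ⟨u', C, v', x'', h4, h5, h6⟩
      · exact Or.inl h3
      · refine Or.inr ⟨u', C, v', x'', h4, h5, ih ?_ h6⟩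
        have := Set.ncard_diff_singleton_add_one hA S.toFinite
        omega

theorem gen_of_ge (m : ℕ) : ∀ {A : G.N} {x : List α}, G.Ge m A x → G.Gen Set.univ A x := by
  induction m with
  | zero => intro A x h; exact h.elim
  | succ m ih =>
    rintro A x ⟨u, v, x', h1, rfl, h3⟩
    refine Gen.of_derives h1 ?_
    rcases h3 with h3 | ⟨u', C, v', x'', h4, rfl, h6⟩
    · exact Gen.base (Set.mem_univ _) h3
    · exact Gen.step (Set.mem_univ _) h4 (ih h6)

theorem mem_language_iff {x : List α} :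
    x ∈ G.language ↔ G.Ge (Fintype.card G.N) G.start x := by
  rw [mem_language]
  constructor
  · intro h
    refine ge_of_gen _ ?_ h
    rw [Set.ncard_univ, Nat.card_eq_fintype_card]
  · exact fun h => gen_of_ge _ h

/-- `x` occurs in `w` from `i` to `j`. -/
def Spn (w : List α) (i j : ℕ) (x : List α) : Prop :=
  i + x.length = j ∧ j ≤ w.length ∧ Mt (fun s => w[i + s]?) x

theorem spn_append {w : List α} {i j : ℕ} {x y : List α} :
    Spn w i j (x ++ y) ↔ Spn w i (i + x.length) x ∧ Spn w (i + x.length) j y := by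
  unfold Spn
  rw [Mt.append, List.length_append]
  simp only [add_assoc]
  constructor
  · rintro ⟨h1, h2, h3, h4⟩
    exact ⟨⟨trivial, by omega, h3⟩, h1, h2, h4⟩
  · rintro ⟨⟨_, h2, h3⟩, h4, h5, h6⟩
    exact ⟨h4, h5, h3, h6⟩

theorem spn_reverse {w : List α} {i j : ℕ} {v : List α} (hj : j ≤ w.length)
    (hij : i + v.length = j) :
    Mt (fun t => w[j - 1 - t]?) v.reverse ↔ Spn w i j v := by
  constructor
  · intro h
    refine ⟨hij, hj, fun s hs => ?_⟩
    have h1 := h (v.length - 1 - s) (by simp; omega)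
    simp only at h1
    rw [List.getElem?_reverse (by omega)] at h1
    have h2 : j - 1 - (v.length - 1 - s) = i + s := by omega
    have h3 : v.length - 1 - (v.length - 1 - s) = s := by omega
    rw [h2, h3] at h1
    exact h1
  · rintro ⟨_, _, h⟩ s hs
    simp only [List.length_reverse] at hs
    have h1 := h (v.length - 1 - s) (by omega)
    simp only at h1 ⊢
    rw [List.getElem?_reverse (by omega), ← h1]
    congr 1
    omega

variable (G) in
/-- `Ge` on a part of a word. -/
def GeS (m : ℕ) (A : G.N) (w : List α) (i j : ℕ) : Prop := ∃ x, Spn w i j x ∧ G.Ge m A x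

theorem geS_succ {m : ℕ} {A : G.N} {w : List α} {i j : ℕ} : G.GeS (m + 1) A w i j ↔
    j ≤ w.length ∧ ∃ p < j + 1, ∃ q < j + 1, (i ≤ p ∧ p ≤ q) ∧
      G.PairD A A (p - i) (j - q) (fun t => w[i + t]?) (fun t => w[j - 1 - t]?) ∧
      ((∃ r ∈ G.term, r.1 = A ∧ p + r.2.length = q ∧ Mt (fun s => w[p + s]?) r.2) ∨
        ∃ r ∈ G.rules, r.1 = A ∧ p + r.2.1.length + r.2.2.2.length ≤ q ∧
          Mt (fun s => w[p + s]?) r.2.1 ∧
          Mt (fun s => w[q - r.2.2.2.length + s]?) r.2.2.2 ∧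
          G.GeS m r.2.2.1 w (p + r.2.1.length) (q - r.2.2.2.length)) := by
  constructor
  · rintro ⟨x, hx, u, v, x', h1, rfl, h3⟩
    have hj := hx.2.1
    rw [spn_append, spn_append] at hx
    obtain ⟨⟨hu, hx'⟩, hv⟩ := hx
    rw [List.length_append] at hv hx'
    rw [← add_assoc] at hv hx'
    have hvl := hv.1
    refine ⟨hj, i + u.length, by omega, i + u.length + x'.length, by omega, ⟨by omega, by omega⟩,
      ⟨u, v, h1, by omega, by omega, hu.2.2, (spn_reverse hj hvl).2 hv⟩, ?_⟩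
    rcases h3 with h3 | ⟨u', C, v', x'', h4, rfl, h6⟩
    · exact Or.inl ⟨_, h3, rfl, rfl, hx'.2.2⟩
    · refine Or.inr ⟨_, h4, rfl, ?_⟩
      rw [spn_append, spn_append] at hx'
      obtain ⟨⟨hu', hx''⟩, hv'⟩ := hx'
      rw [List.length_append] at hv' hx''
      rw [← add_assoc] at hv' hx''
      simp only [List.length_append]
      have e1 : i + u.length + (u'.length + x''.length + v'.length) - v'.length =
        i + u.length + u'.length + x''.length := by omega
      refine ⟨by omega, hu'.2.2, ?_, x'', ?_, h6⟩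
      · rw [e1]; exact hv'.2.2
      · rw [e1]; exact hx''
  · rintro ⟨hj, p, hp, q, hq, ⟨hip, hpq⟩, ⟨u, v, h1, h2, h3, h4, h5⟩, h6⟩
    have hu : Spn w i p u := ⟨by omega, by omega, h4⟩
    have hv : Spn w q j v := (spn_reverse hj (by omega)).1 h5
    suffices H : ∃ x', Spn w p q x' ∧ ((A, x') ∈ G.term ∨ ∃ u' C v' x'',
        (A, u', C, v') ∈ G.rules ∧ x' = u' ++ x'' ++ v' ∧ G.Ge m C x'') by
      obtain ⟨x', h7, h8⟩ := H
      refine ⟨u ++ x' ++ v, ?_, u, v, x', h1, rfl, h8⟩
      have e1 := h7.1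
      rw [spn_append, spn_append, List.length_append, ← add_assoc,
        show i + u.length = p by omega, show p + x'.length = q by omega]
      exact ⟨⟨hu, h7⟩, hv⟩
    rcases h6 with ⟨r, hr, rfl, hr2, hr3⟩ | ⟨r, hr, rfl, hr2, hr3, hr4, x, hx, hG⟩
    · exact ⟨r.2, ⟨hr2, by omega, hr3⟩, Or.inl hr⟩
    · refine ⟨r.2.1 ++ x ++ r.2.2.2, ?_, Or.inr ⟨_, _, _, x, hr, rfl, hG⟩⟩
      have e1 := hx.1
      rw [spn_append, spn_append, List.length_append, ← add_assoc,
        show p + r.2.1.length + x.length = q - r.2.2.2.length by omega]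
      exact ⟨⟨⟨rfl, by omega, hr3⟩, hx⟩, ⟨by omega, by omega, hr4⟩⟩

end LinearGrammar

section FP

variable {X : Type} [Cod X] [Finite α] {G : LinearGrammar α}

/-- The loops at `A` can be recognised in logarithmic space. -/
def LoopsInL (G : LinearGrammar α) (A : G.N) : Prop :=
  ∀ {X : Type} [Cod X] {posL posR : List α → X × ℕ → ℕ} {a b : List α → X → ℕ}, Fn posL →
    Fn posR → Fn a → Fn b →
    FP fun w x => G.PairD A A (a w x) (b w x) (rd posL w x) (rd posR w x)

theorem FP.geS (hG : ∀ A, LoopsInL G A) (m : ℕ) : ∀ A : G.N,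
    FP fun w (z : ℕ × ℕ) => G.GeS m A w z.1 z.2 := by
  induction m with
  | zero =>
    intro A
    exact FP.false.congr fun w z => ⟨fun ⟨x, _, h⟩ => h, fun h => h.elim⟩
  | succ m ih =>
    intro A
    refine FP.congr (P := fun w (z : ℕ × ℕ) => z.2 ≤ w.length ∧ ∃ p < z.2 + 1, ∃ q < z.2 + 1,
      (z.1 ≤ p ∧ p ≤ q) ∧ G.PairD A A (p - z.1) (z.2 - q) (fun t => w[z.1 + t]?)
        (fun t => w[z.2 - 1 - t]?) ∧
      ((∃ r ∈ G.term, r.1 = A ∧ p + r.2.length = q ∧
          LinearGrammar.Mt (fun s => w[p + s]?) r.2) ∨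
        ∃ r ∈ G.rules, r.1 = A ∧ p + r.2.1.length + r.2.2.2.length ≤ q ∧
          LinearGrammar.Mt (fun s => w[p + s]?) r.2.1 ∧
          LinearGrammar.Mt (fun s => w[q - r.2.2.2.length + s]?) r.2.2.2 ∧
          G.GeS m r.2.2.1 w (p + r.2.1.length) (q - r.2.2.2.length))) ?_
      fun w z => LinearGrammar.geS_succ
    refine (FP.le Fn.id.snd Fn.len).and (FP.bex (b := fun w (z : ℕ × ℕ) => z.2 + 1)
      (P := fun w (y : (ℕ × ℕ) × ℕ) => ∃ q < y.1.2 + 1,
      (y.1.1 ≤ y.2 ∧ y.2 ≤ q) ∧ G.PairD A A (y.2 - y.1.1) (y.1.2 - q) (fun t => w[y.1.1 + t]?)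
        (fun t => w[y.1.2 - 1 - t]?) ∧
      ((∃ r ∈ G.term, r.1 = A ∧ y.2 + r.2.length = q ∧
          LinearGrammar.Mt (fun s => w[y.2 + s]?) r.2) ∨
        ∃ r ∈ G.rules, r.1 = A ∧ y.2 + r.2.1.length + r.2.2.2.length ≤ q ∧
          LinearGrammar.Mt (fun s => w[y.2 + s]?) r.2.1 ∧
          LinearGrammar.Mt (fun s => w[q - r.2.2.2.length + s]?) r.2.2.2 ∧
          G.GeS m r.2.2.1 w (y.2 + r.2.1.length) (q - r.2.2.2.length)))
      Fn.id.snd.succ (FP.bex (b := fun w (y : (ℕ × ℕ) × ℕ) => y.1.2 + 1)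
      (P := fun w (y : ((ℕ × ℕ) × ℕ) × ℕ) =>
      (y.1.1.1 ≤ y.1.2 ∧ y.1.2 ≤ y.2) ∧ G.PairD A A (y.1.2 - y.1.1.1) (y.1.1.2 - y.2)
        (fun t => w[y.1.1.1 + t]?) (fun t => w[y.1.1.2 - 1 - t]?) ∧
      ((∃ r ∈ G.term, r.1 = A ∧ y.1.2 + r.2.length = y.2 ∧
          LinearGrammar.Mt (fun s => w[y.1.2 + s]?) r.2) ∨
        ∃ r ∈ G.rules, r.1 = A ∧ y.1.2 + r.2.1.length + r.2.2.2.length ≤ y.2 ∧
          LinearGrammar.Mt (fun s => w[y.1.2 + s]?) r.2.1 ∧
          LinearGrammar.Mt (fun s => w[y.2 - r.2.2.2.length + s]?) r.2.2.2 ∧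
          G.GeS m r.2.2.1 w (y.1.2 + r.2.1.length) (y.2 - r.2.2.2.length)))
      Fn.id.fst.snd.succ ?_))
    let Z := ((ℕ × ℕ) × ℕ) × ℕ
    have hi : Fn fun (w : List α) (y : Z) => y.1.1.1 := Fn.id.fst.fst.fst
    have hj : Fn fun (w : List α) (y : Z) => y.1.1.2 := Fn.id.fst.fst.snd
    have hp : Fn fun (w : List α) (y : Z) => y.1.2 := Fn.id.fst.snd
    have hq : Fn fun (w : List α) (y : Z) => y.2 := Fn.id.snd
    refine ((FP.le hi hp).and (FP.le hp hq)).and (FP.and ?_ (FP.or ?_ ?_))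
    · exact hG A (X := Z) (posL := fun w y => y.1.1.1.1 + y.2)
        (posR := fun w y => y.1.1.1.2 - 1 - y.2) (a := fun w y => y.1.2 - y.1.1.1)
        (b := fun w y => y.1.1.2 - y.2)
        ((hi.comp Fn.id.fst).add Fn.id.snd)
        (((hj.comp Fn.id.fst).sub (Fn.const 1)).sub Fn.id.snd) (hp.sub hi) (hj.sub hq)
    · refine FP.bexF _ fun r hr => (FP.constP _).and ((FP.eq (hp.add (Fn.const _)) hq).and ?_)
      exact FP.mt (X := Z) (pos := fun w y => y.2) Fn.id.snd hp r.2
    · refine FP.bexF _ fun r hr => (FP.constP _).and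
        ((FP.le ((hp.add (Fn.const _)).add (Fn.const _)) hq).and (FP.and ?_ (FP.and ?_ ?_)))
      · exact FP.mt (X := Z) (pos := fun w y => y.2) Fn.id.snd hp r.2.1
      · exact FP.mt (X := Z) (pos := fun w y => y.2) (i := fun w y => y.2 - r.2.2.2.length)
          Fn.id.snd (hq.sub (Fn.const _)) r.2.2.2
      · exact (ih r.2.2.1).comp (g := fun w (y : Z) => (y.1.2 + r.2.1.length,
          y.2 - r.2.2.2.length)) ((hp.add (Fn.const _)).pair (hq.sub (Fn.const _)))

theorem inL_of_loopsInL (hG : ∀ A, LoopsInL G A) : InL G.language := by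
  refine inL_of_FP _ (fun w _ => G.GeS (Fintype.card G.N) G.start w 0 w.length)
    ((FP.geS hG _ G.start).comp (g := fun w (_ : Unit) => (0, w.length))
      (Fn.zero.pair Fn.len)) fun w => ?_
  rw [LinearGrammar.mem_language_iff]
  have hs : LinearGrammar.Spn w 0 w.length w := by
    refine ⟨by simp, le_rfl, fun s hs => by simp⟩
  constructor
  · rintro ⟨x, hx, h⟩
    have : x = w := LinearGrammar.Mt.inj hx.2.2 hs.2.2 (by have := hx.1; omega)
    rwa [← this]
  · intro h
    exact ⟨w, hs, h⟩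

/-- Linear languages generated by grammars with restricted loops are in deterministic
logarithmic space. -/
theorem inL_of_loops (G : LinearGrammar α)
    (hG : ∀ A, G.RightDet A ∨ G.LeftDet A ∨ G.Narrow A ∨ G.CoNarrow A) : InL G.language := by
  refine inL_of_loopsInL fun A => ?_
  intro X _ posL posR a b hL hR ha hb
  rcases hG A with h | h | h | h
  · exact FP.pair_of_rightDet G h hL hR ha hb
  · exact FP.pair_of_leftDet G h hL hR ha hb
  · exact FP.pair_of_narrow h hL hR ha hb
  · exact FP.pair_of_coNarrow h hL hR ha hb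

end FP

end Pool.Agent.Helper38.LinL
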