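import Pool.Agent.Helper38.LinL.GramWA

/-!
# Loops whose right context is determined by its length and the left context
-/

namespace Pool.Agent.Helper38.LinL

open Classical

set_option linter.unusedSimpArgs false
set_option linter.unusedVariables false
set_option linter.unusedSectionVars false

variable {α : Type}

namespace LinearGrammar

variable (G : LinearGrammar α)

theorem pairD_iff_of_rightDet {A : G.N} (hA : G.RightDet A) (a b : ℕ) (cL cR : ℕ → Option α) :
    G.PairD A A a b cL cR ↔ ((∃ u v, G.Derives A u A v ∧ u.length = a ∧ v.length = b ∧ Mt cL u) ∧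
      ∀ t < b, ∃ r ∈ G.rules, ∃ p < a + 1, ∃ l < t + 1, ∃ d : Fin r.2.2.2.length,
        (t = l + d.val ∧ p + r.2.1.length ≤ a ∧ l + r.2.2.2.length ≤ b) ∧
        (∃ u v, G.Derives A u r.1 v ∧ u.length = p ∧ v.length = l ∧ Mt cL u) ∧
        Mt (fun s => cL (p + s)) r.2.1 ∧
        (∃ u v, G.Derives r.2.2.1 u A v ∧ u.length = a - (p + r.2.1.length) ∧
          v.length = b - (l + r.2.2.2.length) ∧ Mt (fun s => cL (p + r.2.1.length + s)) u) ∧
        cR t = some (r.2.2.2.reverse[d.val]'(by simp))) := by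
  constructor
  · rintro ⟨u, v, h, h1, h2, h3, h4⟩
    refine ⟨⟨u, v, h, h1, h2, h3⟩, fun t ht => ?_⟩
    obtain ⟨u1, v1, r, u2, v2, e1, e2, e3, e4, e5, e6, e7⟩ := G.split_right h t (by omega)
    have hlu := congrArg List.length e4
    have hlv := congrArg List.length e5
    simp only [List.length_append] at hlu hlv
    refine ⟨r, e1, u1.length, by omega, v1.length, by omega, ⟨t - v1.length, by omega⟩,
      ⟨by simp only; omega, by omega, by omega⟩, ?_, ?_, ?_, ?_⟩
    · rw [e4, List.append_assoc, Mt.append] at h3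
      exact ⟨u1, v1, e2, rfl, rfl, h3.1⟩
    · rw [e4, Mt.append, Mt.append] at h3
      exact h3.1.2
    · rw [e4, Mt.append] at h3
      refine ⟨u2, v2, e3, by omega, by omega, ?_⟩
      have := h3.2
      simpa only [List.length_append] using this
    · rw [h4 t (by simp; omega), e5]
      rw [← List.getElem?_eq_getElem (l := r.2.2.2.reverse) (i := t - v1.length) (by simp; omega)]
      simp only [List.reverse_append]
      rw [List.getElem?_append_right (by simp; omega), List.getElem?_append_left (by simp; omega)]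
      simp
  · rintro ⟨⟨u, v, h, h1, h2, h3⟩, hall⟩
    refine ⟨u, v, h, h1, h2, h3, fun t ht => ?_⟩
    have ht' : t < b := by simpa [h2] using ht
    obtain ⟨r, hr, p, hp, l, hl, d, ⟨e1, e2, e3⟩, ⟨u1, v1, f1, f2, f3, f4⟩, f5,
      ⟨u2, v2, g1, g2, g3, g4⟩, hc⟩ := hall t ht'
    have hd := d.isLt
    have hder : G.Derives A (u1 ++ r.2.1 ++ u2) A (v2 ++ (r.2.2.2 ++ v1)) :=
      (Derives.step f1 (by exact hr)).trans g1
    have hu : u1 ++ r.2.1 ++ u2 = u := by
      refine Mt.inj (c := cL) ?_ h3 ?_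
      · rw [Mt.append, Mt.append]
        refine ⟨⟨f4, by rw [f2]; exact f5⟩, ?_⟩
        rw [List.length_append, f2]
        exact g4
      · simp only [List.length_append]; omega
    rw [hu] at hder
    have hv : v2 ++ (r.2.2.2 ++ v1) = v := by
      refine hA u _ _ hder h ?_
      simp only [List.length_append]; omega
    rw [hc, ← hv, ← List.getElem?_eq_getElem (l := r.2.2.2.reverse) (i := d.val) (by simp)]
    simp only [List.reverse_append, List.append_assoc]
    rw [List.getElem?_append_right (by simp; omega), List.getElem?_append_left (by simp; omega)]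
    congr 1
    simp; omega

end LinearGrammar

section FP

variable {X : Type} [Cod X] [Finite α] (G : LinearGrammar α)

theorem FP.pair_of_rightDet {A : G.N} (hA : G.RightDet A) {posL posR : List α → X × ℕ → ℕ}
    {a b : List α → X → ℕ} (hL : Fn posL) (hR : Fn posR) (ha : Fn a) (hb : Fn b) :
    FP fun w x => G.PairD A A (a w x) (b w x) (rd posL w x) (rd posR w x) := by
  -- parameters `(((x, t), p), l)`
  let Z := ((X × ℕ) × ℕ) × ℕ
  have hx : Fn fun (w : List α) (z : Z) => z.1.1.1 := Fn.id.fst.fst.fst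
  have ht : Fn fun (w : List α) (z : Z) => z.1.1.2 := Fn.id.fst.fst.snd
  have hp : Fn fun (w : List α) (z : Z) => z.1.2 := Fn.id.fst.snd
  have hl : Fn fun (w : List α) (z : Z) => z.2 := Fn.id.snd
  have haz : Fn fun (w : List α) (z : Z) => a w z.1.1.1 := ha.comp hx
  have hbz : Fn fun (w : List α) (z : Z) => b w z.1.1.1 := hb.comp hx
  have hLz : Fn fun (w : List α) (z : Z × ℕ) => posL w (z.1.1.1.1, z.2) :=
    hL.comp ((hx.comp Fn.id.fst).pair Fn.id.snd)
  have key : ∀ r ∈ G.rules, FP fun (w : List α) (z : Z) => ∃ d : Fin r.2.2.2.length,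
      (z.1.1.2 = z.2 + d.val ∧ z.1.2 + r.2.1.length ≤ a w z.1.1.1 ∧
        z.2 + r.2.2.2.length ≤ b w z.1.1.1) ∧
      (∃ u v, G.Derives A u r.1 v ∧ u.length = z.1.2 ∧ v.length = z.2 ∧
        LinearGrammar.Mt (rd posL w z.1.1.1) u) ∧
      LinearGrammar.Mt (fun s => rd posL w z.1.1.1 (z.1.2 + s)) r.2.1 ∧
      (∃ u v, G.Derives r.2.2.1 u A v ∧ u.length = a w z.1.1.1 - (z.1.2 + r.2.1.length) ∧
        v.length = b w z.1.1.1 - (z.2 + r.2.2.2.length) ∧
        LinearGrammar.Mt (fun s => rd posL w z.1.1.1 (z.1.2 + r.2.1.length + s)) u) ∧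
      rd posR w z.1.1.1 z.1.1.2 = some (r.2.2.2.reverse[d.val]'(by simp)) := by
    intro r hr
    refine FP.exFin fun d => ?_
    refine ((FP.eq ht (hl.add (Fn.const _))).and ((FP.le (hp.add (Fn.const _)) haz).and
      (FP.le (hl.add (Fn.const _)) hbz))).and ?_
    refine FP.and (FP.left G hLz hp hl A r.1) ?_
    refine FP.and (FP.mt hLz hp r.2.1) ?_
    refine FP.and (FP.left G (pos := fun w (z : Z × ℕ) => posL w (z.1.1.1.1,
      z.1.1.2 + r.2.1.length + z.2)) ?_ (haz.sub (hp.add (Fn.const _)))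
      (hbz.sub (hl.add (Fn.const _))) r.2.2.1 A) ?_
    · exact hL.comp ((hx.comp Fn.id.fst).pair (((hp.comp Fn.id.fst).add (Fn.const _)).add
        Fn.id.snd))
    · exact Fn.letterP _ (hR.comp (hx.pair ht))
  refine ((FP.left G hL ha hb A A).and (FP.ball hb (P := fun w (z : X × ℕ) =>
    ∃ r ∈ G.rules, ∃ p < a w z.1 + 1, ∃ l < z.2 + 1, ∃ d : Fin r.2.2.2.length,
        (z.2 = l + d.val ∧ p + r.2.1.length ≤ a w z.1 ∧ l + r.2.2.2.length ≤ b w z.1) ∧
        (∃ u v, G.Derives A u r.1 v ∧ u.length = p ∧ v.length = l ∧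
          LinearGrammar.Mt (rd posL w z.1) u) ∧
        LinearGrammar.Mt (fun s => rd posL w z.1 (p + s)) r.2.1 ∧
        (∃ u v, G.Derives r.2.2.1 u A v ∧ u.length = a w z.1 - (p + r.2.1.length) ∧
          v.length = b w z.1 - (l + r.2.2.2.length) ∧
          LinearGrammar.Mt (fun s => rd posL w z.1 (p + r.2.1.length + s)) u) ∧
        rd posR w z.1 z.2 = some (r.2.2.2.reverse[d.val]'(by simp))) ?_)).congr fun w x =>
      G.pairD_iff_of_rightDet hA _ _ _ _
  refine FP.bexF _ fun r hr => ?_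
  refine FP.bex (b := fun w (z : X × ℕ) => a w z.1 + 1) (ha.comp Fn.id.fst).succ
    (P := fun w (z : (X × ℕ) × ℕ) => ∃ l < z.1.2 + 1, ∃ d : Fin r.2.2.2.length,
        (z.1.2 = l + d.val ∧ z.2 + r.2.1.length ≤ a w z.1.1 ∧ l + r.2.2.2.length ≤ b w z.1.1) ∧
        (∃ u v, G.Derives A u r.1 v ∧ u.length = z.2 ∧ v.length = l ∧
          LinearGrammar.Mt (rd posL w z.1.1) u) ∧
        LinearGrammar.Mt (fun s => rd posL w z.1.1 (z.2 + s)) r.2.1 ∧
        (∃ u v, G.Derives r.2.2.1 u A v ∧ u.length = a w z.1.1 - (z.2 + r.2.1.length) ∧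
          v.length = b w z.1.1 - (l + r.2.2.2.length) ∧
          LinearGrammar.Mt (fun s => rd posL w z.1.1 (z.2 + r.2.1.length + s)) u) ∧
        rd posR w z.1.1 z.1.2 = some (r.2.2.2.reverse[d.val]'(by simp))) ?_
  exact FP.bex (b := fun w (z : (X × ℕ) × ℕ) => z.1.2 + 1) Fn.id.fst.snd.succ (key r hr)

theorem FP.pair_of_leftDet {A : G.N} (hA : G.LeftDet A) {posL posR : List α → X × ℕ → ℕ}
    {a b : List α → X → ℕ} (hL : Fn posL) (hR : Fn posR) (ha : Fn a) (hb : Fn b) :
    FP fun w x => G.PairD A A (a w x) (b w x) (rd posL w x) (rd posR w x) :=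
  (FP.pair_of_rightDet G.mirror (A := A) (G.mirror_rightDet hA) hR hL hb ha).congr fun w x =>
    G.pairD_mirror.symm

end FP

end Pool.Agent.Helper38.LinL
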