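import Pool.Agent.Helper38.LinL.Machine

/-!
# Register programs with jumps, and their simulation by Turing machines
-/

namespace Pool.Agent.Helper38.LinL

open Classical

/-- Instructions of a register program: registers hold natural numbers, and there is an input
head. -/
inductive Instr (α : Type)
  | inc (r : ℕ) : Instr α
  | dec (r : ℕ) : Instr α
  | jz (r l : ℕ) : Instr α
  | jmp (l : ℕ) : Instr α
  | hr : Instr α
  | hl : Instr α
  | jn (s : Sym α) (l : ℕ) : Instr α
  | js (s : Sym α) (l : ℕ) : Instr α

/-- State of a register program. -/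
structure FS where
  pc : ℕ
  σ : ℕ → ℕ
  h : ℕ

inductive FStep {α : Type} (P : List (Instr α)) (w : List α) (B : ℕ) : FS → FS → Prop
  | inc {pc σ h r} : P[pc]? = some (Instr.inc r) → σ r + 1 ≤ B →
      FStep P w B ⟨pc, σ, h⟩ ⟨pc + 1, Function.update σ r (σ r + 1), h⟩
  | dec {pc σ h r} : P[pc]? = some (Instr.dec r) → σ r ≠ 0 →
      FStep P w B ⟨pc, σ, h⟩ ⟨pc + 1, Function.update σ r (σ r - 1), h⟩
  | jz0 {pc σ h r l} : P[pc]? = some (Instr.jz r l) → σ r = 0 → l ≤ P.length →
      FStep P w B ⟨pc, σ, h⟩ ⟨l, σ, h⟩
  | jz1 {pc σ h r l} : P[pc]? = some (Instr.jz r l) → σ r ≠ 0 →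
      FStep P w B ⟨pc, σ, h⟩ ⟨pc + 1, σ, h⟩
  | jmp {pc σ h l} : P[pc]? = some (Instr.jmp l) → l ≤ P.length →
      FStep P w B ⟨pc, σ, h⟩ ⟨l, σ, h⟩
  | hr {pc σ h} : P[pc]? = some Instr.hr →
      FStep P w B ⟨pc, σ, h⟩ ⟨pc + 1, σ, min (h + 1) (w.length + 1)⟩
  | hl {pc σ h} : P[pc]? = some Instr.hl →
      FStep P w B ⟨pc, σ, h⟩ ⟨pc + 1, σ, h - 1⟩
  | jn0 {pc σ h s l} : P[pc]? = some (Instr.jn s l) → readSym w h ≠ s → l ≤ P.length →
      FStep P w B ⟨pc, σ, h⟩ ⟨l, σ, h⟩
  | jn1 {pc σ h s l} : P[pc]? = some (Instr.jn s l) → readSym w h = s →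
      FStep P w B ⟨pc, σ, h⟩ ⟨pc + 1, σ, h⟩
  | js0 {pc σ h s l} : P[pc]? = some (Instr.js s l) → readSym w h = s → l ≤ P.length →
      FStep P w B ⟨pc, σ, h⟩ ⟨l, σ, h⟩
  | js1 {pc σ h s l} : P[pc]? = some (Instr.js s l) → readSym w h ≠ s →
      FStep P w B ⟨pc, σ, h⟩ ⟨pc + 1, σ, h⟩

/-- The register of an instruction is below `K`. -/
def Instr.RegLt {α : Type} (K : ℕ) : Instr α → Prop
  | Instr.inc r => r < K
  | Instr.dec r => r < K
  | Instr.jz r _ => r < K
  | _ => True

section machine

variable {α : Type} (P : List (Instr α)) (K : ℕ)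

/-- Work tape symbols: origin flag, and one bit (or nothing) on each track. -/
abbrev Gam (K : ℕ) := Bool × (Fin K → Option Bool)

abbrev StQ (M : ℕ) := Option (Fin (M + 1) × Bool) ⊕ Bool

def trk {K : ℕ} (g : Gam K) (r : ℕ) : Option Bool := if h : r < K then g.2 ⟨r, h⟩ else none

def setc {K : ℕ} (g : Gam K) (r : ℕ) (v : Option Bool) : Gam K :=
  if h : r < K then (g.1, Function.update g.2 ⟨r, h⟩ v) else g

def lab (M n : ℕ) : Fin (M + 1) := ⟨min n M, by omega⟩

/-- Transition in the scanning phase. -/
noncomputable def δscan (l : Fin (P.length + 1)) (s : Sym α) (g : Gam K) :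
    Option (StQ P.length × Gam K × Dir × Dir) :=
  match P[l.val]? with
  | none => match trk g 0 with
    | some false => some (Sum.inl (some (l, false)), g, Dir.stay, Dir.right)
    | some true => some (Sum.inr true, g, Dir.stay, Dir.stay)
    | none => some (Sum.inr false, g, Dir.stay, Dir.stay)
  | some (Instr.inc r) => match trk g r with
    | some true => some (Sum.inl (some (l, false)), setc g r (some false), Dir.stay, Dir.right)
    | _ => some (Sum.inl (some (lab P.length (l + 1), true)), setc g r (some true),
        Dir.stay, Dir.stay)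
  | some (Instr.dec r) => match trk g r with
    | some false => some (Sum.inl (some (l, false)), setc g r (some true), Dir.stay, Dir.right)
    | some true => some (Sum.inl (some (lab P.length (l + 1), true)), setc g r (some false),
        Dir.stay, Dir.stay)
    | none => none
  | some (Instr.jz r l') => match trk g r with
    | some false => some (Sum.inl (some (l, false)), g, Dir.stay, Dir.right)
    | some true => some (Sum.inl (some (lab P.length (l + 1), true)), g, Dir.stay, Dir.stay)
    | none => some (Sum.inl (some (lab P.length l', true)), g, Dir.stay, Dir.stay)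
  | some (Instr.jmp l') => some (Sum.inl (some (lab P.length l', false)), g, Dir.stay, Dir.stay)
  | some Instr.hr =>
      some (Sum.inl (some (lab P.length (l + 1), false)), g, Dir.right, Dir.stay)
  | some Instr.hl =>
      some (Sum.inl (some (lab P.length (l + 1), false)), g, Dir.left, Dir.stay)
  | some (Instr.jn s' l') =>
      if s = s' then some (Sum.inl (some (lab P.length (l + 1), false)), g, Dir.stay, Dir.stay)
      else some (Sum.inl (some (lab P.length l', false)), g, Dir.stay, Dir.stay)
  | some (Instr.js s' l') =>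
      if s = s' then some (Sum.inl (some (lab P.length l', false)), g, Dir.stay, Dir.stay)
      else some (Sum.inl (some (lab P.length (l + 1), false)), g, Dir.stay, Dir.stay)

/-- The Turing machine running the register program `P` on registers `< K` and accepting if
register `0` is nonzero at the end. -/
noncomputable def tm : TM α where
  Q := StQ P.length
  Γ := Gam K
  finQ := inferInstance
  finΓ := inferInstance
  blank := (false, fun _ => none)
  start := Sum.inl none
  δ := fun q s g => match q with
    | Sum.inr _ => none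
    | Sum.inl none =>
        some (Sum.inl (some (lab P.length 0, false)), (true, g.2), Dir.stay, Dir.stay)
    | Sum.inl (some (l, true)) =>
        if g.1 then some (Sum.inl (some (l, false)), g, Dir.stay, Dir.stay)
        else some (Sum.inl (some (l, true)), g, Dir.stay, Dir.left)
    | Sum.inl (some (l, false)) => δscan P K l s g
  accept := {Sum.inr true}

/-- Reachability with all heads staying `≤ D`. -/
def BReach (M : TM α) (w : List α) (D : ℕ) : Cfg M → Cfg M → Prop :=
  Relation.ReflTransGen fun c d => M.step w c = some d ∧ d.head ≤ D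

theorem BReach.reach {M : TM α} {w : List α} {D : ℕ} {c d : Cfg M} (h : BReach M w D c d) :
    M.Reach w c d := by
  induction h with
  | refl => exact Relation.ReflTransGen.refl
  | tail _ h ih => exact ih.tail h.1

theorem BReach.bounded {M : TM α} {w : List α} {D : ℕ} {c e : Cfg M} (h : BReach M w D c e)
    (he : M.step w e = none) (hc : c.head ≤ D) : ∀ d, M.Reach w c d → d.head ≤ D := by
  induction h using Relation.ReflTransGen.head_induction_on with
  | refl =>
    intro d hd
    rcases Relation.ReflTransGen.cases_head hd with rfl | ⟨x, hx, _⟩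
    · exact hc
    · rw [he] at hx
      exact absurd hx (by simp)
  | head hab _ ih =>
    intro d hd
    rcases Relation.ReflTransGen.cases_head hd with rfl | ⟨x, hx, hxd⟩
    · exact hc
    · have : x = _ := Option.some.inj (hx.symm.trans hab.1)
      subst this
      exact ih hab.2 d hxd

end machine

end Pool.Agent.Helper38.LinL
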