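import Pool.Agent.Helper38.LinL.LS3

/-!
# Logarithmic space functions on product types
-/

namespace Pool.Agent.Helper38.LinL

open Classical

set_option linter.unusedSimpArgs false
set_option linter.unusedVariables false
set_option warn.classDefReducibility false

/-- Types coded by finitely many natural numbers. -/
class Cod (X : Type) where
  ι : Type
  fin : Fintype ι
  enc : X ≃ (ι → ℕ)

attribute [instance] Cod.fin

instance : Cod ℕ where
  ι := Unit
  fin := inferInstance
  enc := (Equiv.funUnique Unit ℕ).symm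

instance : Cod Unit where
  ι := Empty
  fin := inferInstance
  enc := ⟨fun _ e => e.elim, fun _ => (), fun _ => rfl, fun f => by funext e; exact e.elim⟩

instance {X Y : Type} [Cod X] [Cod Y] : Cod (X × Y) where
  ι := Cod.ι X ⊕ Cod.ι Y
  fin := inferInstance
  enc := (Equiv.prodCongr Cod.enc Cod.enc).trans (Equiv.sumArrowEquivProdArrow _ _ _).symm

instance {Q X : Type} [Fintype Q] [Cod X] : Cod (Q → X) where
  ι := Q × Cod.ι X
  fin := inferInstance
  enc := (Equiv.piCongrRight fun _ => Cod.enc).trans (Equiv.curry _ _ _).symm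

def enc {X : Type} [Cod X] (x : X) : Cod.ι X → ℕ := Cod.enc x

@[simp] theorem enc_nat (n : ℕ) (j : Cod.ι ℕ) : enc n j = n := rfl

@[simp] theorem enc_inl {X Y : Type} [Cod X] [Cod Y] (p : X × Y) (j : Cod.ι X) :
    enc p (Sum.inl j : Cod.ι X ⊕ Cod.ι Y) = enc p.1 j := rfl

@[simp] theorem enc_inr {X Y : Type} [Cod X] [Cod Y] (p : X × Y) (j : Cod.ι Y) :
    enc p (Sum.inr j : Cod.ι X ⊕ Cod.ι Y) = enc p.2 j := rfl

@[simp] theorem enc_pi {Q X : Type} [Fintype Q] [Cod X] (f : Q → X) (q : Q) (j : Cod.ι X) :
    enc f (q, j) = enc (f q) j := rfl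

theorem enc_symm {X : Type} [Cod X] (x : Cod.ι X → ℕ) : enc (Cod.enc.symm x : X) = x :=
  Cod.enc.apply_symm_apply x

theorem symm_enc {X : Type} [Cod X] (x : X) : Cod.enc.symm (enc x) = x :=
  Cod.enc.symm_apply_apply x

/-- Sum of all coordinates. -/
def norm' {X : Type} [Cod X] (x : X) : ℕ := ∑ j, enc x j

@[simp] theorem norm'_nat (n : ℕ) : norm' n = n := by
  unfold norm'
  show ∑ j : Unit, enc n j = n
  simp

@[simp] theorem norm'_unit (n : Unit) : norm' n = 0 := by
  unfold norm'
  show ∑ j : Empty, enc n j = 0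
  simp

@[simp] theorem norm'_prod {X Y : Type} [Cod X] [Cod Y] (p : X × Y) :
    norm' p = norm' p.1 + norm' p.2 := by
  unfold norm'
  show ∑ j : Cod.ι X ⊕ Cod.ι Y, enc p j = _
  rw [Fintype.sum_sum_type]
  rfl

@[simp] theorem norm'_pi {Q X : Type} [Fintype Q] [Cod X] (f : Q → X) :
    norm' f = ∑ q, norm' (f q) := by
  unfold norm'
  show ∑ j : Q × Cod.ι X, enc f j = _
  rw [Fintype.sum_prod_type]
  rfl

def size {α X : Type} [Cod X] (w : List α) (x : X) : ℕ := w.length + norm' x + 2

variable {α : Type} {X Y Z : Type} [Cod X] [Cod Y] [Cod Z]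

theorem sz_enc (w : List α) (x : X) : sz w (enc x) = size w x := rfl

theorem two_le_size (w : List α) (x : X) : 2 ≤ size w x := by unfold size; omega

theorem enc_le_norm' (x : X) (j : Cod.ι X) : enc x j ≤ norm' x :=
  Finset.single_le_sum (f := enc x) (fun _ _ => Nat.zero_le _) (Finset.mem_univ j)

/-- Logarithmic space functions (with logarithmic size values). -/
def Fn (g : List α → X → Y) : Prop :=
  ∀ j : Cod.ι Y, LS fun w (x : Cod.ι X → ℕ) => enc (g w (Cod.enc.symm x)) j

theorem Fn.ls {g : List α → X → Y} (hg : Fn g) (j : Cod.ι Y) :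
    LS fun w (x : Cod.ι X → ℕ) => enc (g w (Cod.enc.symm x)) j := hg j

theorem Fn.id : Fn fun (_ : List α) (x : X) => x := by
  intro j
  have := LS.var (α := α) j
  convert this using 1
  funext w x
  rw [enc_symm]

theorem Fn.comp {f : List α → Y → Z} {g : List α → X → Y} (hf : Fn f) (hg : Fn g) :
    Fn fun w x => f w (g w x) := by
  intro j
  have := LS.comp (hf j) (fun k => hg k)
  convert this using 1
  funext w x
  have : Cod.enc.symm (fun k => enc (g w (Cod.enc.symm x)) k) = g w (Cod.enc.symm x) :=
    symm_enc _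
  rw [this]

theorem Fn.pair {f : List α → X → Y} {g : List α → X → Z} (hf : Fn f) (hg : Fn g) :
    Fn fun w x => (f w x, g w x) := by
  intro j
  rcases j with j | j
  · exact hf j
  · exact hg j

theorem Fn.fst' : Fn fun (_ : List α) (x : X × Y) => x.1 := by
  intro j
  have := (Fn.id (α := α) (X := X × Y)) (Sum.inl j : Cod.ι X ⊕ Cod.ι Y)
  exact this

theorem Fn.snd' : Fn fun (_ : List α) (x : X × Y) => x.2 := by
  intro j
  have := (Fn.id (α := α) (X := X × Y)) (Sum.inr j : Cod.ι X ⊕ Cod.ι Y)
  exact this

theorem Fn.fst {f : List α → X → Y × Z} (hf : Fn f) : Fn fun w x => (f w x).1 :=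
  Fn.fst'.comp hf

theorem Fn.snd {f : List α → X → Y × Z} (hf : Fn f) : Fn fun w x => (f w x).2 :=
  Fn.snd'.comp hf

theorem Fn.pi {Q : Type} [Fintype Q] {f : List α → X → Q → Y}
    (hf : ∀ q, Fn fun w x => f w x q) : Fn f := by
  rintro ⟨q, j⟩
  exact hf q j

theorem Fn.app {Q : Type} [Fintype Q] {f : List α → X → Q → Y} (hf : Fn f) (q : Q) :
    Fn fun w x => f w x q := by
  intro j
  exact hf (q, j)

theorem Fn.zero : Fn fun (_ : List α) (_ : X) => (0 : ℕ) := fun _ => LS.zero

theorem Fn.succ {f : List α → X → ℕ} (hf : Fn f) : Fn fun w x => f w x + 1 :=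
  fun j => LS.succ (hf j)

theorem Fn.const (n : ℕ) : Fn fun (_ : List α) (_ : X) => n := by
  induction n with
  | zero => exact Fn.zero
  | succ n ih => exact ih.succ

theorem Fn.constU : Fn fun (_ : List α) (_ : X) => () := fun j => Empty.elim j

theorem Fn.lenSucc : Fn fun (w : List α) (_ : X) => w.length + 1 := fun _ => LS.lenSucc

theorem Fn.letter' (a : α) : Fn fun (w : List α) (x : ℕ) => letterTest w a x :=
  fun _ => LS.letter a ()

theorem Fn.letter (a : α) {f : List α → X → ℕ} (hf : Fn f) :
    Fn fun w x => letterTest w a (f w x) := (Fn.letter' a).comp hf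

/-- Polynomially bounded functions. -/
def PB (b : List α → X → ℕ) : Prop := ∃ e, ∀ w x, b w x ≤ size w x ^ e

theorem Fn.pb {f : List α → X → ℕ} (hf : Fn f) : PB f := by
  obtain ⟨e, he⟩ := (hf ()).bound
  refine ⟨e, fun w x => ?_⟩
  have := he w (enc x)
  rw [sz_enc, symm_enc] at this
  exact this

theorem PB.mono {b b' : List α → X → ℕ} (hb : PB b) (h : ∀ w x, b' w x ≤ b w x) : PB b' := by
  obtain ⟨e, he⟩ := hb
  exact ⟨e, fun w x => (h w x).trans (he w x)⟩

theorem PB.add {b b' : List α → X → ℕ} (hb : PB b) (hb' : PB b') : PB fun w x => b w x + b' w x := by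
  obtain ⟨e, he⟩ := hb
  obtain ⟨e', he'⟩ := hb'
  refine ⟨max e e' + 1, fun w x => ?_⟩
  have h2 := two_le_size w x
  have h3 : size w x ^ e ≤ size w x ^ max e e' := Nat.pow_le_pow_right (by omega) (le_max_left _ _)
  have h4 : size w x ^ e' ≤ size w x ^ max e e' :=
    Nat.pow_le_pow_right (by omega) (le_max_right _ _)
  have h5 := he w x
  have h6 := he' w x
  rw [pow_succ]
  nlinarith

theorem PB.mul {b b' : List α → X → ℕ} (hb : PB b) (hb' : PB b') : PB fun w x => b w x * b' w x := by
  obtain ⟨e, he⟩ := hb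
  obtain ⟨e', he'⟩ := hb'
  refine ⟨e + e', fun w x => ?_⟩
  rw [pow_add]
  exact Nat.mul_le_mul (he w x) (he' w x)

theorem PB.const (n : ℕ) : PB fun (_ : List α) (_ : X) => n := (Fn.const n).pb

theorem PB.norm' {g : List α → X → Y} (hg : Fn g) : PB fun w x => norm' (g w x) := by
  choose e he using fun j => (hg j).bound
  have : ∀ s : Finset (Cod.ι Y), PB fun w x => ∑ j ∈ s, enc (g w x) j := by
    intro s
    induction s using Finset.induction_on with
    | empty => simpa using PB.const 0
    | insert j s hj ih =>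
      have h1 : PB fun w x => enc (g w x) j := by
        refine ⟨e j, fun w x => ?_⟩
        have := he j w (enc x)
        rw [sz_enc, symm_enc] at this
        exact this
      refine (h1.add ih).mono fun w x => ?_
      rw [Finset.sum_insert hj]
  exact this Finset.univ

/-- Primitive recursion with polynomially bounded values. -/
def recF (init : List α → X → Y) (step : List α → X × ℕ × Y → Y) (w : List α) (x : X) : ℕ → Y
  | 0 => init w x
  | t + 1 => step w (x, t, recF init step w x t)

theorem Fn.recN {T : List α → X → ℕ} {init : List α → X → Y}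
    {step : List α → X × ℕ × Y → Y} (hT : Fn T) (hi : Fn init) (hs : Fn step)
    (hb : ∃ b : List α → X → ℕ, PB b ∧
      ∀ w x t, t ≤ T w x → norm' (recF init step w x t) ≤ b w x) :
    Fn fun w x => recF init step w x (T w x) := by
  intro j
  let κ := Cod.ι X ⊕ (Unit ⊕ Cod.ι Y)
  let init' : κ → List α → (Cod.ι X → ℕ) → ℕ := fun k w x =>
    match k with
    | Sum.inl i => x i
    | Sum.inr (Sum.inl _) => 0
    | Sum.inr (Sum.inr j) => enc (init w (Cod.enc.symm x)) j
  let step' : κ → List α → (κ → ℕ) → ℕ := fun k w z =>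
    match k with
    | Sum.inl i => z (Sum.inl i)
    | Sum.inr (Sum.inl u) => z (Sum.inr (Sum.inl u)) + 1
    | Sum.inr (Sum.inr j) => enc (step w ((Cod.enc (X := X × ℕ × Y)).symm z)) j
  have hi' : ∀ k, LS (init' k) := by
    rintro (i | u | j)
    · exact LS.var i
    · exact LS.zero
    · exact hi j
  have hs' : ∀ k, LS (step' k) := by
    rintro (i | u | j)
    · exact LS.var (α := α) (ι := κ) (Sum.inl i)
    · exact (LS.var (α := α) (ι := κ) (Sum.inr (Sum.inl u))).succ
    · exact hs j
  have hstate : ∀ w (x : Cod.ι X → ℕ) t, iterS step' w (fun k => init' k w x) t =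
      enc (X := X × ℕ × Y)
        (Cod.enc.symm x, t, recF init step w (Cod.enc.symm x) t) := by
    intro w x t
    induction t with
    | zero =>
      funext k
      rcases k with i | u | j
      · show x i = enc (Cod.enc.symm x : X) i
        rw [enc_symm]
      · rfl
      · rfl
    | succ t ih =>
      funext k
      show step' k w (iterS step' w (fun k => init' k w x) t) = _
      rw [ih]
      rcases k with i | u | j
      · rfl
      · rfl
      · show enc (step w ((Cod.enc (X := X × ℕ × Y)).symm (enc _))) j = _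
        rw [symm_enc]
        rfl
  obtain ⟨b, ⟨e, he⟩, hb⟩ := hb
  obtain ⟨eT, heT⟩ := hT.pb
  have hfin := LS.iter (T := fun w x => T w (Cod.enc.symm x)) (init := init') (step := step')
    (hT ()) hi' hs' (max 1 (max e eT)) (by
      intro w x t ht k
      rw [hstate]
      have h2 : 2 ≤ sz w x := two_le_sz w x
      have hszx : size w (Cod.enc.symm x : X) = sz w x := by
        rw [← sz_enc, enc_symm]
      rcases k with i | u | j
      · show enc (Cod.enc.symm x : X) i ≤ _
        rw [enc_symm]
        calc x i ≤ sz w x := le_sz w x i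
          _ = sz w x ^ 1 := (pow_one _).symm
          _ ≤ _ := Nat.pow_le_pow_right (by omega) (by omega)
      · show t ≤ _
        have := heT w (Cod.enc.symm x)
        rw [hszx] at this
        exact ht.trans (this.trans (Nat.pow_le_pow_right (by omega) (by omega)))
      · show enc (recF init step w (Cod.enc.symm x) t) j ≤ _
        have h3 := hb w (Cod.enc.symm x) t ht
        have h4 := he w (Cod.enc.symm x)
        rw [hszx] at h4
        exact (enc_le_norm' _ j).trans (h3.trans (h4.trans
          (Nat.pow_le_pow_right (by omega) (by omega)))))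
    (Sum.inr (Sum.inr j))
  convert hfin using 1
  funext w x
  rw [hstate]
  rfl

/-- Languages decided by functions without arguments. -/
theorem inL_of_Fn (S : Set (List α)) (f : List α → Unit → ℕ) (hf : Fn f)
    (h : ∀ w, f w () ≠ 0 ↔ w ∈ S) : InL S :=
  inL_of_LS S _ (hf ()) fun w => h w

end Pool.Agent.Helper38.LinL
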