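import Pool.Agent.Helper38.LinL.Pair

/-!
# The weighted automaton of a linear grammar
-/

namespace Pool.Agent.Helper38.LinL

open Classical

set_option linter.unusedSimpArgs false
set_option linter.unusedVariables false
set_option linter.unusedSectionVars false

variable {α : Type}

namespace LinearGrammar

variable (G : LinearGrammar α)

/-- Rules as a type. -/
abbrev R := {r : G.N × List α × G.N × List α // r ∈ G.rules}

def M : ℕ := G.rules.sup fun r => r.2.1.length

theorem le_M (r : G.R) : r.1.2.1.length < G.M + 1 :=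
  Nat.lt_succ_of_le (Finset.le_sup (f := fun r : G.N × List α × G.N × List α => r.2.1.length) r.2)

/-- The automaton following derivations: it reads the left context and adds up the lengths of the
pieces of the right context. -/
noncomputable def wa : WA α where
  Q := G.N ⊕ (G.R × Fin (G.M + 1))
  fin := by
    have := G.finN
    exact Fintype.ofFinite _
  dec := inferInstance
  eps := (Finset.univ.image fun r : G.R => (Sum.inl r.1.1, 0, Sum.inr (r, 0))) ∪
    (Finset.univ.image fun r : G.R =>
      (Sum.inr (r, ⟨r.1.2.1.length, G.le_M r⟩), r.1.2.2.2.length, Sum.inl r.1.2.2.1))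
  tr := fun a q q' => ∃ (r : G.R) (s s' : Fin (G.M + 1)), q = Sum.inr (r, s) ∧
    q' = Sum.inr (r, s') ∧ s'.val = s.val + 1 ∧ r.1.2.1[s.val]? = some a

theorem mem_eps (q : G.wa.Q) (k : ℕ) (q' : G.wa.Q) : (q, k, q') ∈ G.wa.eps ↔
    (∃ r : G.R, q = Sum.inl r.1.1 ∧ k = 0 ∧ q' = Sum.inr (r, 0)) ∨
    (∃ r : G.R, q = Sum.inr (r, ⟨r.1.2.1.length, G.le_M r⟩) ∧ k = r.1.2.2.2.length ∧
      q' = Sum.inl r.1.2.2.1) := by
  unfold wa
  simp only [Finset.mem_union, Finset.mem_image, Finset.mem_univ, true_and, Prod.mk.injEq]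
  constructor
  · rintro (⟨r, rfl, rfl, rfl⟩ | ⟨r, rfl, rfl, rfl⟩)
    · exact Or.inl ⟨r, rfl, rfl, rfl⟩
    · exact Or.inr ⟨r, rfl, rfl, rfl⟩
  · rintro (⟨r, rfl, rfl, rfl⟩ | ⟨r, rfl, rfl, rfl⟩)
    · exact Or.inl ⟨r, rfl, rfl, rfl⟩
    · exact Or.inr ⟨r, rfl, rfl, rfl⟩

/-- Meaning of the runs. -/
def Inv (c : ℕ → Option α) (A : G.N) (q : G.wa.Q) (t l : ℕ) : Prop :=
  match q with
  | Sum.inl B => ∃ u v, G.Derives A u B v ∧ u.length = t ∧ v.length = l ∧ Mt c u
  | Sum.inr (r, s) => ∃ u v, G.Derives A u r.1.1 v ∧ s.val ≤ r.1.2.1.length ∧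
      u.length + s.val = t ∧ v.length = l ∧ Mt c (u ++ r.1.2.1.take s.val)

theorem inv_of_run {c : ℕ → Option α} {A : G.N} {q : G.wa.Q} {t l : ℕ}
    (h : G.wa.Run c (Sum.inl A) q t l) : G.Inv c A q t l := by
  induction h with
  | start => exact ⟨[], [], Derives.refl, rfl, rfl, Mt.nil⟩
  | @eps q t l k q' _ hk ih =>
    rw [mem_eps] at hk
    rcases hk with ⟨r, rfl, rfl, rfl⟩ | ⟨r, rfl, rfl, rfl⟩
    · obtain ⟨u, v, h1, h2, h3, h4⟩ := ih
      exact ⟨u, v, h1, Nat.zero_le _, by simpa using h2, by simpa using h3, by simpa using h4⟩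
    · obtain ⟨u, v, h1, h2, h3, h4, h5⟩ := ih
      refine ⟨u ++ r.1.2.1, r.1.2.2.2 ++ v, Derives.step h1 r.2, ?_, ?_, ?_⟩
      · simpa using h3
      · simp only [List.length_append]; omega
      · simpa using h5
  | @read q t l a q' _ ha htr ih =>
    obtain ⟨r, s, s', rfl, rfl, hs, hra⟩ := htr
    obtain ⟨u, v, h1, h2, h3, h4, h5⟩ := ih
    have hlt : s.val < r.1.2.1.length := by
      rw [List.getElem?_eq_some_iff] at hra
      exact hra.1
    refine ⟨u, v, h1, by omega, by omega, h4, ?_⟩
    rw [hs, List.take_add_one, hra]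
    rw [← List.append_assoc, Mt.append]
    refine ⟨h5, fun i hi => ?_⟩
    simp only [Option.toList_some, List.length_singleton, Nat.lt_one_iff] at hi
    subst hi
    have h6 : (u ++ List.take s.val r.1.2.1).length = t := by
      simp only [List.length_append, List.length_take]
      omega
    simp only [h6, add_zero, ha]
    rfl

theorem run_of_derives {c : ℕ → Option α} {A B : G.N} {u v : List α} (h : G.Derives A u B v) :
    Mt c u → G.wa.Run c (Sum.inl A) (Sum.inl B) u.length v.length := by
  induction h with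
  | refl => intro _; exact WA.Run.start
  | @step u B v u' C v' h hr ih =>
    intro hm
    rw [Mt.append] at hm
    let r : G.R := ⟨(B, u', C, v'), hr⟩
    have h1 : G.wa.Run c (Sum.inl A) (Sum.inr (r, 0)) u.length v.length := by
      have := WA.Run.eps (ih hm.1) (k := 0) (q' := Sum.inr (r, 0))
        ((G.mem_eps _ _ _).2 (Or.inl ⟨r, rfl, rfl, rfl⟩))
      simpa using this
    have h2 : ∀ s (hs : s ≤ u'.length), G.wa.Run c (Sum.inl A)
        (Sum.inr (r, ⟨s, lt_of_le_of_lt hs (G.le_M r)⟩)) (u.length + s) v.length := by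
      intro s
      induction s with
      | zero => intro _; exact h1
      | succ s ihs =>
        intro hs
        have h3 := ihs (by omega)
        have hs' : s < u'.length := by omega
        have h4 := hm.2 s hs'
        refine WA.Run.read h3 (a := u'[s]) (h4.trans (List.getElem?_eq_getElem hs')) ?_
        exact ⟨r, _, _, rfl, rfl, rfl, List.getElem?_eq_getElem hs'⟩
    have h5 := WA.Run.eps (h2 u'.length le_rfl) (k := v'.length) (q' := Sum.inl C)
      ((G.mem_eps _ _ _).2 (Or.inr ⟨r, rfl, rfl, rfl⟩))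
    simpa [List.length_append, add_comm] using h5

theorem run_iff {c : ℕ → Option α} {A B : G.N} {t l : ℕ} :
    G.wa.Run c (Sum.inl A) (Sum.inl B) t l ↔
      ∃ u v, G.Derives A u B v ∧ u.length = t ∧ v.length = l ∧ Mt c u := by
  constructor
  · exact fun h => G.inv_of_run h
  · rintro ⟨u, v, h, rfl, rfl, hm⟩
    exact G.run_of_derives h hm

end LinearGrammar

section FP

variable {X : Type} [Cod X] [Finite α] (G : LinearGrammar α)

/-- Existence of derivations with given left context and given length of the right context. -/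
theorem FP.left {pos : List α → X × ℕ → ℕ} {t l : List α → X → ℕ} (hpos : Fn pos) (ht : Fn t)
    (hl : Fn l) (A B : G.N) : FP fun w x => ∃ u v, G.Derives A u B v ∧ u.length = t w x ∧
      v.length = l w x ∧ LinearGrammar.Mt (rd pos w x) u :=
  (FP.run G.wa hpos ht hl (Sum.inl A) (Sum.inl B)).congr fun w x => G.run_iff.symm

/-- The list `u` can be read at position `i`. -/
theorem FP.mt {pos : List α → X × ℕ → ℕ} {i : List α → X → ℕ} (hpos : Fn pos) (hi : Fn i)
    (u : List α) : FP fun w x => LinearGrammar.Mt (fun s => rd pos w x (i w x + s)) u := by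
  refine (FP.allFin (β := Fin u.length) (P := fun s w x =>
    w[pos w (x, i w x + s.val)]? = some u[s.val]) fun s => ?_).congr fun w x => ?_
  · exact Fn.letterP _ (hpos.comp (Fn.id.pair (hi.add (Fn.const _))))
  · unfold LinearGrammar.Mt rd
    constructor
    · intro h s
      exact (h s.val s.isLt).trans (List.getElem?_eq_getElem s.isLt)
    · intro h s hs
      exact (h ⟨s, hs⟩).trans (List.getElem?_eq_getElem hs).symm

end FP

end Pool.Agent.Helper38.LinL
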