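import Pool.Agent.Helper38.LinL.Cmd

/-!
# Functions computable by commands: the class `LS` and its closure properties
-/

namespace Pool.Agent.Helper38.LinL

open Classical

set_option linter.unusedSimpArgs false
set_option linter.unusedVariables false

section basic

variable {α : Type} {w : List α} {B : ℕ}

def Cmd.clear (r : ℕ) : Cmd α := Cmd.whileNZ r (Cmd.dec r)

theorem big_clear (r : ℕ) : ∀ (n : ℕ) (σ : ℕ → ℕ) (h : ℕ), σ r = n →
    Big w B (Cmd.clear r) σ h (Function.update σ r 0) h
  | 0, σ, h, hn => by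
      have : Function.update σ r 0 = σ := by
        rw [← hn]; exact Function.update_eq_self r σ
      rw [this]
      exact Big.wz hn
  | n + 1, σ, h, hn => by
      have h1 := big_clear r n (Function.update σ r (σ r - 1)) h (by simp [hn])
      rw [Function.update_idem] at h1
      exact Big.ws (by omega) (Big.dec (by omega)) h1

def Cmd.move (a b : ℕ) : Cmd α := Cmd.whileNZ a (Cmd.seq (Cmd.dec a) (Cmd.inc b))

theorem big_move {a b : ℕ} (hab : a ≠ b) : ∀ (n : ℕ) (σ : ℕ → ℕ) (h : ℕ), σ a = n →
    σ b + σ a ≤ B →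
    Big w B (Cmd.move a b) σ h (Function.update (Function.update σ a 0) b (σ b + σ a)) h
  | 0, σ, h, hn, hB => by
      have : Function.update (Function.update σ a 0) b (σ b + σ a) = σ := by
        rw [hn, add_zero]
        funext r
        by_cases hr : r = b
        · subst hr; simp
        · by_cases hr' : r = a
          · subst hr'; simp [hr, hn]
          · simp [hr, hr']
      rw [this]
      exact Big.wz hn
  | n + 1, σ, h, hn, hB => by
      have h1 := big_move hab n (Function.update (Function.update σ a (σ a - 1)) b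
        ((Function.update σ a (σ a - 1)) b + 1)) h (by simp [hn, hab])
        (by simp [hab, Ne.symm hab]; omega)
      refine Big.ws (by omega) (Big.seq (Big.dec (by omega)) (Big.inc ?_)) ?_
      · simp [Ne.symm hab]; omega
      · change Big w B (Cmd.move a b) _ _ _ _
        convert h1 using 1
        funext r
        by_cases hr : r = b
        · subst hr; simp [hab, Ne.symm hab]; omega
        · by_cases hr' : r = a
          · subst hr'; simp [hr]
          · simp [hr, hr']

def Cmd.copy (a b t : ℕ) : Cmd α :=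
  Cmd.seq (Cmd.whileNZ a (Cmd.seq (Cmd.dec a) (Cmd.seq (Cmd.inc b) (Cmd.inc t))))
    (Cmd.move t a)

theorem big_copy_aux {a b t : ℕ} (hab : a ≠ b) (hat : a ≠ t) (hbt : b ≠ t) :
    ∀ (n : ℕ) (σ : ℕ → ℕ) (h : ℕ), σ a = n →
    σ b + σ a ≤ B → σ t + σ a ≤ B →
    Big w B (Cmd.whileNZ a (Cmd.seq (Cmd.dec a) (Cmd.seq (Cmd.inc b) (Cmd.inc t)))) σ h
      (Function.update (Function.update (Function.update σ a 0) b (σ b + σ a)) t (σ t + σ a)) h
  | 0, σ, h, hn, hB, hB' => by
      have : Function.update (Function.update (Function.update σ a 0) b (σ b + σ a)) t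
          (σ t + σ a) = σ := by
        rw [hn, add_zero, add_zero]
        funext r
        by_cases hr0 : r = t
        · subst hr0; simp
        by_cases hr : r = b
        · subst hr; simp [hr0]
        · by_cases hr' : r = a
          · subst hr'; simp [hr, hn, hr0]
          · simp [hr, hr', hr0]
      rw [this]
      exact Big.wz hn
  | n + 1, σ, h, hn, hB, hB' => by
      have h1 := big_copy_aux hab hat hbt n
        (Function.update (Function.update (Function.update σ a (σ a - 1)) b (σ b + 1)) t
          (σ t + 1)) h (by simp [hn, hab, hat])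
        (by simp [hab, Ne.symm hab, hat, Ne.symm hat, hbt, Ne.symm hbt]; omega)
        (by simp [hab, Ne.symm hab, hat, Ne.symm hat, hbt, Ne.symm hbt]; omega)
      refine Big.ws (by omega) (Big.seq (Big.dec (by omega)) (Big.seq (Big.inc ?_) (Big.inc ?_)))
        ?_
      · simp [Ne.symm hab]; omega
      · simp [Ne.symm hab, Ne.symm hat, Ne.symm hbt]; omega
      · convert h1 using 1
        · funext r
          by_cases hr0 : r = t
          · subst hr0; simp [hab, Ne.symm hab, hat, Ne.symm hat, hbt, Ne.symm hbt]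
          by_cases hr : r = b
          · subst hr; simp [hab, Ne.symm hab, hat, Ne.symm hat, hbt, Ne.symm hbt]
          · by_cases hr' : r = a
            · subst hr'; simp [hr, hr0]
            · simp [hr, hr', hr0]
        · funext r
          by_cases hr0 : r = t
          · subst hr0; simp [hab, Ne.symm hab, hat, Ne.symm hat, hbt, Ne.symm hbt]; omega
          by_cases hr : r = b
          · subst hr; simp [hab, Ne.symm hab, hat, Ne.symm hat, hbt, Ne.symm hbt]; omega
          · by_cases hr' : r = a
            · subst hr'; simp [hr, hr0]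
            · simp [hr, hr', hr0]

theorem big_copy {a b t : ℕ} (hab : a ≠ b) (hat : a ≠ t) (hbt : b ≠ t) {σ : ℕ → ℕ} {h : ℕ}
    (hb : σ b = 0) (ht : σ t = 0) (hB : σ a ≤ B) :
    Big w B (Cmd.copy a b t) σ h (Function.update σ b (σ a)) h := by
  have h1 := big_copy_aux (w := w) (B := B) hab hat hbt (σ a) σ h rfl (by omega) (by omega)
  have h2 := big_move (w := w) (B := B) (Ne.symm hat) _
    (Function.update (Function.update (Function.update σ a 0) b (σ b + σ a)) t (σ t + σ a)) h rfl
    (by simp [hab, Ne.symm hab, hat, Ne.symm hat, hbt, Ne.symm hbt, ht, hB])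
  refine Big.seq h1 ?_
  convert h2 using 1
  funext r
  by_cases hr0 : r = t
  · subst hr0; simp [Ne.symm hat, Ne.symm hbt, ht]
  by_cases hr : r = b
  · subst hr; simp [hab, Ne.symm hab, hr0, hb]
  · by_cases hr' : r = a
    · subst hr'; simp [hr, hr0, ht]
    · simp [hr, hr', hr0]

theorem Big.seq' {a b : Cmd α} {σ h σ' h' σ'' h''} (h1 : Big w B a σ h σ' h')
    (h2 : Big w B b σ' h' σ'' h'') : Big w B (Cmd.seq a b) σ h σ'' h'' := Big.seq h1 h2

def Cmd.rewind : Cmd α := Cmd.untilSym Sym.lend Cmd.hl

theorem readSym_succ_ne (w : List α) (h : ℕ) : readSym w (h + 1) ≠ Sym.lend := by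
  unfold readSym
  simp only
  split <;> simp

theorem big_rewind : ∀ (h : ℕ) (σ : ℕ → ℕ), Big w B Cmd.rewind σ h σ 0
  | 0, σ => Big.uz rfl
  | h + 1, σ => Big.us (readSym_succ_ne w h) Big.hl (big_rewind h σ)

def seqL : List (Cmd α) → Cmd α
  | [] => Cmd.skip
  | c :: l => Cmd.seq c (seqL l)

/-- Simultaneous update of the registers `t k`, `k ∈ l`. -/
noncomputable def updL {κ : Type} (σ : ℕ → ℕ) (t : κ → ℕ) (v : κ → ℕ) (l : List κ) : ℕ → ℕ :=
  fun r => if h : ∃ k, k ∈ l ∧ t k = r then v h.choose else σ r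

theorem updL_mem {κ : Type} {σ : ℕ → ℕ} {t : κ → ℕ} (ht : Function.Injective t) {v : κ → ℕ}
    {l : List κ} {k : κ} (hk : k ∈ l) : updL σ t v l (t k) = v k := by
  unfold updL
  have h : ∃ k', k' ∈ l ∧ t k' = t k := ⟨k, hk, rfl⟩
  rw [dif_pos h]
  have := h.choose_spec.2
  rw [ht this]

theorem updL_not {κ : Type} {σ : ℕ → ℕ} {t : κ → ℕ} {v : κ → ℕ}
    {l : List κ} {r : ℕ} (hr : ∀ k ∈ l, t k ≠ r) : updL σ t v l r = σ r := by
  unfold updL
  rw [dif_neg]
  rintro ⟨k, hk, h⟩
  exact hr k hk h

theorem updL_nil {κ : Type} (σ : ℕ → ℕ) (t : κ → ℕ) (v : κ → ℕ) :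
    updL σ t v [] = σ := by
  funext r
  exact updL_not (by simp)

theorem updL_cons {κ : Type} {σ : ℕ → ℕ} {t : κ → ℕ} (ht : Function.Injective t) {v : κ → ℕ}
    {l : List κ} {k : κ} (hk : k ∉ l) :
    updL (Function.update σ (t k) (v k)) t v l = updL σ t v (k :: l) := by
  funext r
  by_cases h : ∃ k', k' ∈ k :: l ∧ t k' = r
  · obtain ⟨k', hk', rfl⟩ := h
    rw [updL_mem ht hk']
    rcases List.mem_cons.1 hk' with rfl | h1
    · rw [updL_not (by
        intro k'' h2 h3
        exact hk (ht h3 ▸ h2))]
      simp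
    · rw [updL_mem ht h1]
  · push Not at h
    rw [updL_not (fun k' hk' => h k' hk'), updL_not (fun k' hk' => h k' (List.mem_cons_of_mem _ hk'))]
    rw [Function.update_of_ne]
    exact fun h' => h k (List.mem_cons_self ..) h'.symm

/-- Sequential execution of independent commands. -/
theorem big_seqL {κ : Type} {t : κ → ℕ} (ht : Function.Injective t) (v : κ → ℕ)
    (c : κ → Cmd α) (I : List κ → (ℕ → ℕ) → Prop)
    (hI : ∀ σ k l, k ∉ l → I (k :: l) σ → I l (Function.update σ (t k) (v k)))
    (hc : ∀ σ k l, I (k :: l) σ → Big w B (c k) σ 0 (Function.update σ (t k) (v k)) 0) :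
    ∀ (l : List κ), l.Nodup → ∀ σ, I l σ → Big w B (seqL (l.map c)) σ 0 (updL σ t v l) 0
  | [], _, σ, _ => by rw [updL_nil]; exact Big.skip
  | k :: l, hl, σ, hσ => by
      rw [← updL_cons ht (List.nodup_cons.1 hl).1]
      exact Big.seq (hc σ k l hσ) (big_seqL ht v c I hI hc l (List.nodup_cons.1 hl).2 _
        (hI σ k l (List.nodup_cons.1 hl).1 hσ))

end basic

end Pool.Agent.Helper38.LinL
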