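import Pool.Agent.Helper38.LinL.LS

/-!
# The class `LS`
-/

namespace Pool.Agent.Helper38.LinL

open Classical

set_option linter.unusedSimpArgs false
set_option linter.unusedVariables false

variable {α : Type}

/-- The size parameter of an input. -/
def sz {ι : Type} [Fintype ι] (w : List α) (x : ι → ℕ) : ℕ := w.length + ∑ i, x i + 2

theorem two_le_sz {ι : Type} [Fintype ι] (w : List α) (x : ι → ℕ) : 2 ≤ sz w x := by
  unfold sz; omega

theorem le_sz {ι : Type} [Fintype ι] (w : List α) (x : ι → ℕ) (i : ι) : x i ≤ sz w x := by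
  have : x i ≤ ∑ i, x i := Finset.single_le_sum (fun _ _ => Nat.zero_le _) (Finset.mem_univ i)
  unfold sz; omega

/-- `c` computes `f`, with polynomial bound of exponent `e`. -/
def Computes {ι : Type} [Fintype ι] (f : List α → (ι → ℕ) → ℕ)
    (c : (ι → ℕ) → ℕ → ℕ → Cmd α) (e : ℕ) : Prop :=
  ∀ (ins : ι → ℕ) (out fr : ℕ), (∀ i, ins i < fr) → out < fr → (∀ i, ins i ≠ out) →
    ∀ (w : List α) (σ : ℕ → ℕ), (∀ r, fr ≤ r → σ r = 0) → σ out = 0 →
    ∀ B, (∀ r, σ r ≤ B) → (sz w fun i => σ (ins i)) ^ e ≤ B →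
    Big w B (c ins out fr) σ 0 (Function.update σ out (f w fun i => σ (ins i))) 0

def LS {ι : Type} [Fintype ι] (f : List α → (ι → ℕ) → ℕ) : Prop :=
  ∃ c e, Computes f c e ∧ ∀ w x, f w x ≤ (sz w x) ^ e

theorem Computes.mono {ι : Type} [Fintype ι] {f : List α → (ι → ℕ) → ℕ}
    {c : (ι → ℕ) → ℕ → ℕ → Cmd α} {e e' : ℕ} (h : Computes f c e) (he : e ≤ e') :
    Computes f c e' := by
  intro ins out fr h1 h2 h3 w σ h4 h5 B h6 h7
  exact h ins out fr h1 h2 h3 w σ h4 h5 B h6
    (le_trans (Nat.pow_le_pow_right (by have := two_le_sz w fun i => σ (ins i); omega) he) h7)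

theorem LS.mk {ι : Type} [Fintype ι] {f : List α → (ι → ℕ) → ℕ}
    {c : (ι → ℕ) → ℕ → ℕ → Cmd α} {e e' : ℕ} (h : Computes f c e)
    (h' : ∀ w x, f w x ≤ (sz w x) ^ e') : LS f := by
  refine ⟨c, max e e', h.mono (le_max_left _ _), fun w x => (h' w x).trans ?_⟩
  exact Nat.pow_le_pow_right (by have := two_le_sz w x; omega) (le_max_right _ _)

theorem LS.bound {ι : Type} [Fintype ι] {f : List α → (ι → ℕ) → ℕ} (h : LS f) :
    ∃ e, ∀ w x, f w x ≤ (sz w x) ^ e := by
  obtain ⟨c, e, _, h⟩ := h
  exact ⟨e, h⟩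

/-- Decision of languages. -/
theorem inL_of_LS (X : Set (List α)) (f : List α → (Empty → ℕ) → ℕ) (hf : LS f)
    (h : ∀ w, f w Empty.elim ≠ 0 ↔ w ∈ X) : InL X := by
  obtain ⟨c, e, hc, he⟩ := hf
  refine inL_of_cmd X (c Empty.elim 0 1) e fun w => ?_
  have h1 := hc Empty.elim 0 1 (fun i => i.elim) (by norm_num) (fun i => i.elim) w (fun _ => 0)
    (fun _ _ => rfl) rfl ((w.length + 2) ^ e) (fun _ => Nat.zero_le _) (by simp [sz])
  refine ⟨_, _, h1, ?_⟩
  rw [Function.update_self, ← h]
  have : (fun i : Empty => (0 : ℕ)) = Empty.elim := by funext i; exact i.elim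
  rw [this]

theorem LS.var {ι : Type} [Fintype ι] (i : ι) : LS fun (_ : List α) (x : ι → ℕ) => x i := by
  refine LS.mk (e := 0) (e' := 1) (c := fun ins out fr => Cmd.copy (ins i) out fr) ?_
    (fun w x => by simpa using le_sz w x i)
  intro ins out fr h1 h2 h3 w σ h4 h5 B h6 h7
  have ha := h1 i
  have hb := h3 i
  exact big_copy hb (by omega) (by omega) h5 (h4 fr le_rfl) (h6 _)

theorem LS.zero {ι : Type} [Fintype ι] : LS fun (_ : List α) (_ : ι → ℕ) => 0 := by
  refine LS.mk (e := 0) (e' := 0) (c := fun ins out fr => Cmd.skip) ?_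
    (fun w x => by simp)
  intro ins out fr h1 h2 h3 w σ h4 h5 B h6 h7
  have : Function.update σ out 0 = σ := by
    rw [← h5]; exact Function.update_eq_self _ _
  rw [this]
  exact Big.skip

theorem LS.succ {ι : Type} [Fintype ι] {f : List α → (ι → ℕ) → ℕ} (hf : LS f) :
    LS fun w x => f w x + 1 := by
  obtain ⟨c, e, hc, he⟩ := hf
  have hb : ∀ w x, f w x + 1 ≤ (sz w x) ^ (e + 1) := by
    intro w x
    have h1 := he w x
    have h2 := two_le_sz w x
    have h3 : 1 ≤ (sz w x) ^ e := Nat.one_le_pow _ _ (by omega)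
    calc f w x + 1 ≤ (sz w x) ^ e + (sz w x) ^ e := by omega
      _ = (sz w x) ^ e * 2 := by ring
      _ ≤ (sz w x) ^ e * sz w x := Nat.mul_le_mul_left _ h2
      _ = _ := by rw [pow_succ]
  refine LS.mk (e := e + 1) (e' := e + 1)
    (c := fun ins out fr => Cmd.seq (c ins out fr) (Cmd.inc out)) ?_ hb
  intro ins out fr h1 h2 h3 w σ h4 h5 B h6 h7
  refine Big.seq (hc.mono (Nat.le_succ e) ins out fr h1 h2 h3 w σ h4 h5 B h6 h7) ?_
  have h8 := Big.inc (w := w) (B := B) (h := 0) (r := out)
    (σ := Function.update σ out (f w fun i => σ (ins i)))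
    (by simpa using (hb w fun i => σ (ins i)).trans h7)
  simpa using h8

theorem readSym_min (w : List α) (h : ℕ) : readSym w (min (h + 1) (w.length + 1)) =
    readSym w (h + 1) := by
  rcases le_total h w.length with h1 | h1
  · rw [min_eq_left (by omega)]
  · rw [min_eq_right (by omega)]
    unfold readSym
    simp only
    rw [List.getElem?_eq_none (le_refl _), List.getElem?_eq_none h1]

/-- Testing a letter of the input. -/
noncomputable def letterTest (w : List α) (a : α) (j : ℕ) : ℕ := if w[j]? = some a then 1 else 0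

theorem readSym_eq_letter (w : List α) (a : α) (j : ℕ) :
    readSym w (j + 1) = Sym.letter a ↔ w[j]? = some a := by
  unfold readSym
  simp only
  cases h : w[j]? with
  | none => simp
  | some b => simp

theorem big_headloop {w : List α} {B : ℕ} {t : ℕ} : ∀ (n : ℕ) (σ : ℕ → ℕ) (h : ℕ), σ t = n →
    h ≤ w.length + 1 →
    Big w B (Cmd.whileNZ t (Cmd.seq (Cmd.dec t) Cmd.hr)) σ h (Function.update σ t 0)
      (min (h + n) (w.length + 1))
  | 0, σ, h, hn, hh => by
      have : Function.update σ t 0 = σ := by rw [← hn]; exact Function.update_eq_self _ _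
      rw [this, add_zero, min_eq_left hh]
      exact Big.wz hn
  | n + 1, σ, h, hn, hh => by
      have h1 := big_headloop (w := w) (B := B) (t := t) n (Function.update σ t (σ t - 1))
        (min (h + 1) (w.length + 1)) (by simp [hn]) (min_le_right _ _)
      rw [Function.update_idem] at h1
      have h2 : min (min (h + 1) (w.length + 1) + n) (w.length + 1) =
          min (h + (n + 1)) (w.length + 1) := by omega
      rw [h2] at h1
      exact Big.ws (by omega) (Big.seq (Big.dec (by omega)) Big.hr) h1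

theorem LS.letter {ι : Type} [Fintype ι] (a : α) (i : ι) :
    LS fun (w : List α) (x : ι → ℕ) => letterTest w a (x i) := by
  refine LS.mk (e := 1) (e' := 0) (c := fun ins out fr =>
    Cmd.seq (Cmd.copy (ins i) fr (fr + 1)) (Cmd.seq
      (Cmd.whileNZ fr (Cmd.seq (Cmd.dec fr) Cmd.hr)) (Cmd.seq Cmd.hr (Cmd.seq
        (Cmd.ifSym (Sym.letter a) (Cmd.inc out)) Cmd.rewind)))) ?_
    (fun w x => by unfold letterTest; split_ifs <;> simp)
  intro ins out fr h1 h2 h3 w σ h4 h5 B h6 h7
  have ha := h1 i
  have hb := h3 i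
  have hB1 : 1 ≤ B := by
    have := two_le_sz w fun i => σ (ins i)
    rw [pow_one] at h7
    omega
  refine Big.seq (big_copy (b := fr) (t := fr + 1) (by omega) (by omega) (by omega)
    (h4 _ le_rfl) (h4 _ (by omega)) (h6 _)) ?_
  refine Big.seq (big_headloop _ _ 0 rfl (by omega)) ?_
  have hfr : Function.update (Function.update σ fr (σ (ins i))) fr 0 = σ := by
    rw [Function.update_idem]
    have := h4 fr le_rfl
    rw [← this]; exact Function.update_eq_self _ _
  rw [hfr]
  refine Big.seq Big.hr ?_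
  have hread : readSym w (min (min (0 + Function.update σ fr (σ (ins i)) fr) (w.length + 1) + 1)
      (w.length + 1)) = readSym w (σ (ins i) + 1) := by
    rw [zero_add, Function.update_self, ← readSym_min w (σ (ins i))]
    congr 1
    omega
  by_cases hl : w[σ (ins i)]? = some a
  · refine Big.seq (Big.if1 (by rw [hread, readSym_eq_letter]; exact hl) (Big.inc ?_)) ?_
    · omega
    · have : letterTest w a (σ (ins i)) = σ out + 1 := by simp [letterTest, hl, h5]
      show Big w B _ _ _ (Function.update σ out (letterTest w a (σ (ins i)))) 0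
      rw [this]
      exact big_rewind _ _
  · refine Big.seq (Big.if0 (by rw [hread]; intro h; exact hl ((readSym_eq_letter _ _ _).1 h))) ?_
    have : letterTest w a (σ (ins i)) = σ out := by simp [letterTest, hl, h5]
    show Big w B _ _ _ (Function.update σ out (letterTest w a (σ (ins i)))) 0
    rw [this, Function.update_eq_self]
    exact big_rewind _ _

theorem readSym_lt (w : List α) {h : ℕ} (hh : h < w.length + 1) : readSym w h ≠ Sym.rend := by
  unfold readSym
  cases h with
  | zero => simp
  | succ j =>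
    simp only
    rw [List.getElem?_eq_getElem (by omega)]
    simp

theorem big_lenloop {w : List α} {B : ℕ} {t : ℕ} : ∀ (n : ℕ) (σ : ℕ → ℕ) (h : ℕ),
    h + n = w.length + 1 → σ t + n ≤ B →
    Big w B (Cmd.untilSym Sym.rend (Cmd.seq Cmd.hr (Cmd.inc t))) σ h
      (Function.update σ t (σ t + n)) (w.length + 1)
  | 0, σ, h, hn, hh => by
      rw [add_zero, Function.update_eq_self]
      have : h = w.length + 1 := by omega
      subst this
      apply Big.uz
      unfold readSym
      simp only
      rw [List.getElem?_eq_none le_rfl]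
  | n + 1, σ, h, hn, hh => by
      have h1 := big_lenloop (w := w) (B := B) (t := t) n (Function.update σ t (σ t + 1)) (h + 1)
        (by omega) (by simp; omega)
      rw [Function.update_idem, Function.update_self] at h1
      have h2 : σ t + 1 + n = σ t + (n + 1) := by ring
      rw [h2] at h1
      have h3 : h + 1 = min (h + 1) (w.length + 1) := by omega
      refine Big.us (readSym_lt w (by omega)) (Big.seq Big.hr (Big.inc (by omega))) ?_
      rw [← h3]
      exact h1

theorem LS.lenSucc {ι : Type} [Fintype ι] :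
    LS fun (w : List α) (_ : ι → ℕ) => w.length + 1 := by
  refine LS.mk (e := 1) (e' := 1) (c := fun ins out fr =>
    Cmd.seq (Cmd.untilSym Sym.rend (Cmd.seq Cmd.hr (Cmd.inc out))) Cmd.rewind) ?_
    (fun w x => by simp [sz]; omega)
  intro ins out fr h1 h2 h3 w σ h4 h5 B h6 h7
  have hB : w.length + 1 ≤ B := by
    refine le_trans ?_ h7
    simp only [sz, pow_one]
    omega
  refine Big.seq (big_lenloop (t := out) (w.length + 1) σ 0 (by omega) (by omega)) ?_
  rw [h5, zero_add]
  exact big_rewind _ _

end Pool.Agent.Helper38.LinL
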