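import Pool.Agent.Helper38.LinL.LS2

/-!
# The class `LS`: composition and bounded iteration
-/

namespace Pool.Agent.Helper38.LinL

open Classical

set_option linter.unusedSimpArgs false
set_option linter.unusedVariables false

variable {α : Type}

theorem sz_le_pow {κ : Type} [Fintype κ] {w : List α} {M e : ℕ} (hM : w.length + 2 ≤ M)
    {v : κ → ℕ} (hv : ∀ k, v k ≤ M ^ e) : sz w v ≤ M ^ (Fintype.card κ + e + 2) := by
  have h2 : 2 ≤ M := by omega
  have h1 : ∑ k, v k ≤ Fintype.card κ * M ^ e := by
    calc ∑ k, v k ≤ ∑ _k : κ, M ^ e := Finset.sum_le_sum fun k _ => hv k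
      _ = _ := by simp
  have h3 : Fintype.card κ ≤ M ^ Fintype.card κ := by
    calc Fintype.card κ ≤ 2 ^ Fintype.card κ := Nat.lt_two_pow_self.le
      _ ≤ _ := Nat.pow_le_pow_left h2 _
  have h4 : Fintype.card κ * M ^ e ≤ M ^ (Fintype.card κ + e) := by
    rw [pow_add]
    exact Nat.mul_le_mul_right _ h3
  have h5 : M ^ (Fintype.card κ + e) ≤ M ^ (Fintype.card κ + e + 1) :=
    Nat.pow_le_pow_right (by omega) (by omega)
  have h6 : M ≤ M ^ (Fintype.card κ + e + 1) := by
    calc M = M ^ 1 := (pow_one M).symm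
      _ ≤ _ := Nat.pow_le_pow_right (by omega) (by omega)
  have h7 : M ^ (Fintype.card κ + e + 2) = M ^ (Fintype.card κ + e + 1) * M := by
    rw [← pow_succ]
  rw [h7]
  unfold sz
  nlinarith

theorem updL_univ {κ : Type} [Fintype κ] {σ : ℕ → ℕ} {t : κ → ℕ} (ht : Function.Injective t)
    {v : κ → ℕ} (k : κ) : updL σ t v Finset.univ.toList (t k) = v k :=
  updL_mem ht (by simp)

theorem updL_univ_not {κ : Type} [Fintype κ] {σ : ℕ → ℕ} {t : κ → ℕ}
    {v : κ → ℕ} {r : ℕ} (hr : ∀ k, t k ≠ r) : updL σ t v Finset.univ.toList r = σ r :=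
  updL_not fun k _ => hr k

/-- Addresses of a block of registers. -/
noncomputable def adr (κ : Type) [Fintype κ] (a : ℕ) (k : κ) : ℕ := a + (Fintype.equivFin κ k).val

theorem adr_inj (κ : Type) [Fintype κ] (a : ℕ) : Function.Injective (adr κ a) := by
  intro k k' h
  unfold adr at h
  have : (Fintype.equivFin κ k).val = (Fintype.equivFin κ k').val := by omega
  exact (Fintype.equivFin κ).injective (Fin.ext this)

theorem le_adr {κ : Type} [Fintype κ] (a : ℕ) (k : κ) : a ≤ adr κ a k := by
  unfold adr; omega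

theorem adr_lt {κ : Type} [Fintype κ] (a : ℕ) (k : κ) : adr κ a k < a + Fintype.card κ := by
  unfold adr
  have := (Fintype.equivFin κ k).isLt
  omega

section fill

variable {w : List α} {B : ℕ}

/-- Computing a family of functions into a block of registers. -/
theorem big_fill {ι κ : Type} [Fintype ι] [Fintype κ] {g : κ → List α → (ι → ℕ) → ℕ}
    {cg : κ → (ι → ℕ) → ℕ → ℕ → Cmd α} {e : ℕ} (hg : ∀ k, Computes (g k) (cg k) e)
    {ins : ι → ℕ} {t : κ → ℕ} (ht : Function.Injective t) {fr : ℕ} (h1 : ∀ i, ins i < fr)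
    (h2 : ∀ k, t k < fr) (h3 : ∀ i k, ins i ≠ t k) {σ : ℕ → ℕ}
    (h4 : ∀ r, fr ≤ r → σ r = 0) (h5 : ∀ k, σ (t k) = 0) (h6 : ∀ r, σ r ≤ B)
    (h7 : (sz w fun i => σ (ins i)) ^ e ≤ B)
    (h8 : ∀ k, g k w (fun i => σ (ins i)) ≤ B) :
    Big w B (seqL (Finset.univ.toList.map fun k => cg k ins (t k) fr)) σ 0
      (updL σ t (fun k => g k w fun i => σ (ins i)) Finset.univ.toList) 0 := by
  refine big_seqL ht _ (fun k => cg k ins (t k) fr)
    (fun l τ => (∀ k ∈ l, τ (t k) = 0) ∧ (∀ r, fr ≤ r → τ r = 0) ∧
      (∀ i, τ (ins i) = σ (ins i)) ∧ ∀ r, τ r ≤ B) ?_ ?_ _ (Finset.nodup_toList _) σ ?_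
  · rintro τ k l hkl ⟨i1, i2, i3, i4⟩
    refine ⟨fun k' hk' => ?_, fun r hr => ?_, fun i => ?_, fun r => ?_⟩
    · rw [Function.update_of_ne]
      · exact i1 k' (List.mem_cons_of_mem _ hk')
      · intro h
        exact hkl (ht h ▸ hk')
    · rw [Function.update_of_ne (by have := h2 k; omega)]
      exact i2 r hr
    · rw [Function.update_of_ne (h3 i k)]
      exact i3 i
    · by_cases hr : r = t k
      · subst hr; simpa using h8 k
      · rw [Function.update_of_ne hr]; exact i4 r
  · rintro τ k l ⟨i1, i2, i3, i4⟩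
    have heq : (fun i => τ (ins i)) = fun i => σ (ins i) := funext i3
    have := hg k ins (t k) fr h1 (h2 k) (fun i => h3 i k) w τ i2
      (i1 k (List.mem_cons_self ..)) B i4 (by rw [heq]; exact h7)
    rwa [heq] at this
  · exact ⟨fun k _ => h5 k, h4, fun _ => rfl, h6⟩

/-- Clearing a block of registers. -/
theorem big_clearL {κ : Type} [Fintype κ] {t : κ → ℕ} (ht : Function.Injective t) (σ : ℕ → ℕ) :
    Big w B (seqL (Finset.univ.toList.map fun k => Cmd.clear (t k))) σ 0
      (updL σ t (fun _ => 0) Finset.univ.toList) 0 :=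
  big_seqL ht _ (fun k => Cmd.clear (t k)) (fun _ _ => True) (fun _ _ _ _ _ => trivial)
    (fun τ k _ _ => big_clear (t k) _ τ 0 rfl) _ (Finset.nodup_toList _) σ trivial

/-- Copying a block of registers to another one, which is zero. -/
theorem big_copyL {κ : Type} [Fintype κ] {t u : κ → ℕ} (ht : Function.Injective t) {z : ℕ}
    (h1 : ∀ k k', u k ≠ t k') (h2 : ∀ k, u k ≠ z) (h3 : ∀ k, t k ≠ z) {σ : ℕ → ℕ}
    (h4 : σ z = 0) (h5 : ∀ k, σ (t k) = 0) (h6 : ∀ r, σ r ≤ B) :
    Big w B (seqL (Finset.univ.toList.map fun k => Cmd.copy (u k) (t k) z)) σ 0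
      (updL σ t (fun k => σ (u k)) Finset.univ.toList) 0 := by
  refine big_seqL ht _ (fun k => Cmd.copy (u k) (t k) z)
    (fun l τ => (∀ k ∈ l, τ (t k) = 0) ∧ τ z = 0 ∧ (∀ k, τ (u k) = σ (u k)) ∧ ∀ r, τ r ≤ B)
    ?_ ?_ _ (Finset.nodup_toList _) σ ?_
  · rintro τ k l hkl ⟨i1, i2, i3, i4⟩
    refine ⟨fun k' hk' => ?_, ?_, fun k' => ?_, fun r => ?_⟩
    · rw [Function.update_of_ne]
      · exact i1 k' (List.mem_cons_of_mem _ hk')
      · intro h
        exact hkl (ht h ▸ hk')
    · rw [Function.update_of_ne (h3 k).symm]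
      exact i2
    · rw [Function.update_of_ne (h1 k' k)]
      exact i3 k'
    · by_cases hr : r = t k
      · subst hr; simpa using h6 (u k)
      · rw [Function.update_of_ne hr]; exact i4 r
  · rintro τ k l ⟨i1, i2, i3, i4⟩
    have := big_copy (w := w) (B := B) (h := 0) (h1 k k) (h2 k) (h3 k) (σ := τ)
      (i1 k (List.mem_cons_self ..)) i2 (i4 _)
    rwa [i3 k] at this
  · exact ⟨fun k _ => h5 k, h4, fun _ => rfl, h6⟩

end fill

theorem exists_codes {ι κ : Type} [Fintype ι] [Fintype κ] {g : κ → List α → (ι → ℕ) → ℕ}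
    (hg : ∀ k, LS (g k)) : ∃ (cg : κ → (ι → ℕ) → ℕ → ℕ → Cmd α) (e : ℕ),
      (∀ k, Computes (g k) (cg k) e) ∧ ∀ k w x, g k w x ≤ (sz w x) ^ e := by
  choose c e h1 h2 using hg
  refine ⟨c, Finset.univ.sup e, fun k => (h1 k).mono (Finset.le_sup (Finset.mem_univ k)),
    fun k w x => (h2 k w x).trans ?_⟩
  exact Nat.pow_le_pow_right (by have := two_le_sz w x; omega)
    (Finset.le_sup (f := e) (Finset.mem_univ k))

theorem LS.comp {ι κ : Type} [Fintype ι] [Fintype κ] {f : List α → (κ → ℕ) → ℕ}
    {g : κ → List α → (ι → ℕ) → ℕ} (hf : LS f) (hg : ∀ k, LS (g k)) :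
    LS fun w x => f w fun k => g k w x := by
  obtain ⟨cf, ef, hcf, hbf⟩ := hf
  obtain ⟨cg, e0, hcg, hbg⟩ := exists_codes hg
  set N := Fintype.card κ with hN
  have hsz : ∀ (w : List α) (x : ι → ℕ), sz w (fun k => g k w x) ≤ (sz w x) ^ (N + e0 + 2) :=
    fun w x => sz_le_pow (by unfold sz; omega) (fun k => hbg k w x)
  have hsz' : ∀ (w : List α) (x : ι → ℕ), (sz w (fun k => g k w x)) ^ ef ≤
      (sz w x) ^ ((N + e0 + 2) * ef) := by
    intro w x
    rw [pow_mul]
    exact Nat.pow_le_pow_left (hsz w x) ef
  refine LS.mk (e := max e0 ((N + e0 + 2) * ef)) (e' := (N + e0 + 2) * ef)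
    (c := fun ins out fr => Cmd.seq
      (seqL (Finset.univ.toList.map fun k => cg k ins (adr κ fr k) (fr + N)))
      (Cmd.seq (cf (adr κ fr) out (fr + N))
        (seqL (Finset.univ.toList.map fun k => Cmd.clear (adr κ fr k))))) ?_
    (fun w x => (hbf w _).trans (hsz' w x))
  intro ins out fr h1 h2 h3 w σ h4 h5 B h6 h7
  have hM : 2 ≤ sz w fun i => σ (ins i) := two_le_sz _ _
  have hB1 : (sz w fun i => σ (ins i)) ^ e0 ≤ B :=
    (Nat.pow_le_pow_right (by omega) (le_max_left _ _)).trans h7
  have hB2 : (sz w fun i => σ (ins i)) ^ ((N + e0 + 2) * ef) ≤ B :=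
    (Nat.pow_le_pow_right (by omega) (le_max_right _ _)).trans h7
  have ht := adr_inj κ fr
  have hlt : ∀ k, adr κ fr k < fr + N := adr_lt fr
  have hge : ∀ k, fr ≤ adr κ fr k := le_adr fr
  set v : κ → ℕ := fun k => g k w fun i => σ (ins i) with hv
  have hvB : ∀ k, v k ≤ B := fun k => (hbg k w _).trans hB1
  have s1 := big_fill (w := w) (B := B) hcg (ins := ins) ht (fr := fr + N)
    (fun i => by have := h1 i; omega) hlt
    (fun i k => by have := h1 i; have := hge k; omega) (σ := σ)
    (fun r hr => h4 r (by omega)) (fun k => h4 _ (hge k)) h6 hB1 hvB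
  set S1 := updL σ (adr κ fr) v Finset.univ.toList with hS1
  have hS1v : (fun k => S1 (adr κ fr k)) = v := funext fun k => updL_univ ht k
  have hS1r : ∀ r, (∀ k, adr κ fr k ≠ r) → S1 r = σ r := fun r hr => updL_univ_not hr
  have s2 := hcf (adr κ fr) out (fr + N) hlt (by omega)
    (fun k => by have := hge k; omega) w S1
    (fun r hr => by
      rw [hS1r r (fun k => by have := hlt k; omega)]
      exact h4 r (by omega))
    (by
      rw [hS1r out (fun k => by have := hge k; omega)]
      exact h5) B
    (fun r => by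
      by_cases hr : ∃ k, adr κ fr k = r
      · obtain ⟨k, rfl⟩ := hr
        rw [hS1, updL_univ ht]
        exact hvB k
      · push Not at hr
        rw [hS1r r hr]
        exact h6 r)
    (by rw [hS1v]; exact (hsz' w _).trans hB2)
  rw [hS1v] at s2
  have s3 := big_clearL (w := w) (B := B) ht (Function.update S1 out (f w v))
  refine Big.seq s1 (Big.seq s2 ?_)
  convert s3 using 1
  funext r
  by_cases hr : ∃ k, adr κ fr k = r
  · obtain ⟨k, rfl⟩ := hr
    rw [updL_univ ht, Function.update_of_ne (by have := hge k; omega)]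
    exact h4 _ (hge k)
  · push Not at hr
    rw [updL_univ_not hr]
    by_cases hro : r = out
    · subst hro; simp only [Function.update_self]; rfl
    · rw [Function.update_of_ne hro, Function.update_of_ne hro, hS1r r hr]

/-- Iteration of a simultaneous step. -/
def iterS {κ : Type} (step : κ → List α → (κ → ℕ) → ℕ) (w : List α) (s0 : κ → ℕ) : ℕ → κ → ℕ
  | 0 => s0
  | t + 1 => fun k => step k w (iterS step w s0 t)

theorem big_loop {κ : Type} [Fintype κ] {step : κ → List α → (κ → ℕ) → ℕ}
    {cs : κ → (κ → ℕ) → ℕ → ℕ → Cmd α} {es : ℕ} (hcs : ∀ k, Computes (step k) (cs k) es)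
    {w : List α} {B : ℕ} {s0 : κ → ℕ} {fr : ℕ} {σ : ℕ → ℕ} (h4 : ∀ r, fr ≤ r → σ r = 0)
    (h6 : ∀ r, σ r ≤ B) : ∀ (c t : ℕ), c + t ≤ B →
    (∀ t' k, t' ≤ t + c → iterS step w s0 t' k ≤ B) →
    (∀ t', t' < t + c → (sz w (iterS step w s0 t')) ^ es ≤ B) →
    Big w B (Cmd.whileNZ fr (Cmd.seq (Cmd.dec fr) (Cmd.seq
        (seqL (Finset.univ.toList.map fun k => cs k (adr κ (fr + 1))
          (adr κ (fr + 1 + Fintype.card κ) k) (fr + 1 + Fintype.card κ + Fintype.card κ)))
        (Cmd.seq (seqL (Finset.univ.toList.map fun k => Cmd.clear (adr κ (fr + 1) k)))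
        (Cmd.seq (seqL (Finset.univ.toList.map fun k => Cmd.copy
          (adr κ (fr + 1 + Fintype.card κ) k) (adr κ (fr + 1) k)
            (fr + 1 + Fintype.card κ + Fintype.card κ)))
        (seqL (Finset.univ.toList.map fun k =>
          Cmd.clear (adr κ (fr + 1 + Fintype.card κ) k))))))))
      (updL (Function.update σ fr c) (adr κ (fr + 1)) (iterS step w s0 t) Finset.univ.toList) 0
      (updL (Function.update σ fr 0) (adr κ (fr + 1)) (iterS step w s0 (t + c))
        Finset.univ.toList) 0
  | 0, t, _, _, _ => by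
      apply Big.wz
      rw [updL_univ_not (fun k => by have := le_adr (fr + 1) k; omega)]
      simp
  | c + 1, t, hc, hb1, hb2 => by
      set N := Fintype.card κ with hN
      set s : κ → ℕ := adr κ (fr + 1) with hs
      set u : κ → ℕ := adr κ (fr + 1 + N) with hu
      have hsi : Function.Injective s := adr_inj κ _
      have hui : Function.Injective u := adr_inj κ _
      have hs1 : ∀ k, fr + 1 ≤ s k := le_adr _
      have hs2 : ∀ k, s k < fr + 1 + N := adr_lt _
      have hu1 : ∀ k, fr + 1 + N ≤ u k := le_adr _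
      have hu2 : ∀ k, u k < fr + 1 + N + N := adr_lt _
      set St : ℕ → ℕ → ℕ → ℕ := fun c t => updL (Function.update σ fr c) s
        (iterS step w s0 t) Finset.univ.toList with hSt
      have hSts : ∀ c t k, St c t (s k) = iterS step w s0 t k := fun c t k => updL_univ hsi k
      have hSt0 : ∀ c t, St c t fr = c := fun c t => by
        simp only [hSt]
        rw [updL_univ_not (fun k => by have := hs1 k; omega)]
        simp
      have hStr : ∀ c t r, r ≠ fr → (∀ k, s k ≠ r) → St c t r = σ r := fun c t r hr hr' => by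
        simp only [hSt]
        rw [updL_univ_not hr', Function.update_of_ne hr]
      have hStB : ∀ c t, c ≤ B → (∀ k, iterS step w s0 t k ≤ B) → ∀ r, St c t r ≤ B := by
        intro c t hcB htB r
        by_cases hr : r = fr
        · rw [hr, hSt0]; exact hcB
        · by_cases hr' : ∃ k, s k = r
          · obtain ⟨k, rfl⟩ := hr'
            rw [hSts]
            exact htB k
          · push Not at hr'
            rw [hStr c t r hr hr']
            exact h6 r
      -- the decrement
      have s1 : Big w B (Cmd.dec fr) (St (c + 1) t) 0 (St c t) 0 := by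
        have h1 := Big.dec (w := w) (B := B) (h := 0) (r := fr) (σ := St (c + 1) t)
          (by rw [hSt0]; omega)
        have h2 : Function.update (St (c + 1) t) fr (St (c + 1) t fr - 1) = St c t := by
          funext r
          by_cases hr : r = fr
          · subst hr; rw [Function.update_self, hSt0, hSt0]; omega
          · rw [Function.update_of_ne hr]
            by_cases hr' : ∃ k, s k = r
            · obtain ⟨k, rfl⟩ := hr'
              rw [hSts, hSts]
            · push Not at hr'
              rw [hStr _ t r hr hr', hStr _ t r hr hr']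
        rwa [h2] at h1
      -- computing the next state
      have heq : (fun k => St c t (s k)) = iterS step w s0 t := funext fun k => hSts c t k
      have s2 := big_fill (w := w) (B := B) hcs (ins := s) hui (fr := fr + 1 + N + N)
        (fun k => by have := hs2 k; omega) hu2
        (fun k k' => by have := hs2 k; have := hu1 k'; omega) (σ := St c t)
        (fun r hr => by
          rw [hStr c t r (by omega) (fun k => by have := hs2 k; omega)]
          exact h4 r (by omega))
        (fun k => by
          rw [hStr c t (u k) (by have := hu1 k; omega)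
            (fun k' => by have := hs2 k'; have := hu1 k; omega)]
          exact h4 _ (by have := hu1 k; omega))
        (hStB c t (by omega) (fun k => hb1 t k (by omega)))
        (by rw [heq]; exact hb2 t (by omega))
        (fun k => by
          rw [heq]
          exact hb1 (t + 1) k (by omega))
      rw [heq] at s2
      change Big w B _ _ 0 (updL (St c t) u (iterS step w s0 (t + 1)) Finset.univ.toList) 0 at s2
      set S2 := updL (St c t) u (iterS step w s0 (t + 1)) Finset.univ.toList with hS2
      have hS2u : ∀ k, S2 (u k) = iterS step w s0 (t + 1) k := fun k => updL_univ hui k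
      have hS2r : ∀ r, (∀ k, u k ≠ r) → S2 r = St c t r := fun r hr => updL_univ_not hr
      -- clearing
      have s3 := big_clearL (w := w) (B := B) hsi S2
      set S3 := updL S2 s (fun _ => 0) Finset.univ.toList with hS3
      have hS3s : ∀ k, S3 (s k) = 0 := fun k => updL_univ hsi k
      have hS3r : ∀ r, (∀ k, s k ≠ r) → S3 r = S2 r := fun r hr => updL_univ_not hr
      have hS3u : ∀ k, S3 (u k) = iterS step w s0 (t + 1) k := fun k => by
        rw [hS3r _ (fun k' => by have := hs2 k'; have := hu1 k; omega), hS2u]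
      have hS3B : ∀ r, S3 r ≤ B := by
        intro r
        by_cases hr : ∃ k, s k = r
        · obtain ⟨k, rfl⟩ := hr
          rw [hS3s]; omega
        · push Not at hr
          rw [hS3r r hr]
          by_cases hr' : ∃ k, u k = r
          · obtain ⟨k, rfl⟩ := hr'
            rw [hS2u]
            exact hb1 (t + 1) k (by omega)
          · push Not at hr'
            rw [hS2r r hr']
            exact hStB c t (by omega) (fun k => hb1 t k (by omega)) r
      have hS3z : ∀ r, fr + 1 + N + N ≤ r → S3 r = 0 := fun r hr => by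
        rw [hS3r r (fun k => by have := hs2 k; omega),
          hS2r r (fun k => by have := hu2 k; omega),
          hStr c t r (by omega) (fun k => by have := hs2 k; omega)]
        exact h4 r (by omega)
      -- copying
      have s4 := big_copyL (w := w) (B := B) (t := s) (u := u) (z := fr + 1 + N + N) hsi
        (fun k k' => by have := hs2 k'; have := hu1 k; omega)
        (fun k => by have := hu2 k; omega) (fun k => by have := hs2 k; omega) (σ := S3)
        (hS3z _ le_rfl) hS3s hS3B
      set S4 := updL S3 s (fun k => S3 (u k)) Finset.univ.toList with hS4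
      have hS4s : ∀ k, S4 (s k) = iterS step w s0 (t + 1) k := fun k => by
        rw [hS4, updL_univ hsi, hS3u]
      have hS4r : ∀ r, (∀ k, s k ≠ r) → S4 r = S3 r := fun r hr => updL_univ_not hr
      have s5 := big_clearL (w := w) (B := B) hui S4
      have hfin : updL S4 u (fun _ => 0) Finset.univ.toList = St c (t + 1) := by
        funext r
        by_cases hr' : ∃ k, u k = r
        · obtain ⟨k, rfl⟩ := hr'
          rw [updL_univ hui, hStr c (t + 1) _ (by have := hu1 k; omega)
            (fun k' => by have := hs2 k'; have := hu1 k; omega)]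
          exact (h4 _ (by have := hu1 k; omega)).symm
        · push Not at hr'
          rw [updL_univ_not hr']
          by_cases hr : ∃ k, s k = r
          · obtain ⟨k, rfl⟩ := hr
            rw [hS4s, hSts]
          · push Not at hr
            rw [hS4r r hr, hS3r r hr, hS2r r hr']
            by_cases h0 : r = fr
            · subst h0; rw [hSt0, hSt0]
            · rw [hStr c t r h0 hr, hStr c (t + 1) r h0 hr]
      rw [hfin] at s5
      have ih := big_loop hcs (s0 := s0) h4 h6 c (t + 1) (by omega)
        (fun t' k ht' => hb1 t' k (by omega)) (fun t' ht' => hb2 t' (by omega))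
      rw [show t + 1 + c = t + (c + 1) by ring] at ih
      refine Big.ws ?_ (Big.seq s1 (Big.seq s2 (Big.seq s3 (Big.seq s4 s5)))) ih
      · show St (c + 1) t fr ≠ 0
        rw [hSt0]; omega

theorem LS.iter {ι κ : Type} [Fintype ι] [Fintype κ] {T : List α → (ι → ℕ) → ℕ}
    {init : κ → List α → (ι → ℕ) → ℕ} {step : κ → List α → (κ → ℕ) → ℕ}
    (hT : LS T) (hi : ∀ k, LS (init k)) (hs : ∀ k, LS (step k)) (e0 : ℕ)
    (hb : ∀ w x t, t ≤ T w x → ∀ k, iterS step w (fun k => init k w x) t k ≤ (sz w x) ^ e0)
    (j : κ) : LS fun w x => iterS step w (fun k => init k w x) (T w x) j := by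
  obtain ⟨cT, eT, hcT, hbT⟩ := hT
  obtain ⟨ci, ei, hci, hbi⟩ := exists_codes hi
  obtain ⟨cs, es, hcs, hbs⟩ := exists_codes hs
  set N := Fintype.card κ with hN
  set e1 := (N + e0 + 2) * es with he1
  set E := max (max eT ei) (max e0 e1) with hE
  refine LS.mk (e := E) (e' := e0)
    (c := fun ins out fr => Cmd.seq (cT ins fr (fr + 1 + N + N)) (Cmd.seq
      (seqL (Finset.univ.toList.map fun k => ci k ins (adr κ (fr + 1) k) (fr + 1 + N + N)))
      (Cmd.seq
        (Cmd.whileNZ fr (Cmd.seq (Cmd.dec fr) (Cmd.seq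
        (seqL (Finset.univ.toList.map fun k => cs k (adr κ (fr + 1))
          (adr κ (fr + 1 + N) k) (fr + 1 + N + N)))
        (Cmd.seq (seqL (Finset.univ.toList.map fun k => Cmd.clear (adr κ (fr + 1) k)))
        (Cmd.seq (seqL (Finset.univ.toList.map fun k => Cmd.copy
          (adr κ (fr + 1 + N) k) (adr κ (fr + 1) k)
            (fr + 1 + N + N)))
        (seqL (Finset.univ.toList.map fun k =>
          Cmd.clear (adr κ (fr + 1 + N) k))))))))
        (Cmd.seq (Cmd.copy (adr κ (fr + 1) j) out (fr + 1 + N + N))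
          (seqL (Finset.univ.toList.map fun k => Cmd.clear (adr κ (fr + 1) k))))))) ?_
    (fun w x => hb w x _ le_rfl j)
  intro ins out fr h1 h2 h3 w σ h4 h5 B h6 h7
  set x : ι → ℕ := fun i => σ (ins i) with hx
  have hM : 2 ≤ sz w x := two_le_sz _ _
  have hBT : (sz w x) ^ eT ≤ B := (Nat.pow_le_pow_right (by omega) (by omega)).trans h7
  have hBi : (sz w x) ^ ei ≤ B := (Nat.pow_le_pow_right (by omega) (by omega)).trans h7
  have hB0 : (sz w x) ^ e0 ≤ B := (Nat.pow_le_pow_right (by omega) (by omega)).trans h7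
  have hB1 : (sz w x) ^ e1 ≤ B := (Nat.pow_le_pow_right (by omega) (by omega)).trans h7
  set s : κ → ℕ := adr κ (fr + 1) with hs'
  have hsi : Function.Injective s := adr_inj κ _
  have hs1 : ∀ k, fr + 1 ≤ s k := le_adr _
  have hs2 : ∀ k, s k < fr + 1 + N := adr_lt _
  set s0 : κ → ℕ := fun k => init k w x with hs0
  -- the counter
  have p1 := hcT ins fr (fr + 1 + N + N) (fun i => by have := h1 i; omega) (by omega)
    (fun i => by have := h1 i; omega) w σ (fun r hr => h4 r (by omega)) (h4 _ le_rfl) B h6 hBT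
  change Big w B _ σ 0 (Function.update σ fr (T w x)) 0 at p1
  set σ1 := Function.update σ fr (T w x) with hσ1
  have hTB : T w x ≤ B := (hbT w x).trans hBT
  have hσ1x : (fun i => σ1 (ins i)) = x := funext fun i => by
    rw [hσ1, Function.update_of_ne (by have := h1 i; omega)]
  -- initial state
  have p2 := big_fill (w := w) (B := B) hci (ins := ins) hsi (fr := fr + 1 + N + N)
    (fun i => by have := h1 i; omega) (fun k => by have := hs2 k; omega)
    (fun i k => by have := h1 i; have := hs1 k; omega) (σ := σ1)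
    (fun r hr => by rw [hσ1, Function.update_of_ne (by omega)]; exact h4 r (by omega))
    (fun k => by
      rw [hσ1, Function.update_of_ne (by have := hs1 k; omega)]
      exact h4 _ (by have := hs1 k; omega))
    (fun r => by
      by_cases hr : r = fr
      · subst hr; simpa [hσ1] using hTB
      · rw [hσ1, Function.update_of_ne hr]; exact h6 r)
    (by rw [hσ1x]; exact hBi)
    (fun k => by rw [hσ1x]; exact (hbi k w x).trans hBi)
  rw [hσ1x] at p2
  -- the loop
  have p3 := big_loop hcs (w := w) (B := B) (s0 := s0) (fr := fr) (σ := σ) h4 h6 (T w x) 0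
    (by omega) (fun t' k ht' => (hb w x t' (by omega) k).trans hB0)
    (fun t' ht' => by
      have h8 : sz w (iterS step w s0 t') ≤ (sz w x) ^ (N + e0 + 2) :=
        sz_le_pow (by unfold sz; omega) (fun k => hb w x t' (by omega) k)
      have h9 := Nat.pow_le_pow_left h8 es
      rw [← pow_mul] at h9
      exact h9.trans hB1)
  rw [zero_add] at p3
  set S3 := updL (Function.update σ fr 0) (adr κ (fr + 1)) (iterS step w s0 (T w x))
    Finset.univ.toList with hS3
  have hσfr : Function.update σ fr 0 = σ := by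
    have := h4 fr le_rfl
    rw [← this]; exact Function.update_eq_self _ _
  rw [hσfr] at hS3
  have hS3s : ∀ k, S3 (s k) = iterS step w s0 (T w x) k := fun k => by
    rw [hS3]; exact updL_univ hsi k
  have hS3r : ∀ r, (∀ k, s k ≠ r) → S3 r = σ r := fun r hr => by
    rw [hS3]; exact updL_univ_not hr
  have hs2' := hs2 j
  have hs1' := hs1 j
  have p4 := big_copy (w := w) (B := B) (h := 0) (a := s j) (b := out) (t := fr + 1 + N + N)
    (by omega) (by omega) (by omega) (σ := S3)
    (by rw [hS3r out (fun k => by have := hs1 k; omega)]; exact h5)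
    (by
      rw [hS3r _ (fun k => by have := hs2 k; omega)]
      exact h4 _ (by omega))
    (by rw [hS3s]; exact (hb w x _ le_rfl j).trans hB0)
  rw [hS3s] at p4
  have p5 := big_clearL (w := w) (B := B) hsi
    (Function.update S3 out (iterS step w s0 (T w x) j))
  refine Big.seq p1 (Big.seq p2 (Big.seq p3 (Big.seq p4 ?_)))
  convert p5 using 1
  funext r
  by_cases hr : ∃ k, s k = r
  · obtain ⟨k, rfl⟩ := hr
    rw [updL_univ hsi, Function.update_of_ne (by have := hs1 k; omega)]
    exact h4 _ (by have := hs1 k; omega)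
  · push Not at hr
    rw [updL_univ_not hr]
    by_cases hro : r = out
    · subst hro; simp only [Function.update_self]; rfl
    · rw [Function.update_of_ne hro, Function.update_of_ne hro, hS3r r hr]

end Pool.Agent.Helper38.LinL
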