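import Mathlib

/-!
# Deterministic logarithmic space

Deterministic Turing machines with a two-way read-only input tape (with end markers) and one
work tape, and the class of languages they decide while using `O(log n)` cells of the work tape.
-/

namespace Pool.Agent.Helper38.LinL

/-- What the head on the input tape reads: the left end marker, a letter of the input word, or
the right end marker. -/
inductive Sym (α : Type)
  | lend : Sym α
  | letter (a : α) : Sym α
  | rend : Sym α

/-- A move of a head. -/
inductive Dir
  | left : Dir
  | stay : Dir
  | right : Dir

/-- The symbol read by the input head in position `i` of the input tape holding `w`: position `0`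
carries the left end marker, positions `1, ..., |w|` the letters of `w`, and position `|w| + 1`
the right end marker. -/
def readSym {α : Type} (w : List α) (i : ℕ) : Sym α :=
  match i with
  | 0 => Sym.lend
  | j + 1 => match w[j]? with
    | some a => Sym.letter a
    | none => Sym.rend

/-- A deterministic Turing machine with a two-way read-only input tape and one work tape: finite
sets `Q` of states and `Γ` of work tape symbols, a blank symbol, a start state, a transition
function (which reads the state, the symbol under the input head and the symbol under the work
head and either halts, or gives the new state, the symbol written on the work tape, the move of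
the input head and the move of the work head), and a set of accepting states. -/
structure TM (α : Type) where
  Q : Type
  Γ : Type
  finQ : Finite Q
  finΓ : Finite Γ
  blank : Γ
  start : Q
  δ : Q → Sym α → Γ → Option (Q × Γ × Dir × Dir)
  accept : Set Q

/-- A configuration: state, position of the input head, contents of the work tape (one-way
infinite to the right), position of the work head. -/
structure Cfg {α : Type} (M : TM α) where
  q : M.Q
  inp : ℕ
  tape : ℕ → M.Γ
  head : ℕ

/-- The input head stays between the two end markers (positions `0` and `n + 1`). -/
def moveInp (n i : ℕ) : Dir → ℕ
  | Dir.left => i - 1
  | Dir.stay => i
  | Dir.right => min (i + 1) (n + 1)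

/-- The work head does not move to the left of cell `0`. -/
def moveHead (h : ℕ) : Dir → ℕ
  | Dir.left => h - 1
  | Dir.stay => h
  | Dir.right => h + 1

/-- One step of the machine on input `w`; `none` if the machine halts. -/
def TM.step {α : Type} (M : TM α) (w : List α) (c : Cfg M) : Option (Cfg M) :=
  (M.δ c.q (readSym w c.inp) (c.tape c.head)).map fun t =>
    { q := t.1
      inp := moveInp w.length c.inp t.2.2.1
      tape := Function.update c.tape c.head t.2.1
      head := moveHead c.head t.2.2.2 }

/-- The initial configuration: start state, both heads in position `0`, blank work tape. -/
def TM.init {α : Type} (M : TM α) : Cfg M :=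
  { q := M.start, inp := 0, tape := fun _ => M.blank, head := 0 }

/-- `M.Reach w c d`: on input `w` the machine gets from `c` to `d` in finitely many steps. -/
def TM.Reach {α : Type} (M : TM α) (w : List α) : Cfg M → Cfg M → Prop :=
  Relation.ReflTransGen fun c d => M.step w c = some d

/-- The class `L`: a set `X` of words is decidable in deterministic logarithmic space if some
deterministic Turing machine with two-way read-only input tape halts on every input `w`,
accepts exactly the words of `X`, and during its computation on `w` the work head never gets
beyond cell `c * (log₂ |w| + 1)`, for a constant `c`. -/
def InL {α : Type} (X : Set (List α)) : Prop :=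
  ∃ (M : TM α) (c : ℕ), ∀ w : List α,
    (∀ d, M.Reach w M.init d → d.head ≤ c * (Nat.log 2 w.length + 1)) ∧
    ∃ d, M.Reach w M.init d ∧ M.step w d = none ∧ (d.q ∈ M.accept ↔ w ∈ X)

end Pool.Agent.Helper38.LinL
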