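import Pool.Agent.Helper38.LinL.KaneFn

/-!
# Reachability in graphs of bounded width
-/

namespace Pool.Agent.Helper38.LinL

open Classical

set_option linter.unusedSimpArgs false
set_option linter.unusedVariables false
set_option linter.unusedSectionVars false

section sel

/-- number of elements of `M` below `c` -/
noncomputable def cntB (M : ℕ → Prop) (c : ℕ) : ℕ := ∑ c' ∈ Finset.range c, ind (M c')

/-- `1 +` the element number `q` of `M` (below `N`), or `0` -/
noncomputable def sel (M : ℕ → Prop) (N q : ℕ) : ℕ :=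
  ∑ c ∈ Finset.range N, ind (M c ∧ cntB M c = q) * (c + 1)

theorem cntB_lt {M : ℕ → Prop} {c c' : ℕ} (h : M c) (hc : c < c') : cntB M c < cntB M c' := by
  unfold cntB
  have h1 : ∑ x ∈ Finset.range (c + 1), ind (M x) ≤ ∑ x ∈ Finset.range c', ind (M x) :=
    Finset.sum_le_sum_of_subset (Finset.range_mono hc)
  rw [Finset.sum_range_succ, ind_pos h] at h1
  omega

theorem cntB_inj {M : ℕ → Prop} {c c' : ℕ} (h : M c) (h' : M c') (he : cntB M c = cntB M c') :
    c = c' := by
  rcases lt_trichotomy c c' with h1 | h1 | h1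
  · have := cntB_lt h h1; omega
  · exact h1
  · have := cntB_lt h' h1; omega

theorem cntB_eq_card (M : ℕ → Prop) (c : ℕ) :
    cntB M c = ((Finset.range c).filter M).card := by
  unfold cntB ind
  rw [Finset.card_filter]

theorem sel_eq {M : ℕ → Prop} {N q c : ℕ} (h : M c) (hc : c < N) (hq : cntB M c = q) :
    sel M N q = c + 1 := by
  unfold sel
  rw [Finset.sum_eq_single c]
  · rw [ind_pos ⟨h, hq⟩, one_mul]
  · intro c' _ hne
    rw [ind_neg, zero_mul]
    rintro ⟨h1, h2⟩
    exact hne (cntB_inj h1 h (h2.trans hq.symm))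
  · intro h1
    exact absurd (Finset.mem_range.2 hc) h1

theorem sel_spec {M : ℕ → Prop} {N q : ℕ} (h : sel M N q ≠ 0) :
    ∃ c, M c ∧ c < N ∧ sel M N q = c + 1 := by
  unfold sel at h
  obtain ⟨c, hc, hne⟩ := Finset.exists_ne_zero_of_sum_ne_zero h
  have h1 : M c ∧ cntB M c = q := by
    by_contra hn
    rw [ind_neg hn, zero_mul] at hne
    exact hne rfl
  exact ⟨c, h1.1, Finset.mem_range.1 hc, sel_eq h1.1 (Finset.mem_range.1 hc) h1.2⟩

theorem sel_le (M : ℕ → Prop) (N q : ℕ) : sel M N q ≤ N := by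
  by_cases h : sel M N q = 0
  · omega
  · obtain ⟨c, _, h1, h2⟩ := sel_spec h
    omega

theorem mem_sel {M : ℕ → Prop} {N m : ℕ} (hm : ((Finset.range N).filter M).card ≤ m) (c : ℕ) :
    (∃ q : Fin m, sel M N q = c + 1) ↔ (c < N ∧ M c) := by
  constructor
  · rintro ⟨q, hq⟩
    obtain ⟨c', h1, h2, h3⟩ := sel_spec (M := M) (N := N) (q := q) (by omega)
    have : c' = c := by omega
    subst this
    exact ⟨h2, h1⟩
  · rintro ⟨h1, h2⟩
    have h3 : cntB M c < m := by
      have h4 := cntB_lt h2 (Nat.lt_succ_self c)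
      rw [cntB_eq_card M (c + 1)] at h4
      have h5 : ((Finset.range (c + 1)).filter M).card ≤ ((Finset.range N).filter M).card :=
        Finset.card_le_card (Finset.filter_subset_filter _ (Finset.range_mono h1))
      omega
    exact ⟨⟨cntB M c, h3⟩, sel_eq h2 h1 rfl⟩

end sel

variable {α : Type} {X : Type} [Cod X]

section narrow

variable (N : List α → X → ℕ) (E : List α → X × ℕ × ℕ → Prop) (src : List α → X → ℕ)
  (lev : List α → X × ℕ → ℕ) (K k : ℕ)

/-- Reachability from the source. -/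
def Rch (w : List α) (x : X) (c : ℕ) : Prop :=
  Relation.ReflTransGen (fun c c' => E w (x, c, c')) (src w x) c

/-- Closure within the current level. -/
def lvlP (w : List α) (x : X) (s : ℕ) (a : Fin (k * K) → ℕ) : ℕ → ℕ → Prop
  | 0 => fun c => c < N w x ∧ lev w (x, c) = s ∧
      (c = src w x ∨ ∃ q : Fin (k * K), a q ≠ 0 ∧ E w (x, a q - 1, c))
  | r + 1 => fun c => lvlP w x s a r c ∨ (c < N w x ∧ lev w (x, c) = s ∧
      ∃ c' < N w x, lvlP w x s a r c' ∧ E w (x, c', c))

/-- Membership in the new window. -/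
def newM (w : List α) (x : X) (s : ℕ) (a : Fin (k * K) → ℕ) (c : ℕ) : Prop :=
  (∃ q : Fin (k * K), a q = c + 1 ∧ s + 1 ≤ lev w (x, c) + K) ∨
    lvlP N E src lev K k w x s a k c

/-- The arrays. -/
noncomputable def arr (w : List α) (x : X) : ℕ → Fin (k * K) → ℕ
  | 0 => fun _ => 0
  | s + 1 => fun q => sel (newM N E src lev K k w x s (arr w x s)) (N w x) q

structure NarrowHyp : Prop where
  Kpos : 1 ≤ K
  srcN : ∀ w x, src w x < N w x
  EN : ∀ w x c c', E w (x, c, c') → c' < N w x
  Elev : ∀ w x c c', E w (x, c, c') → lev w (x, c) ≤ lev w (x, c') ∧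
    lev w (x, c') < lev w (x, c) + K
  width : ∀ w x s, ((Finset.range (N w x)).filter fun c => Rch E src w x c ∧
    lev w (x, c) = s).card ≤ k

variable {N E src lev K k}

theorem NarrowHyp.rchN (H : NarrowHyp N E src lev K k) {w : List α} {x : X} {c : ℕ}
    (h : Rch E src w x c) : c < N w x := by
  rcases Relation.ReflTransGen.cases_tail h with h1 | ⟨c', _, h2⟩
  · rw [h1]; exact H.srcN w x
  · exact H.EN w x c' c h2

theorem lvlP_spec (H : NarrowHyp N E src lev K k) {w : List α} {x : X} {s : ℕ}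
    {a : Fin (k * K) → ℕ}
    (ha : ∀ c, (∃ q, a q = c + 1) ↔ (Rch E src w x c ∧ lev w (x, c) < s ∧
      s ≤ lev w (x, c) + K)) (c : ℕ) :
    lvlP N E src lev K k w x s a k c ↔ (Rch E src w x c ∧ lev w (x, c) = s) := by
  set P := lvlP N E src lev K k w x s a with hP
  have hsound : ∀ r c, P r c → Rch E src w x c ∧ lev w (x, c) = s := by
    intro r
    induction r with
    | zero =>
      rintro c ⟨_, h2, h3⟩
      refine ⟨?_, h2⟩
      rcases h3 with rfl | ⟨q, hq, hE⟩
      · exact Relation.ReflTransGen.refl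
      · obtain ⟨h4, _⟩ := (ha (a q - 1)).1 ⟨q, by omega⟩
        exact h4.tail hE
    | succ r ih =>
      rintro c (h | ⟨_, h2, c', _, h3, h4⟩)
      · exact ih c h
      · exact ⟨(ih c' h3).1.tail h4, h2⟩
  have hmonoP : ∀ r c, P r c → P (r + 1) c := fun r c h => Or.inl h
  -- stabilisation
  let S : ℕ → Finset ℕ := fun r => (Finset.range (N w x)).filter (P r)
  have hPN : ∀ r c, P r c → c < N w x := fun r c h => H.rchN (hsound r c h).1
  have hS : ∀ r c, c ∈ S r ↔ P r c := fun r c => by
    simp only [S, Finset.mem_filter, Finset.mem_range]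
    exact ⟨fun h => h.2, fun h => ⟨hPN r c h, h⟩⟩
  have hsub : ∀ r, S r ⊆ S (r + 1) := fun r c hc => by
    rw [hS] at hc ⊢
    exact hmonoP r c hc
  have hmono : Monotone fun r => (S r).card :=
    monotone_nat_of_le_succ fun r => Finset.card_le_card (hsub r)
  have hb : ∀ r, (S r).card ≤ k := fun r => by
    refine le_trans (Finset.card_le_card ?_) (H.width w x s)
    intro c hc
    rw [hS] at hc
    exact Finset.mem_filter.2 ⟨Finset.mem_range.2 (hPN r c hc), hsound r c hc⟩
  have hstep : ∀ r, S r = S (r + 1) → S (r + 1) = S (r + 2) := by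
    intro r h
    ext c
    rw [hS, hS]
    have hPeq : ∀ c, P r c ↔ P (r + 1) c := fun c => by rw [← hS, ← hS, h]
    constructor
    · exact fun h => Or.inl h
    · rintro (h1 | ⟨h1, h2, c', h3, h4, h5⟩)
      · exact h1
      · exact Or.inr ⟨h1, h2, c', h3, (hPeq c').2 h4, h5⟩
  have hstab : ∀ r, (S r).card = (S (r + 1)).card → (S (r + 1)).card = (S (r + 2)).card := by
    intro r h
    rw [hstep r (Finset.eq_of_subset_of_card_le (hsub r) h.ge)]
  have hfix : S k = S (k + 1) := by
    have h4 := Nat.stabilises_of_monotone hmono hb hstab (Nat.le_succ k)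
    exact Finset.eq_of_subset_of_card_le (hsub k) (le_of_eq h4)
  have hclosed : ∀ c c', P k c' → E w (x, c', c) → lev w (x, c) = s → P k c := by
    intro c c' h1 h2 h3
    have : c ∈ S (k + 1) := by
      rw [hS]
      exact Or.inr ⟨H.EN w x c' c h2, h3, c', hPN k c' h1, h1, h2⟩
    rw [← hfix, hS] at this
    exact this
  have h0k : ∀ r c, P 0 c → P r c := by
    intro r c h
    induction r with
    | zero => exact h
    | succ r ih => exact Or.inl ih
  refine ⟨hsound k c, ?_⟩
  rintro ⟨hr, hl⟩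
  have hmain : ∀ c, Rch E src w x c → lev w (x, c) = s → P k c := by
    intro c hc
    induction hc with
    | refl =>
      intro hl
      exact h0k k _ ⟨H.srcN w x, hl, Or.inl rfl⟩
    | @tail b c hb hE ih =>
      intro hl
      obtain ⟨h1, h2⟩ := H.Elev w x b c hE
      rcases Nat.lt_or_ge (lev w (x, b)) s with h3 | h3
      · obtain ⟨q, hq⟩ := (ha b).2 ⟨hb, h3, by omega⟩
        refine h0k k _ ⟨H.EN w x b c hE, hl, Or.inr ⟨q, by omega, ?_⟩⟩
        rw [hq]
        exact hE
      · exact hclosed c b (ih (by omega)) hE hl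
  exact hmain c hr hl

theorem arr_spec (H : NarrowHyp N E src lev K k) (w : List α) (x : X) (s : ℕ) : ∀ c,
    (∃ q, arr N E src lev K k w x s q = c + 1) ↔
      (Rch E src w x c ∧ lev w (x, c) < s ∧ s ≤ lev w (x, c) + K) := by
  induction s with
  | zero =>
    intro c
    simp [arr]
  | succ s ih =>
    intro c
    have hM : ∀ c, newM N E src lev K k w x s (arr N E src lev K k w x s) c ↔
        (Rch E src w x c ∧ lev w (x, c) < s + 1 ∧ s + 1 ≤ lev w (x, c) + K) := by
      intro c
      unfold newM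
      rw [lvlP_spec H ih c]
      have h1 : (∃ q, arr N E src lev K k w x s q = c + 1 ∧ s + 1 ≤ lev w (x, c) + K) ↔
          ((∃ q, arr N E src lev K k w x s q = c + 1) ∧ s + 1 ≤ lev w (x, c) + K) := by
        constructor
        · rintro ⟨q, h1, h2⟩; exact ⟨⟨q, h1⟩, h2⟩
        · rintro ⟨⟨q, h1⟩, h2⟩; exact ⟨q, h1, h2⟩
      rw [h1, ih c]
      constructor
      · rintro (⟨⟨h1, h2, h3⟩, h4⟩ | ⟨h1, h2⟩)
        · exact ⟨h1, by omega, h4⟩
        · exact ⟨h1, by omega, by have := H.Kpos; omega⟩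
      · rintro ⟨h1, h2, h3⟩
        rcases Nat.lt_or_ge (lev w (x, c)) s with h4 | h4
        · exact Or.inl ⟨⟨h1, h4, by omega⟩, h3⟩
        · exact Or.inr ⟨h1, by omega⟩
    show (∃ q : Fin (k * K), sel (newM N E src lev K k w x s (arr N E src lev K k w x s))
      (N w x) q = c + 1) ↔ _
    rw [mem_sel, hM]
    · constructor
      · exact fun h => h.2
      · exact fun h => ⟨H.rchN h.1, h⟩
    · -- cardinality
      have hsub : (Finset.range (N w x)).filter
          (newM N E src lev K k w x s (arr N E src lev K k w x s)) ⊆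
          (Finset.range K).biUnion fun d => (Finset.range (N w x)).filter fun c =>
            Rch E src w x c ∧ lev w (x, c) = s - d := by
        intro c hc
        rw [Finset.mem_filter, hM] at hc
        obtain ⟨h0, h1, h2, h3⟩ := hc
        rw [Finset.mem_biUnion]
        refine ⟨s - lev w (x, c), Finset.mem_range.2 (by omega), ?_⟩
        rw [Finset.mem_filter]
        exact ⟨h0, h1, by omega⟩
      calc _ ≤ _ := Finset.card_le_card hsub
        _ ≤ ∑ d ∈ Finset.range K, _ := Finset.card_biUnion_le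
        _ ≤ ∑ _d ∈ Finset.range K, k := Finset.sum_le_sum fun d _ => H.width w x (s - d)
        _ = k * K := by rw [Finset.sum_const, Finset.card_range, smul_eq_mul, mul_comm]

/-- Reachability in graphs of bounded width is decidable in logarithmic space. -/
theorem FP.narrow (H : NarrowHyp N E src lev K k) (hN : Fn N) (hE : FP E) (hsrc : Fn src)
    (hlev : Fn lev) {c : List α → X → ℕ} (hc : Fn c) : FP fun w x => Rch E src w x (c w x) := by
  have harr : Fn fun w (y : X × ℕ) => arr N E src lev K k w y.1 y.2 := by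
    refine Fn.natRec (F := fun w (y : X × ℕ) t => arr N E src lev K k w y.1 t)
      (step := fun w (y : (X × ℕ) × ℕ × (Fin (k * K) → ℕ)) => fun q : Fin (k * K) =>
        sel (newM N E src lev K k w y.1.1 y.2.1 y.2.2) (N w y.1.1) q) Fn.id.snd
      (Fn.pi fun q => Fn.zero) ?_ (fun w y t => rfl)
      ⟨fun w y => (k * K) * N w y.1, (PB.const _).mul (hN.comp Fn.id.fst).pb,
        fun w y t ht => ?_⟩
    · -- the step function
      have hx : Fn fun (w : List α) (y : ((X × ℕ) × ℕ × (Fin (k * K) → ℕ)) × ℕ) => y.1.1.1 :=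
        Fn.id.fst.fst.fst
      have hs : Fn fun (w : List α) (y : ((X × ℕ) × ℕ × (Fin (k * K) → ℕ)) × ℕ) => y.1.2.1 :=
        Fn.id.fst.snd.fst
      have ha : ∀ q, Fn fun (w : List α) (y : ((X × ℕ) × ℕ × (Fin (k * K) → ℕ)) × ℕ) =>
        y.1.2.2 q := fun q => Fn.id.fst.snd.snd.app q
      have hc : Fn fun (w : List α) (y : ((X × ℕ) × ℕ × (Fin (k * K) → ℕ)) × ℕ) => y.2 :=
        Fn.id.snd
      have hbase : FP fun w (y : ((X × ℕ) × ℕ × (Fin (k * K) → ℕ)) × ℕ) =>
          y.2 < N w y.1.1.1 ∧ lev w (y.1.1.1, y.2) = y.1.2.1 :=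
        (FP.lt hc (hN.comp hx)).and (FP.eq (hlev.comp (hx.pair hc)) hs)
      have hlvl : ∀ r, FP fun w (y : ((X × ℕ) × ℕ × (Fin (k * K) → ℕ)) × ℕ) =>
          lvlP N E src lev K k w y.1.1.1 y.1.2.1 y.1.2.2 r y.2 := by
        intro r
        induction r with
        | zero =>
          refine (hbase.and ((FP.eq hc (hsrc.comp hx)).or (FP.exFin fun q =>
            (FP.ne_zero (ha q)).and (hE.comp (hx.pair ((ha q).pred.pair hc)))))).congr
            fun w y => ?_
          simp only [lvlP]
          tauto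
        | succ r ih =>
          refine (ih.or (hbase.and (FP.bex (hN.comp hx)
            (P := fun w (z : (((X × ℕ) × ℕ × (Fin (k * K) → ℕ)) × ℕ) × ℕ) =>
              lvlP N E src lev K k w z.1.1.1.1 z.1.1.2.1 z.1.1.2.2 r z.2 ∧
                E w (z.1.1.1.1, z.2, z.1.2)) ?_))).congr fun w y => ?_
          · refine (ih.comp (g := fun w (z : (((X × ℕ) × ℕ × (Fin (k * K) → ℕ)) × ℕ) × ℕ) =>
              (z.1.1, z.2)) (Fn.id.fst.fst.pair Fn.id.snd)).and (hE.comp ?_)
            exact (hx.comp Fn.id.fst).pair (Fn.id.snd.pair Fn.id.fst.snd)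
          · simp only [lvlP]
            tauto
      have hM : FP fun w (y : ((X × ℕ) × ℕ × (Fin (k * K) → ℕ)) × ℕ) =>
          newM N E src lev K k w y.1.1.1 y.1.2.1 y.1.2.2 y.2 := by
        unfold newM
        exact (FP.exFin fun q => (FP.eq (ha q) hc.succ).and
          (FP.le hs.succ ((hlev.comp (hx.pair hc)).add (Fn.const K)))).or (hlvl k)
      have hcnt : Fn fun w (y : ((X × ℕ) × ℕ × (Fin (k * K) → ℕ)) × ℕ) =>
          cntB (newM N E src lev K k w y.1.1.1 y.1.2.1 y.1.2.2) y.2 := by
        unfold cntB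
        exact Fn.bsum (f := fun w (z : (((X × ℕ) × ℕ × (Fin (k * K) → ℕ)) × ℕ) × ℕ) =>
          ind (newM N E src lev K k w z.1.1.1.1 z.1.1.2.1 z.1.1.2.2 z.2)) hc
          (hM.comp (g := fun w (z : (((X × ℕ) × ℕ × (Fin (k * K) → ℕ)) × ℕ) × ℕ) =>
              (z.1.1, z.2)) (Fn.id.fst.fst.pair Fn.id.snd))
      refine Fn.pi fun q => ?_
      unfold sel
      exact Fn.bsum (f := fun w (z : ((X × ℕ) × ℕ × (Fin (k * K) → ℕ)) × ℕ) =>
        ind (newM N E src lev K k w z.1.1.1 z.1.2.1 z.1.2.2 z.2 ∧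
          cntB (newM N E src lev K k w z.1.1.1 z.1.2.1 z.1.2.2) z.2 = q) * (z.2 + 1))
        (hN.comp Fn.id.fst.fst) (Fn.mul (hM.and (FP.eq hcnt (Fn.const _))) Fn.id.snd.succ)
    · simp only [norm'_pi, norm'_nat]
      calc _ ≤ ∑ _q : Fin (k * K), N w y.1 := Finset.sum_le_sum fun q _ => by
            cases t with
            | zero => simp [arr]
            | succ t => exact sel_le _ _ _
        _ = _ := by simp
  refine (FP.exFin (β := Fin (k * K)) (P := fun q w x =>
    arr N E src lev K k w x (lev w (x, c w x) + 1) q = c w x + 1) fun q => ?_).congr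
    fun w x => ?_
  · exact FP.eq ((harr.comp (Fn.id.pair (hlev.comp (Fn.id.pair hc)).succ)).app q) hc.succ
  · rw [arr_spec H w x _ (c w x)]
    constructor
    · intro h
      exact ⟨h, by omega, by have := H.Kpos; omega⟩
    · exact fun h => h.1

end narrow

end Pool.Agent.Helper38.LinL
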