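import Pool.Agent.Helper38.LinL.Grammar
import Pool.Agent.Helper38.LinL.Narrow

/-!
# Derivations read from two sequences of letters
-/

namespace Pool.Agent.Helper38.LinL

open Classical

set_option linter.unusedSimpArgs false
set_option linter.unusedVariables false
set_option linter.unusedSectionVars false

variable {α : Type}

namespace LinearGrammar

variable (G : LinearGrammar α)

variable {G} in
theorem Derives.trans {A : G.N} {u v : List α} {B : G.N} (h : G.Derives A u B v) {u' v' : List α}
    {C : G.N} (h' : G.Derives B u' C v') : G.Derives A (u ++ u') C (v' ++ v) := by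
  induction h' with
  | refl => simpa using h
  | step _ hr ih =>
    have := Derives.step ih hr
    simpa only [List.append_assoc] using this

variable {G} in
theorem Derives.single {A : G.N} {u v : List α} {B : G.N} (h : (A, u, B, v) ∈ G.rules) :
    G.Derives A u B v := by
  have := Derives.step (Derives.refl (G := G) (A := A)) h
  simpa using this

/-- The mirror image of a grammar. -/
noncomputable def mirror : LinearGrammar α where
  N := G.N
  finN := G.finN
  start := G.start
  rules := G.rules.image fun r => (r.1, r.2.2.2.reverse, r.2.2.1, r.2.1.reverse)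
  term := G.term.image fun r => (r.1, r.2.reverse)

theorem mem_mirror {A B : G.N} {u v : List α} :
    ((A, v, B, u) : G.mirror.N × List α × G.mirror.N × List α) ∈ G.mirror.rules ↔
      (A, u.reverse, B, v.reverse) ∈ G.rules := by
  unfold mirror
  simp only [Finset.mem_image, Prod.mk.injEq, Prod.exists]
  constructor
  · rintro ⟨A', u', B', v', h, rfl, rfl, rfl, rfl⟩
    simpa using h
  · intro h
    exact ⟨A, u.reverse, B, v.reverse, h, rfl, by simp, rfl, by simp⟩

theorem derives_mirror {A B : G.N} {u v : List α} (h : G.Derives A u B v) :
    G.mirror.Derives A v.reverse B u.reverse := by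
  induction h with
  | refl => exact Derives.refl
  | @step u B v u' C v' _ hr ih =>
    rw [List.reverse_append, List.reverse_append]
    exact Derives.step ih (G.mem_mirror.2 (by simpa using hr))

theorem derives_of_mirror {A B : G.mirror.N} {u v : List α} (h : G.mirror.Derives A v B u) :
    G.Derives (A : G.N) u.reverse (B : G.N) v.reverse := by
  induction h with
  | refl => exact Derives.refl
  | @step u B v u' C v' _ hr ih =>
    rw [List.reverse_append, List.reverse_append]
    exact Derives.step ih (G.mem_mirror.1 hr)

theorem derives_mirror_iff {A B : G.N} {u v : List α} :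
    G.mirror.Derives A v B u ↔ G.Derives A u.reverse B v.reverse :=
  ⟨fun h => G.derives_of_mirror h, fun h => by simpa using G.derives_mirror h⟩

/-- The list `u` is read from the sequence `c`. -/
def Mt (c : ℕ → Option α) (u : List α) : Prop := ∀ s < u.length, c s = u[s]?

theorem Mt.append {c : ℕ → Option α} {u u' : List α} :
    Mt c (u ++ u') ↔ Mt c u ∧ Mt (fun s => c (u.length + s)) u' := by
  constructor
  · intro h
    refine ⟨fun s hs => ?_, fun s hs => ?_⟩
    · rw [h s (by simp; omega), List.getElem?_append_left hs]
    · show c (u.length + s) = _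
      rw [h (u.length + s) (by simp; omega), List.getElem?_append_right (by omega)]
      simp
  · rintro ⟨h1, h2⟩ s hs
    rcases Nat.lt_or_ge s u.length with h | h
    · rw [h1 s h, List.getElem?_append_left h]
    · have := h2 (s - u.length) (by simp at hs; omega)
      simp only at this
      rw [Nat.add_sub_cancel' h] at this
      rw [this, List.getElem?_append_right h]

theorem Mt.nil {c : ℕ → Option α} : Mt c [] := fun s hs => absurd hs (by simp)

theorem Mt.inj {c : ℕ → Option α} {u u' : List α} (h : Mt c u) (h' : Mt c u')
    (hl : u.length = u'.length) : u = u' := by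
  apply List.ext_getElem? fun s => ?_
  rcases Nat.lt_or_ge s u.length with hs | hs
  · rw [← h s hs, ← h' s (by omega)]
  · rw [List.getElem?_eq_none hs, List.getElem?_eq_none (by omega)]

/-- `A ⇒* u B v` for words `u, v` of lengths `a, b`, with `u` read from `cL` and the reverse of
`v` read from `cR`. -/
def PairD (A B : G.N) (a b : ℕ) (cL cR : ℕ → Option α) : Prop :=
  ∃ u v, G.Derives A u B v ∧ u.length = a ∧ v.length = b ∧ Mt cL u ∧ Mt cR v.reverse

theorem pairD_mirror {A B : G.N} {a b : ℕ} {cL cR : ℕ → Option α} :
    G.mirror.PairD A B b a cR cL ↔ G.PairD A B a b cL cR := by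
  constructor
  · rintro ⟨v, u, h, h1, h2, h3, h4⟩
    exact ⟨u.reverse, v.reverse, G.derives_of_mirror h, by simpa using h2, by simpa using h1,
      h4, by simpa using h3⟩
  · rintro ⟨u, v, h, h1, h2, h3, h4⟩
    exact ⟨v.reverse, u.reverse, G.derives_mirror h, by simpa using h2, by simpa using h1,
      h4, by simpa using h3⟩

theorem mirror_rightDet {A : G.N} (h : G.LeftDet A) : G.mirror.RightDet A := by
  intro u v v' h1 h2 h3
  have := h v.reverse v'.reverse u.reverse (G.derives_of_mirror h1) (G.derives_of_mirror h2)
    (by simpa using h3)
  simpa using congrArg List.reverse this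

/-- A derivation passes through a rule producing a given letter on the right. -/
theorem split_right {A B : G.N} {u v : List α} (h : G.Derives A u B v) : ∀ t < v.length,
    ∃ (u1 v1 : List α) (r : G.N × List α × G.N × List α) (u2 v2 : List α), r ∈ G.rules ∧
      G.Derives A u1 r.1 v1 ∧ G.Derives r.2.2.1 u2 B v2 ∧ u = u1 ++ r.2.1 ++ u2 ∧
      v = v2 ++ r.2.2.2 ++ v1 ∧ v1.length ≤ t ∧ t < v1.length + r.2.2.2.length := by
  induction h with
  | refl => intro t ht; simp at ht
  | @step u B v u' C v' h hr ih =>
    intro t ht
    rcases Nat.lt_or_ge t v.length with h1 | h1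
    · obtain ⟨u1, v1, r, u2, v2, e1, e2, e3, e4, e5, e6, e7⟩ := ih t h1
      refine ⟨u1, v1, r, u2 ++ u', v' ++ v2, e1, e2, Derives.step e3 hr, ?_, ?_, e6, e7⟩
      · rw [e4]; simp
      · rw [e5]; simp
    · refine ⟨u, v, (B, u', C, v'), [], [], hr, h, Derives.refl, by simp, by simp, h1, ?_⟩
      simp at ht
      simp only
      omega

end LinearGrammar

end Pool.Agent.Helper38.LinL
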