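import Mathlib

/-!
# A prime not dividing a given number
-/

namespace Pool.Agent.Helper38.LinL

open Finset Real Nat

theorem pi_large {t : ℕ} (ht : 3 ≤ t) : (t : ℝ) < (Nat.primeCounting (t ^ 4) : ℝ) := by
  have h1 := Chebyshev.pi_ge (t ^ 4)
  refine lt_of_lt_of_le ?_ h1
  have ht' : (3 : ℝ) ≤ t := by exact_mod_cast ht
  have hlogt : Real.log (t : ℝ) ≤ t := (Real.log_le_sub_one_of_pos (by linarith)).trans (by linarith)
  have hlogt0 : 1 < Real.log (t : ℝ) := by
    have h3 : Real.exp 1 < 3 := by have := Real.exp_one_lt_d9; linarith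
    rw [Real.lt_log_iff_exp_lt (by linarith)]
    linarith
  have hlogX : Real.log ((t ^ 4 : ℕ) : ℝ) = 4 * Real.log t := by
    push_cast
    rw [Real.log_pow]
    norm_num
  have hlogX1 : Real.log (((t ^ 4 : ℕ) : ℝ) + 1) ≤ 4 * t + 1 := by
    have h2 : ((t ^ 4 : ℕ) : ℝ) + 1 ≤ ((t ^ 4 : ℕ) : ℝ) * 2 := by
      have : (1 : ℝ) ≤ ((t ^ 4 : ℕ) : ℝ) := by
        exact_mod_cast Nat.one_le_pow _ _ (by omega)
      linarith
    have hpos : (0 : ℝ) < ((t ^ 4 : ℕ) : ℝ) := by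
      exact_mod_cast Nat.pow_pos (by omega)
    calc Real.log (((t ^ 4 : ℕ) : ℝ) + 1) ≤ Real.log (((t ^ 4 : ℕ) : ℝ) * 2) :=
          Real.log_le_log (by linarith) h2
      _ = 4 * Real.log t + Real.log 2 := by
          rw [Real.log_mul hpos.ne' (by norm_num), hlogX]
      _ ≤ 4 * t + 1 := by
          have := Real.log_two_lt_d9
          linarith
  have hlog2 : (0.69 : ℝ) < Real.log 2 := by have := Real.log_two_gt_d9; linarith
  have hX : (((t ^ 4 : ℕ) : ℝ)) = (t : ℝ) ^ 4 := by push_cast; ring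
  rw [lt_div_iff₀ (by rw [hlogX]; linarith)]
  have h5 : (t : ℝ) * Real.log ((t ^ 4 : ℕ) : ℝ) ≤ 4 * t ^ 2 := by
    rw [hlogX]
    nlinarith
  have h6 : (t : ℝ) ^ 4 * 0.69 ≤ ((t ^ 4 : ℕ) : ℝ) * Real.log 2 := by
    rw [hX]
    have : (0 : ℝ) ≤ (t : ℝ) ^ 4 := by positivity
    nlinarith
  have h7 : 4 * (t : ℝ) ^ 2 < (t : ℝ) ^ 4 * 0.69 - (4 * t + 1) := by
    have h8 : (9 : ℝ) ≤ (t : ℝ) ^ 2 := by nlinarith
    nlinarith [sq_nonneg ((t : ℝ) ^ 2 - 9)]
  linarith

/-- A positive number `c < 2 ^ m` is not divisible by some prime in `(D, (D + m + 3) ^ 4]`. -/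
theorem exists_prime_not_dvd (D m c : ℕ) (hc : 0 < c) (hcm : c < 2 ^ m) :
    ∃ p, p.Prime ∧ D < p ∧ p ≤ (D + m + 3) ^ 4 ∧ ¬ p ∣ c := by
  by_contra hcon
  push Not at hcon
  set X := (D + m + 3) ^ 4 with hX
  set S := (Nat.primesLE X).filter (fun p => D < p) with hS
  have hSp : ∀ p ∈ S, p.Prime := fun p hp => by
    rw [hS, Finset.mem_filter, Nat.mem_primesLE] at hp
    exact hp.1.2
  have hdvd : (∏ p ∈ S, p) ∣ c := by
    apply Finset.prod_primes_dvd
    · intro p hp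
      exact (hSp p hp).prime
    · intro p hp
      rw [hS, Finset.mem_filter, Nat.mem_primesLE] at hp
      exact hcon p hp.1.2 hp.2 hp.1.1
  have h1 : 2 ^ S.card ≤ ∏ p ∈ S, p := by
    rw [← Finset.prod_const]
    exact Finset.prod_le_prod' fun p hp => (hSp p hp).two_le
  have h2 : S.card < m := by
    have h3 : 2 ^ S.card < 2 ^ m := lt_of_le_of_lt (h1.trans (Nat.le_of_dvd hc hdvd)) hcm
    exact (Nat.pow_lt_pow_iff_right (by norm_num)).1 h3
  have h3 : (Nat.primesLE X).card ≤ S.card + D := by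
    have h4 : (Nat.primesLE X) ⊆ S ∪ (Finset.Icc 1 D) := by
      intro p hp
      rw [Finset.mem_union, hS, Finset.mem_filter, Finset.mem_Icc]
      by_cases h : D < p
      · exact Or.inl ⟨hp, h⟩
      · refine Or.inr ⟨?_, by omega⟩
        rw [Nat.mem_primesLE] at hp
        exact hp.2.one_lt.le
    calc (Nat.primesLE X).card ≤ (S ∪ (Finset.Icc 1 D)).card := Finset.card_le_card h4
      _ ≤ S.card + (Finset.Icc 1 D).card := Finset.card_union_le _ _
      _ = S.card + D := by simp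
  rw [Nat.primesLE_card_eq_primeCounting] at h3
  have h5 := pi_large (t := D + m + 3) (by omega)
  have h6 : D + m + 3 < Nat.primeCounting X := by exact_mod_cast h5
  omega

end Pool.Agent.Helper38.LinL
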