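import Pool.Agent.Helper38.LinL.Count

/-!
# Runs of a weighted automaton and schedule paths
-/

namespace Pool.Agent.Helper38.LinL

open Finset

variable {α : Type} (A : WA α)

/-- Runs: `A.Run c q0 q t l` if there is a run from `q0` to `q` reading the letters
`c 0, ..., c (t-1)`, of total weight `l`. -/
inductive WA.Run {α : Type} (A : WA α) (c : ℕ → Option α) (q0 : A.Q) : A.Q → ℕ → ℕ → Prop
  | start : WA.Run A c q0 q0 0 0
  | eps {q t l k q'} : WA.Run A c q0 q t l → (q, k, q') ∈ A.eps → WA.Run A c q0 q' t (l + k)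
  | read {q t l a q'} : WA.Run A c q0 q t l → c t = some a → A.tr a q q' →
      WA.Run A c q0 q' (t + 1) l

theorem WA.SP_run (c : ℕ → Option α) (T : ℕ) (q0 : A.Q) (τ : ℕ) : ∀ (q : A.Q) (l : ℕ),
    A.SP c T q0 τ q l → A.Run c q0 q (τ / (T + 1)) l := by
  induction τ with
  | zero =>
    rintro q l ⟨rfl, rfl⟩
    simpa using WA.Run.start
  | succ τ ih =>
    intro q' l h
    simp only [WA.SP] at h
    by_cases hτ : τ % (T + 1) = T
    · rw [if_pos hτ] at h
      obtain ⟨q, ⟨a, ha, htr⟩, hq⟩ := h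
      have h1 : (τ + 1) / (T + 1) = τ / (T + 1) + 1 := by
        have h2 := Nat.div_add_mod τ (T + 1)
        rw [Nat.succ_div, if_pos]
        refine ⟨τ / (T + 1) + 1, ?_⟩
        rw [hτ] at h2
        linarith
      rw [h1]
      exact WA.Run.read (ih q l hq) ha htr
    · rw [if_neg hτ] at h
      have h1 : (τ + 1) / (T + 1) = τ / (T + 1) := by
        rw [Nat.succ_div, if_neg]
        · rfl
        · rintro ⟨k, hk⟩
          apply hτ
          rcases k with _ | k
          · omega
          · have h2 : τ = T + (T + 1) * k := by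
              have : (T + 1) * (k + 1) = (T + 1) * k + T + 1 := by ring
              omega
            rw [h2, Nat.add_mul_mod_self_left, Nat.mod_eq_of_lt (by omega)]
      rw [h1]
      rcases h with h | ⟨e, he, h2, h3, h4⟩
      · exact ih _ _ h
      · have := WA.Run.eps (ih _ _ h4) (q' := e.2.2) (k := e.2.1) he
        rw [h2, Nat.sub_add_cancel h3] at this
        exact this

theorem WA.SP_idle (c : ℕ → Option α) (T : ℕ) (q0 : A.Q) (t : ℕ) (q : A.Q) (l : ℕ) :
    ∀ s, s ≤ T → A.SP c T q0 (t * (T + 1)) q l → A.SP c T q0 (t * (T + 1) + s) q l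
  | 0, _, h => h
  | s + 1, hs, h => by
      have ih := WA.SP_idle c T q0 t q l s (by omega) h
      rw [← add_assoc]
      simp only [WA.SP]
      rw [if_neg]
      · exact Or.inl ih
      · rw [add_comm, Nat.add_mul_mod_self_right, Nat.mod_eq_of_lt (by omega)]
        omega

section closure

open Classical

/-- One step of the closure under moves without reading, with weights `≤ n`. -/
noncomputable def WA.cl (n : ℕ) (S : Finset (A.Q × Fin (n + 1))) :
    Finset (A.Q × Fin (n + 1)) :=
  S ∪ Finset.univ.filter fun v => ∃ u ∈ S, ∃ k, (u.1, k, v.1) ∈ A.eps ∧ u.2.val + k = v.2.val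

theorem WA.cl_fix (n : ℕ) (S : Finset (A.Q × Fin (n + 1))) {T : ℕ}
    (hT : Fintype.card A.Q * (n + 1) ≤ T) :
    A.cl n ((A.cl n)^[T] S) = (A.cl n)^[T] S := by
  have hsub : ∀ m, (A.cl n)^[m] S ⊆ (A.cl n)^[m + 1] S := by
    intro m
    rw [Function.iterate_succ_apply']
    exact Finset.subset_union_left
  have hmono : Monotone fun m => ((A.cl n)^[m] S).card :=
    monotone_nat_of_le_succ fun m => Finset.card_le_card (hsub m)
  have hb : ∀ m, ((A.cl n)^[m] S).card ≤ Fintype.card A.Q * (n + 1) := by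
    intro m
    calc _ ≤ (Finset.univ : Finset (A.Q × Fin (n + 1))).card :=
          Finset.card_le_card (Finset.subset_univ _)
      _ = _ := by rw [Finset.card_univ, Fintype.card_prod, Fintype.card_fin]
  have hstab : ∀ m, ((A.cl n)^[m] S).card = ((A.cl n)^[m + 1] S).card →
      ((A.cl n)^[m + 1] S).card = ((A.cl n)^[m + 2] S).card := by
    intro m h
    have h1 : (A.cl n)^[m] S = (A.cl n)^[m + 1] S :=
      Finset.eq_of_subset_of_card_le (hsub m) h.ge
    have h2 : (A.cl n)^[m + 2] S = (A.cl n)^[m + 1] S := by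
      rw [Function.iterate_succ_apply' (A.cl n) (m + 1), ← h1,
        ← Function.iterate_succ_apply' (A.cl n) m, ← h1]
    rw [h2]
  have h3 := Nat.stabilises_of_monotone hmono hb hstab hT
  have h4 := Nat.stabilises_of_monotone hmono hb hstab (Nat.le_succ_of_le hT)
  have h5 : (A.cl n)^[T] S = (A.cl n)^[T + 1] S :=
    Finset.eq_of_subset_of_card_le (hsub T) (by
      refine le_of_eq ?_
      exact h4.trans h3.symm)
  rw [← Function.iterate_succ_apply' (A.cl n) T, ← h5]

theorem WA.SP_cl (c : ℕ → Option α) (T : ℕ) (q0 : A.Q) (n t : ℕ) : ∀ s, s ≤ T →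
    ∀ v : A.Q × Fin (n + 1),
      v ∈ (A.cl n)^[s] (Finset.univ.filter fun v => A.SP c T q0 (t * (T + 1)) v.1 v.2.val) ↔
        A.SP c T q0 (t * (T + 1) + s) v.1 v.2.val
  | 0, _, v => by simp
  | s + 1, hs, v => by
      have ih := WA.SP_cl c T q0 n t s (by omega)
      have hne : ¬ ((t * (T + 1) + s) % (T + 1) = T) := by
        rw [add_comm, Nat.add_mul_mod_self_right, Nat.mod_eq_of_lt (by omega)]
        omega
      rw [Function.iterate_succ_apply', ← add_assoc]
      simp only [WA.SP]
      rw [if_neg hne, WA.cl, Finset.mem_union, ih, Finset.mem_filter]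
      refine or_congr Iff.rfl ?_
      constructor
      · rintro ⟨_, u, hu, k, hk, huk⟩
        refine ⟨(u.1, k, v.1), hk, rfl, by simp only; omega, ?_⟩
        have := (ih u).1 hu
        have h2 : v.2.val - k = u.2.val := by omega
        show A.SP c T q0 _ u.1 (v.2.val - k)
        rw [h2]
        exact this
      · rintro ⟨e, he, h1, h2, h3⟩
        have hlt : v.2.val - e.2.1 < n + 1 := by have := v.2.isLt; omega
        refine ⟨Finset.mem_univ _, (e.1, ⟨v.2.val - e.2.1, hlt⟩), (ih _).2 h3, e.2.1, ?_, ?_⟩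
        · rw [← h1]; exact he
        · show v.2.val - e.2.1 + e.2.1 = v.2.val
          omega

end closure

theorem WA.run_SP (c : ℕ → Option α) (T : ℕ) (q0 : A.Q) (n : ℕ)
    (hT : Fintype.card A.Q * (n + 1) ≤ T) {q : A.Q} {t l : ℕ} (h : A.Run c q0 q t l) :
    l ≤ n → A.SP c T q0 (t * (T + 1) + T) q l := by
  classical
  induction h with
  | start =>
    intro _
    apply A.SP_idle c T q0 0 q0 0 T le_rfl
    rw [zero_mul]
    exact ⟨rfl, rfl⟩
  | @eps q t l k q' _ hk ih =>
    intro hl
    have h1 := ih (by omega)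
    have h2 := (A.SP_cl c T q0 n t T le_rfl (q, ⟨l, by omega⟩)).2 h1
    have h3 := (A.SP_cl c T q0 n t T le_rfl (q', ⟨l + k, by omega⟩)).1 (by
      rw [← A.cl_fix n _ hT, WA.cl, Finset.mem_union, Finset.mem_filter]
      exact Or.inr ⟨Finset.mem_univ _, _, h2, k, hk, rfl⟩)
    exact h3
  | @read q t l a q' _ ha htr ih =>
    intro hl
    have h1 := ih hl
    apply A.SP_idle c T q0 (t + 1) q' l T le_rfl
    have h2 : (t + 1) * (T + 1) = t * (T + 1) + T + 1 := by ring
    rw [h2]
    simp only [WA.SP]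
    have h3 : (t * (T + 1) + T) % (T + 1) = T := by
      rw [add_comm, Nat.add_mul_mod_self_right, Nat.mod_eq_of_lt (by omega)]
    have h4 : (t * (T + 1) + T) / (T + 1) = t := by
      rw [Nat.div_eq_of_lt_le] <;> nlinarith
    rw [if_pos h3, h4]
    exact ⟨q, ⟨a, ha, htr⟩, h1⟩

theorem WA.run_iff (c : ℕ → Option α) (q0 q : A.Q) (t l : ℕ) :
    A.Run c q0 q t l ↔ A.SP c (Fintype.card A.Q * (l + 1)) q0
      (t * (Fintype.card A.Q * (l + 1) + 1) + Fintype.card A.Q * (l + 1)) q l := by
  constructor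
  · intro h
    exact A.run_SP c _ q0 l le_rfl h le_rfl
  · intro h
    have := A.SP_run c _ q0 _ q l h
    rw [Nat.div_eq_of_lt_le (k := t)] at this
    · exact this
    · nlinarith
    · nlinarith

end Pool.Agent.Helper38.LinL
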