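import Pool.Agent.Helper38.LinL.Flow

/-!
# Simulation of register programs by Turing machines: correctness
-/

namespace Pool.Agent.Helper38.LinL

open Classical

def val : List Bool → ℕ
  | [] => 0
  | b :: bs => b.toNat + 2 * val bs

def incL : List Bool → List Bool
  | [] => [true]
  | false :: bs => true :: bs
  | true :: bs => false :: incL bs

def decL : List Bool → List Bool
  | [] => []
  | true :: bs => false :: bs
  | false :: bs => true :: decL bs

theorem val_incL : ∀ L : List Bool, val (incL L) = val L + 1
  | [] => rfl
  | false :: bs => by simp [incL, val]; omega
  | true :: bs => by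
      have := val_incL bs
      simp only [incL, val, this, Bool.toNat_false, Bool.toNat_true]
      omega

theorem val_decL : ∀ L : List Bool, val L ≠ 0 → val (decL L) + 1 = val L
  | [], h => absurd rfl h
  | true :: bs, _ => by simp [decL, val]; omega
  | false :: bs, h => by
      have h' : val bs ≠ 0 := by
        intro h0
        apply h
        simp [val, h0]
      have := val_decL bs h'
      simp only [decL, val, Bool.toNat_false, Bool.toNat_true]
      omega

theorem length_decL : ∀ L : List Bool, (decL L).length = L.length
  | [] => rfl
  | true :: bs => rfl
  | false :: bs => by simp [decL, length_decL bs]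

theorem length_incL : ∀ L : List Bool, (incL L).length = L.length ∨
    ((incL L).length = L.length + 1 ∧ val L + 1 = 2 ^ L.length)
  | [] => Or.inr ⟨rfl, rfl⟩
  | false :: bs => Or.inl rfl
  | true :: bs => by
      rcases length_incL bs with h | ⟨h, h'⟩
      · exact Or.inl (by simp [incL, h])
      · refine Or.inr ⟨by simp [incL, h], ?_⟩
        simp only [val, List.length_cons, pow_succ, ← h', Bool.toNat_true]
        ring

theorem length_incL_le {L : List Bool} {D : ℕ} (h : L.length ≤ D) (hv : val L + 1 < 2 ^ D) :
    (incL L).length ≤ D := by
  rcases length_incL L with h1 | ⟨h1, h2⟩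
  · omega
  · have : 2 ^ L.length < 2 ^ D := by omega
    have := (Nat.pow_lt_pow_iff_right (by norm_num : 1 < 2)).1 this
    omega

section machine

variable {α : Type} {P : List (Instr α)} {K : ℕ} {w : List α} {D : ℕ}

@[simp] theorem trk_setc_self {g : Gam K} {r : ℕ} (hr : r < K) (v : Option Bool) :
    trk (setc g r v) r = v := by
  simp [trk, setc, hr]

@[simp] theorem trk_setc_ne {g : Gam K} {r r' : ℕ} (h : r' ≠ r) (v : Option Bool) :
    trk (setc g r v) r' = trk g r' := by
  unfold trk setc
  split_ifs with h1 h2
  · simp [Function.update, Fin.ext_iff, h]
  · rfl
  · rfl

@[simp] theorem setc_fst {g : Gam K} {r : ℕ} (v : Option Bool) :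
    (setc g r v).1 = g.1 := by
  unfold setc
  split_ifs <;> rfl

theorem lab_of_le {M n : ℕ} (h : n ≤ M) : (lab M n).val = n := by
  simp [lab, h]

/-- Configuration of the simulating machine. -/
def cf (P : List (Instr α)) (K : ℕ) (q : StQ P.length) (i : ℕ) (T : ℕ → Gam K) (h : ℕ) :
    Cfg (tm P K) := ⟨q, i, T, h⟩

theorem tm_δ_scan (l : Fin (P.length + 1)) (s : Sym α) (g : Gam K) :
    (tm P K).δ (Sum.inl (some (l, false))) s g = δscan P K l s g := rfl

theorem tm_δ_back (l : Fin (P.length + 1)) (s : Sym α) (g : Gam K) :
    (tm P K).δ (Sum.inl (some (l, true))) s g =
      if g.1 then some (Sum.inl (some (l, false)), g, Dir.stay, Dir.stay)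
        else some (Sum.inl (some (l, true)), g, Dir.stay, Dir.left) := rfl

theorem step_of {q : StQ P.length} {i : ℕ} {T : ℕ → Gam K} {h : ℕ} {q' : StQ P.length}
    {g : Gam K} {d1 d2 : Dir}
    (hs : (tm P K).δ q (readSym w i) (T h) = some (q', g, d1, d2)) :
    (tm P K).step w (cf P K q i T h) =
      some (cf P K q' (moveInp w.length i d1) (Function.update T h g) (moveHead h d2)) := by
  unfold TM.step cf
  simp only
  erw [hs]
  rfl

/-- the way back to the origin -/
theorem back {l : Fin (P.length + 1)} {i : ℕ} {T : ℕ → Gam K}
    (hT : ∀ m, (T m).1 = decide (m = 0)) : ∀ h : ℕ, h ≤ D →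
    BReach (tm P K) w D (cf P K (Sum.inl (some (l, true))) i T h)
      (cf P K (Sum.inl (some (l, false))) i T 0)
  | 0, _ => by
      apply Relation.ReflTransGen.single
      refine ⟨?_, Nat.zero_le _⟩
      have := step_of (P := P) (K := K) (w := w) (q := Sum.inl (some (l, true))) (i := i) (T := T)
        (h := 0) (q' := Sum.inl (some (l, false))) (g := T 0) (d1 := Dir.stay) (d2 := Dir.stay)
        (by rw [tm_δ_back, hT 0]; simp)
      rw [this]
      simp [moveInp, moveHead, Function.update_eq_self]
  | h + 1, hD => by
      refine Relation.ReflTransGen.head ?_ (back hT h (by omega))
      refine ⟨?_, by simp only [cf]; omega⟩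
      have := step_of (P := P) (K := K) (w := w) (q := Sum.inl (some (l, true))) (i := i) (T := T)
        (h := h + 1) (q' := Sum.inl (some (l, true))) (g := T (h + 1)) (d1 := Dir.stay)
        (d2 := Dir.left)
        (by rw [tm_δ_back, hT (h + 1)]; simp)
      rw [this]
      simp [moveInp, moveHead, Function.update_eq_self]

/-- scanning phase of an increment -/
theorem scan_inc {l : Fin (P.length + 1)} {i r : ℕ} (hr : r < K)
    (hl : P[l.val]? = some (Instr.inc r)) : ∀ (L : List Bool) (T : ℕ → Gam K) (h : ℕ),
    h + L.length ≤ D → (∀ j, trk (T (h + j)) r = L[j]?) →
    ∃ (T' : ℕ → Gam K) (h' : ℕ), h' ≤ D ∧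
      BReach (tm P K) w D (cf P K (Sum.inl (some (l, false))) i T h)
        (cf P K (Sum.inl (some (lab P.length (l + 1), true))) i T' h') ∧
      (∀ m, (T' m).1 = (T m).1) ∧ (∀ m r', r' ≠ r → trk (T' m) r' = trk (T m) r') ∧
      (∀ m, m < h → trk (T' m) r = trk (T m) r) ∧ (∀ j, trk (T' (h + j)) r = (incL L)[j]?)
  | L, T, h, hD, hL => by
      have hfin : ∀ (L' : List Bool), (L = [] ∨ L = false :: L') →
          (∀ j, (incL L)[j + 1]? = L[j + 1]?) → (incL L)[0]? = some true →
          ∃ (T' : ℕ → Gam K) (h' : ℕ), h' ≤ D ∧
          BReach (tm P K) w D (cf P K (Sum.inl (some (l, false))) i T h)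
            (cf P K (Sum.inl (some (lab P.length (l + 1), true))) i T' h') ∧
          (∀ m, (T' m).1 = (T m).1) ∧ (∀ m r', r' ≠ r → trk (T' m) r' = trk (T m) r') ∧
          (∀ m, m < h → trk (T' m) r = trk (T m) r) ∧
          (∀ j, trk (T' (h + j)) r = (incL L)[j]?) := by
        intro L' hLL h1 h2
        refine ⟨Function.update T h (setc (T h) r (some true)), h, by omega, ?_, ?_, ?_, ?_, ?_⟩
        · apply Relation.ReflTransGen.single
          refine ⟨?_, by simp only [cf]; omega⟩
          have h0 : trk (T h) r = L[0]? := hL 0
          have := step_of (P := P) (K := K) (w := w) (q := Sum.inl (some (l, false))) (i := i)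
            (T := T) (h := h) (q' := Sum.inl (some (lab P.length (l + 1), true)))
            (g := setc (T h) r (some true)) (d1 := Dir.stay) (d2 := Dir.stay)
            (by
              rw [tm_δ_scan]
              unfold δscan
              rw [hl]
              rcases hLL with rfl | rfl
              · simp only [h0, List.getElem?_nil]
              · simp only [h0, List.getElem?_cons_zero])
          rw [this]
          rfl
        · intro m
          by_cases hm : m = h
          · subst hm; simp
          · simp [hm]
        · intro m r' hr'
          by_cases hm : m = h
          · subst hm; simp [hr']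
          · simp [hm]
        · intro m hm
          have : m ≠ h := by omega
          simp [this]
        · intro j
          rcases j with _ | j
          · simp [hr, h2]
          · have : h + (j + 1) ≠ h := by omega
            rw [Function.update_of_ne this, hL, h1]
      match L, hL, hD, hfin with
      | [], hL, hD, hfin => exact hfin [] (Or.inl rfl) (by simp [incL]) (by simp [incL])
      | false :: bs, hL, hD, hfin => exact hfin bs (Or.inr rfl) (by simp [incL]) (by simp [incL])
      | true :: bs, hL, hD, _ =>
        have h0 : trk (T h) r = some true := by simpa using hL 0
        obtain ⟨T', h', hh', hreach, e1, e2, e3, e4⟩ := scan_inc hr hl bs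
          (Function.update T h (setc (T h) r (some false))) (h + 1)
          (by simp only [List.length_cons] at hD; omega)
          (by
            intro j
            have : h + 1 + j ≠ h := by omega
            rw [Function.update_of_ne this]
            have := hL (j + 1)
            rw [show h + 1 + j = h + (j + 1) by ring, this]
            simp)
        refine ⟨T', h', hh', Relation.ReflTransGen.head ?_ hreach, ?_, ?_, ?_, ?_⟩
        · refine ⟨?_, by simp only [cf]; simp only [List.length_cons] at hD; omega⟩
          have := step_of (P := P) (K := K) (w := w) (q := Sum.inl (some (l, false))) (i := i)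
            (T := T) (h := h) (q' := Sum.inl (some (l, false)))
            (g := setc (T h) r (some false)) (d1 := Dir.stay) (d2 := Dir.right)
            (by
              rw [tm_δ_scan]
              unfold δscan
              rw [hl]
              simp only [h0])
          rw [this]
          rfl
        · intro m
          rw [e1]
          by_cases hm : m = h
          · subst hm; simp
          · simp [hm]
        · intro m r' hr'
          rw [e2 m r' hr']
          by_cases hm : m = h
          · subst hm; simp [hr']
          · simp [hm]
        · intro m hm
          rw [e3 m (by omega)]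
          have : m ≠ h := by omega
          simp [this]
        · intro j
          rcases j with _ | j
          · rw [add_zero, e3 h (by omega)]
            simp [hr, incL]
          · rw [show h + (j + 1) = h + 1 + j by ring, e4]
            simp [incL]

/-- scanning phase of a decrement -/
theorem scan_dec {l : Fin (P.length + 1)} {i r : ℕ} (hr : r < K)
    (hl : P[l.val]? = some (Instr.dec r)) : ∀ (L : List Bool) (T : ℕ → Gam K) (h : ℕ),
    val L ≠ 0 → h + L.length ≤ D → (∀ j, trk (T (h + j)) r = L[j]?) →
    ∃ (T' : ℕ → Gam K) (h' : ℕ), h' ≤ D ∧
      BReach (tm P K) w D (cf P K (Sum.inl (some (l, false))) i T h)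
        (cf P K (Sum.inl (some (lab P.length (l + 1), true))) i T' h') ∧
      (∀ m, (T' m).1 = (T m).1) ∧ (∀ m r', r' ≠ r → trk (T' m) r' = trk (T m) r') ∧
      (∀ m, m < h → trk (T' m) r = trk (T m) r) ∧ (∀ j, trk (T' (h + j)) r = (decL L)[j]?)
  | [], T, h, hv, _, _ => absurd rfl hv
  | true :: bs, T, h, _, hD, hL => by
        have h0 : trk (T h) r = some true := by simpa using hL 0
        refine ⟨Function.update T h (setc (T h) r (some false)), h, by omega, ?_, ?_, ?_, ?_, ?_⟩
        · apply Relation.ReflTransGen.single
          refine ⟨?_, by simp only [cf]; omega⟩
          have := step_of (P := P) (K := K) (w := w) (q := Sum.inl (some (l, false))) (i := i)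
            (T := T) (h := h) (q' := Sum.inl (some (lab P.length (l + 1), true)))
            (g := setc (T h) r (some false)) (d1 := Dir.stay) (d2 := Dir.stay)
            (by
              rw [tm_δ_scan]
              unfold δscan
              rw [hl]
              simp only [h0])
          rw [this]
          rfl
        · intro m
          by_cases hm : m = h
          · subst hm; simp
          · simp [hm]
        · intro m r' hr'
          by_cases hm : m = h
          · subst hm; simp [hr']
          · simp [hm]
        · intro m hm
          have : m ≠ h := by omega
          simp [this]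
        · intro j
          rcases j with _ | j
          · simp [hr, decL]
          · have : h + (j + 1) ≠ h := by omega
            rw [Function.update_of_ne this, hL]
            simp [decL]
  | false :: bs, T, h, hv, hD, hL => by
        have h0 : trk (T h) r = some false := by simpa using hL 0
        obtain ⟨T', h', hh', hreach, e1, e2, e3, e4⟩ := scan_dec hr hl bs
          (Function.update T h (setc (T h) r (some true))) (h + 1)
          (by
            intro h0
            apply hv
            simp [val, h0])
          (by simp only [List.length_cons] at hD; omega)
          (by
            intro j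
            have : h + 1 + j ≠ h := by omega
            rw [Function.update_of_ne this]
            have := hL (j + 1)
            rw [show h + 1 + j = h + (j + 1) by ring, this]
            simp)
        refine ⟨T', h', hh', Relation.ReflTransGen.head ?_ hreach, ?_, ?_, ?_, ?_⟩
        · refine ⟨?_, by simp only [cf]; simp only [List.length_cons] at hD; omega⟩
          have := step_of (P := P) (K := K) (w := w) (q := Sum.inl (some (l, false))) (i := i)
            (T := T) (h := h) (q' := Sum.inl (some (l, false)))
            (g := setc (T h) r (some true)) (d1 := Dir.stay) (d2 := Dir.right)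
            (by
              rw [tm_δ_scan]
              unfold δscan
              rw [hl]
              simp only [h0])
          rw [this]
          rfl
        · intro m
          rw [e1]
          by_cases hm : m = h
          · subst hm; simp
          · simp [hm]
        · intro m r' hr'
          rw [e2 m r' hr']
          by_cases hm : m = h
          · subst hm; simp [hr']
          · simp [hm]
        · intro m hm
          rw [e3 m (by omega)]
          have : m ≠ h := by omega
          simp [this]
        · intro j
          rcases j with _ | j
          · rw [add_zero, e3 h (by omega)]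
            simp [hr, decL]
          · rw [show h + (j + 1) = h + 1 + j by ring, e4]
            simp [decL]

/-- scanning phase of a zero test -/
theorem scan_jz {l : Fin (P.length + 1)} {i r l' : ℕ} {T : ℕ → Gam K}
    (hl : P[l.val]? = some (Instr.jz r l')) : ∀ (L : List Bool) (h : ℕ),
    h + L.length ≤ D → (∀ j, trk (T (h + j)) r = L[j]?) →
    ∃ (h' : ℕ), h' ≤ D ∧
      BReach (tm P K) w D (cf P K (Sum.inl (some (l, false))) i T h)
        (cf P K (Sum.inl (some (if val L = 0 then lab P.length l' else
          lab P.length (l + 1), true))) i T h')
  | [], h, hD, hL => by
      have h0 : trk (T h) r = none := by simpa using hL 0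
      refine ⟨h, by omega, ?_⟩
      apply Relation.ReflTransGen.single
      refine ⟨?_, by simp only [cf]; omega⟩
      have := step_of (P := P) (K := K) (w := w) (q := Sum.inl (some (l, false))) (i := i)
            (T := T) (h := h) (q' := Sum.inl (some (lab P.length l', true)))
            (g := T h) (d1 := Dir.stay) (d2 := Dir.stay)
            (by
              rw [tm_δ_scan]
              unfold δscan
              rw [hl]
              simp only [h0])
      rw [this]
      simp [moveInp, moveHead, Function.update_eq_self, val]
  | true :: bs, h, hD, hL => by
      have h0 : trk (T h) r = some true := by simpa using hL 0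
      refine ⟨h, by omega, ?_⟩
      apply Relation.ReflTransGen.single
      refine ⟨?_, by simp only [cf]; omega⟩
      have := step_of (P := P) (K := K) (w := w) (q := Sum.inl (some (l, false))) (i := i)
            (T := T) (h := h) (q' := Sum.inl (some (lab P.length (l + 1), true)))
            (g := T h) (d1 := Dir.stay) (d2 := Dir.stay)
            (by
              rw [tm_δ_scan]
              unfold δscan
              rw [hl]
              simp only [h0])
      rw [this]
      simp [moveInp, moveHead, Function.update_eq_self, val]
  | false :: bs, h, hD, hL => by
      have h0 : trk (T h) r = some false := by simpa using hL 0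
      simp only [List.length_cons] at hD
      obtain ⟨h', hh', hreach⟩ := scan_jz (i := i) (T := T) hl bs (h + 1) (by omega)
        (by
          intro j
          have := hL (j + 1)
          rw [show h + 1 + j = h + (j + 1) by ring, this]
          simp)
      refine ⟨h', hh', Relation.ReflTransGen.head
        (b := cf P K (Sum.inl (some (l, false))) i T (h + 1)) ?_ ?_⟩
      · refine ⟨?_, by simp only [cf]; omega⟩
        have := step_of (P := P) (K := K) (w := w) (q := Sum.inl (some (l, false))) (i := i)
            (T := T) (h := h) (q' := Sum.inl (some (l, false)))
            (g := T h) (d1 := Dir.stay) (d2 := Dir.right)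
            (by
              rw [tm_δ_scan]
              unfold δscan
              rw [hl]
              simp only [h0])
        rw [this]
        simp [moveInp, moveHead, Function.update_eq_self]
      · have : val (false :: bs) = 0 ↔ val bs = 0 := by simp [val]
        simp only [this]
        exact hreach

/-- final phase: testing register `0` -/
theorem scan_end {l : Fin (P.length + 1)} {i : ℕ} {T : ℕ → Gam K}
    (hl : P[l.val]? = none) : ∀ (L : List Bool) (h : ℕ),
    h + L.length ≤ D → (∀ j, trk (T (h + j)) 0 = L[j]?) →
    ∃ (h' : ℕ), h' ≤ D ∧
      BReach (tm P K) w D (cf P K (Sum.inl (some (l, false))) i T h)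
        (cf P K (Sum.inr (decide (val L ≠ 0))) i T h')
  | [], h, hD, hL => by
      have h0 : trk (T h) 0 = none := by simpa using hL 0
      refine ⟨h, by omega, ?_⟩
      apply Relation.ReflTransGen.single
      refine ⟨?_, by simp only [cf]; omega⟩
      have := step_of (P := P) (K := K) (w := w) (q := Sum.inl (some (l, false))) (i := i)
            (T := T) (h := h) (q' := Sum.inr false)
            (g := T h) (d1 := Dir.stay) (d2 := Dir.stay)
            (by
              rw [tm_δ_scan]
              unfold δscan
              rw [hl]
              simp only [h0])
      rw [this]
      simp [moveInp, moveHead, Function.update_eq_self, val]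
  | true :: bs, h, hD, hL => by
      have h0 : trk (T h) 0 = some true := by simpa using hL 0
      refine ⟨h, by omega, ?_⟩
      apply Relation.ReflTransGen.single
      refine ⟨?_, by simp only [cf]; omega⟩
      have := step_of (P := P) (K := K) (w := w) (q := Sum.inl (some (l, false))) (i := i)
            (T := T) (h := h) (q' := Sum.inr true)
            (g := T h) (d1 := Dir.stay) (d2 := Dir.stay)
            (by
              rw [tm_δ_scan]
              unfold δscan
              rw [hl]
              simp only [h0])
      rw [this]
      simp [moveInp, moveHead, Function.update_eq_self, val]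
  | false :: bs, h, hD, hL => by
      have h0 : trk (T h) 0 = some false := by simpa using hL 0
      simp only [List.length_cons] at hD
      obtain ⟨h', hh', hreach⟩ := scan_end (i := i) (T := T) hl bs (h + 1) (by omega)
        (by
          intro j
          have := hL (j + 1)
          rw [show h + 1 + j = h + (j + 1) by ring, this]
          simp)
      refine ⟨h', hh', Relation.ReflTransGen.head
        (b := cf P K (Sum.inl (some (l, false))) i T (h + 1)) ?_ ?_⟩
      · refine ⟨?_, by simp only [cf]; omega⟩
        have := step_of (P := P) (K := K) (w := w) (q := Sum.inl (some (l, false))) (i := i)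
            (T := T) (h := h) (q' := Sum.inl (some (l, false)))
            (g := T h) (d1 := Dir.stay) (d2 := Dir.right)
            (by
              rw [tm_δ_scan]
              unfold δscan
              rw [hl]
              simp only [h0])
        rw [this]
        simp [moveInp, moveHead, Function.update_eq_self]
      · have : val (false :: bs) = val bs * 2 := by simp [val]; ring
        have h2 : decide (val (false :: bs) ≠ 0) = decide (val bs ≠ 0) := by
          rw [this]
          simp
        rw [h2]
        exact hreach

end machine

end Pool.Agent.Helper38.LinL
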