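import Pool.Agent.Helper38.LinL.Sim

/-!
# Simulation of register programs by Turing machines: main statement
-/

namespace Pool.Agent.Helper38.LinL

open Classical

variable {α : Type} {P : List (Instr α)} {K : ℕ} {w : List α} {D B : ℕ}

/-- The work tape `T` represents the registers `σ`. -/
def Rep (K D : ℕ) (T : ℕ → Gam K) (σ : ℕ → ℕ) : Prop :=
  (∀ m, (T m).1 = decide (m = 0)) ∧
    ∀ r < K, ∃ L : List Bool, val L = σ r ∧ L.length ≤ D ∧ ∀ i, trk (T i) r = L[i]?

theorem tm_instr {l : ℕ} {ins : Instr α} (hl : P[l]? = some ins) :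
    l < P.length := by
  rw [List.getElem?_eq_some_iff] at hl
  exact hl.1

theorem lab_get {l : ℕ} {ins : Instr α} (hl : P[l]? = some ins) :
    P[(lab P.length l).val]? = some ins := by
  rw [lab_of_le (tm_instr hl).le]
  exact hl

theorem simple_step {l l' i i' : ℕ} {ins : Instr α} {T : ℕ → Gam K} {d1 : Dir}
    (_hl : P[l]? = some ins)
    (hδ : δscan P K (lab P.length l) (readSym w i) (T 0) =
      some (Sum.inl (some (lab P.length l', false)), T 0, d1, Dir.stay))
    (hi : moveInp w.length i d1 = i') :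
    BReach (tm P K) w D (cf P K (Sum.inl (some (lab P.length l, false))) i T 0)
      (cf P K (Sum.inl (some (lab P.length l', false))) i' T 0) := by
  apply Relation.ReflTransGen.single
  refine ⟨?_, Nat.zero_le _⟩
  have := step_of (P := P) (K := K) (w := w) (q := Sum.inl (some (lab P.length l, false)))
    (i := i) (T := T) (h := 0) (q' := Sum.inl (some (lab P.length l', false)))
    (g := T 0) (d1 := d1) (d2 := Dir.stay)
    (by rw [tm_δ_scan]; exact hδ)
  rw [this, hi]
  simp [moveHead, Function.update_eq_self]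

theorem sim_step {c d : FS} (hs : FStep P w B c d) (hP : ∀ x ∈ P, x.RegLt K) (hB : B < 2 ^ D)
    {T : ℕ → Gam K} (hT : Rep K D T c.σ) :
    ∃ T', BReach (tm P K) w D (cf P K (Sum.inl (some (lab P.length c.pc, false))) c.h T 0)
      (cf P K (Sum.inl (some (lab P.length d.pc, false))) d.h T' 0) ∧ Rep K D T' d.σ ∧
      d.pc ≤ P.length := by
  cases hs with
  | @inc pc σ h r hl hB' =>
    have hr : r < K := hP _ (List.mem_of_getElem? hl)
    obtain ⟨L, hL1, hL2, hL3⟩ := hT.2 r hr
    obtain ⟨T', h', hh', hreach, e1, e2, e3, e4⟩ := scan_inc (P := P) (K := K) (w := w) (D := D)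
      (i := h) hr (lab_get hl) L T 0 (by omega) (by simpa using hL3)
    have hlt := tm_instr hl
    rw [lab_of_le hlt.le] at hreach
    refine ⟨T', hreach.trans (back (fun m => by rw [e1, hT.1]) _ hh'), ⟨fun m => by
      rw [e1, hT.1], ?_⟩, hlt⟩
    intro r' hr'
    by_cases hrr : r' = r
    · subst hrr
      refine ⟨incL L, ?_, ?_, ?_⟩
      · rw [val_incL, hL1]; simp
      · apply length_incL_le hL2
        rw [hL1]
        have : σ r' + 1 ≤ B := hB'
        show σ r' + 1 < 2 ^ D
        omega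
      · intro i
        simpa using e4 i
    · obtain ⟨L', h1, h2, h3⟩ := hT.2 r' hr'
      refine ⟨L', ?_, h2, fun i => by rw [e2 i r' hrr, h3]⟩
      rw [h1]
      simp [hrr]
  | @dec pc σ h r hl h0 =>
    have hr : r < K := hP _ (List.mem_of_getElem? hl)
    obtain ⟨L, hL1, hL2, hL3⟩ := hT.2 r hr
    have hv : val L ≠ 0 := by rw [hL1]; exact h0
    obtain ⟨T', h', hh', hreach, e1, e2, e3, e4⟩ := scan_dec (P := P) (K := K) (w := w) (D := D)
      (i := h) hr (lab_get hl) L T 0 hv (by omega) (by simpa using hL3)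
    have hlt := tm_instr hl
    rw [lab_of_le hlt.le] at hreach
    refine ⟨T', hreach.trans (back (fun m => by rw [e1, hT.1]) _ hh'), ⟨fun m => by
      rw [e1, hT.1], ?_⟩, hlt⟩
    intro r' hr'
    by_cases hrr : r' = r
    · subst hrr
      refine ⟨decL L, ?_, ?_, ?_⟩
      · have := val_decL L hv
        simp only [Function.update_self]
        have h1 : val L = σ r' := hL1
        omega
      · rw [length_decL]; exact hL2
      · intro i
        simpa using e4 i
    · obtain ⟨L', h1, h2, h3⟩ := hT.2 r' hr'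
      refine ⟨L', ?_, h2, fun i => by rw [e2 i r' hrr, h3]⟩
      rw [h1]
      simp [hrr]
  | @jz0 pc σ h r l hl h0 hle =>
    have hr : r < K := hP _ (List.mem_of_getElem? hl)
    obtain ⟨L, hL1, hL2, hL3⟩ := hT.2 r hr
    obtain ⟨h', hh', hreach⟩ := scan_jz (P := P) (K := K) (w := w) (D := D)
      (i := h) (T := T) (lab_get hl) L 0 (by omega) (by simpa using hL3)
    have hv : val L = 0 := hL1.trans h0
    simp only [hv, if_true] at hreach
    exact ⟨T, hreach.trans (back hT.1 _ hh'), hT, hle⟩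
  | @jz1 pc σ h r l hl h0 =>
    have hr : r < K := hP _ (List.mem_of_getElem? hl)
    obtain ⟨L, hL1, hL2, hL3⟩ := hT.2 r hr
    obtain ⟨h', hh', hreach⟩ := scan_jz (P := P) (K := K) (w := w) (D := D)
      (i := h) (T := T) (lab_get hl) L 0 (by omega) (by simpa using hL3)
    have hv : ¬ val L = 0 := by rw [hL1]; exact h0
    have hlt := tm_instr hl
    rw [lab_of_le hlt.le] at hreach
    simp only [hv, if_false] at hreach
    exact ⟨T, hreach.trans (back hT.1 _ hh'), hT, hlt⟩
  | @jmp pc σ h l hl hle =>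
    refine ⟨T, simple_step (d1 := Dir.stay) hl ?_ rfl, hT, hle⟩
    unfold δscan
    rw [lab_get hl]
  | @hr pc σ h hl =>
    refine ⟨T, simple_step (d1 := Dir.right) hl ?_ rfl, hT, tm_instr hl⟩
    unfold δscan
    rw [lab_get hl]
    simp only [lab_of_le (tm_instr hl).le]
  | @hl pc σ h hl =>
    refine ⟨T, simple_step (d1 := Dir.left) hl ?_ rfl, hT, tm_instr hl⟩
    unfold δscan
    rw [lab_get hl]
    simp only [lab_of_le (tm_instr hl).le]
  | @jn0 pc σ h s l hl h0 hle =>
    refine ⟨T, simple_step (d1 := Dir.stay) hl ?_ rfl, hT, hle⟩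
    unfold δscan
    rw [lab_get hl]
    simp only [h0, if_false]
  | @jn1 pc σ h s l hl h0 =>
    refine ⟨T, simple_step (d1 := Dir.stay) hl ?_ rfl, hT, tm_instr hl⟩
    unfold δscan
    rw [lab_get hl]
    simp only [h0, if_true, lab_of_le (tm_instr hl).le]
  | @js0 pc σ h s l hl h0 hle =>
    refine ⟨T, simple_step (d1 := Dir.stay) hl ?_ rfl, hT, hle⟩
    unfold δscan
    rw [lab_get hl]
    simp only [h0, if_true]
  | @js1 pc σ h s l hl h0 =>
    refine ⟨T, simple_step (d1 := Dir.stay) hl ?_ rfl, hT, tm_instr hl⟩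
    unfold δscan
    rw [lab_get hl]
    simp only [h0, if_false, lab_of_le (tm_instr hl).le]

theorem sim_run {c d : FS} (hs : Relation.ReflTransGen (FStep P w B) c d)
    (hP : ∀ x ∈ P, x.RegLt K) (hB : B < 2 ^ D)
    {T : ℕ → Gam K} (hT : Rep K D T c.σ) :
    ∃ T', BReach (tm P K) w D (cf P K (Sum.inl (some (lab P.length c.pc, false))) c.h T 0)
      (cf P K (Sum.inl (some (lab P.length d.pc, false))) d.h T' 0) ∧ Rep K D T' d.σ := by
  induction hs with
  | refl => exact ⟨T, Relation.ReflTransGen.refl, hT⟩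
  | tail _ hstep ih =>
    obtain ⟨T', h1, h2⟩ := ih
    obtain ⟨T'', h3, h4, _⟩ := sim_step hstep hP hB h2
    exact ⟨T'', h1.trans h3, h4⟩

/-- If for every input `w` the register program runs, with all register values `≤ B w`, from
the zero state to its end, where register `0` is nonzero iff `w ∈ X`, and `B w` is polynomial
in the length of `w`, then `X` is decidable in logarithmic space. -/
theorem inL_of_program (X : Set (List α)) (P : List (Instr α)) (K : ℕ) (hK : 0 < K)
    (hP : ∀ x ∈ P, x.RegLt K) (e : ℕ)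
    (h : ∀ w : List α, ∃ (σ : ℕ → ℕ) (i : ℕ),
      Relation.ReflTransGen (FStep P w ((w.length + 2) ^ e)) ⟨0, fun _ => 0, 0⟩
        ⟨P.length, σ, i⟩ ∧ (σ 0 ≠ 0 ↔ w ∈ X)) : InL X := by
  refine ⟨tm P K, 2 * e + 1, fun w => ?_⟩
  set D : ℕ := (2 * e + 1) * (Nat.log 2 w.length + 1) with hD
  obtain ⟨σ, i, hrun, hX⟩ := h w
  have hB : (w.length + 2) ^ e < 2 ^ D := by
    have h1 : w.length + 2 ≤ 2 ^ (2 * (Nat.log 2 w.length + 1)) := by
      have h2 : w.length < 2 ^ (Nat.log 2 w.length + 1) := Nat.lt_pow_succ_log_self (by norm_num) _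
      have h3 : 2 ≤ 2 ^ (Nat.log 2 w.length + 1) := by
        calc 2 = 2 ^ 1 := rfl
          _ ≤ _ := Nat.pow_le_pow_right (by norm_num) (by omega)
      have h4 : 2 ^ (2 * (Nat.log 2 w.length + 1)) =
          2 ^ (Nat.log 2 w.length + 1) * 2 ^ (Nat.log 2 w.length + 1) := by
        rw [two_mul, pow_add]
      rw [h4]
      nlinarith
    calc (w.length + 2) ^ e ≤ (2 ^ (2 * (Nat.log 2 w.length + 1))) ^ e :=
          Nat.pow_le_pow_left h1 e
      _ = 2 ^ (2 * e * (Nat.log 2 w.length + 1)) := by rw [← pow_mul]; ring_nf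
      _ < 2 ^ D := by
          apply Nat.pow_lt_pow_right (by norm_num)
          rw [hD]
          nlinarith
  -- first step
  let T0 : ℕ → Gam K := Function.update (fun _ => (false, fun _ => none)) 0
    (true, fun _ => none)
  have hT0 : Rep K D T0 (fun _ => 0) := by
    refine ⟨fun m => ?_, fun r hr => ⟨[], rfl, Nat.zero_le _, fun m => ?_⟩⟩
    · by_cases hm : m = 0
      · subst hm; simp [T0]
      · simp [T0, hm]
    · by_cases hm : m = 0
      · subst hm; simp [T0, trk]
      · simp [T0, hm, trk]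
  have hfirst : BReach (tm P K) w D (tm P K).init
      (cf P K (Sum.inl (some (lab P.length 0, false))) 0 T0 0) := by
    apply Relation.ReflTransGen.single
    exact ⟨rfl, Nat.zero_le _⟩
  obtain ⟨T1, h1, h2⟩ := sim_run hrun hP hB hT0
  obtain ⟨L, hL1, hL2, hL3⟩ := h2.2 0 hK
  obtain ⟨h', hh', h3⟩ := scan_end (P := P) (K := K) (w := w) (D := D) (i := i) (T := T1)
    (l := lab P.length P.length) (by rw [lab_of_le le_rfl]; simp) L 0 (by omega)
    (by simpa using hL3)
  have hall : BReach (tm P K) w D _ _ := (hfirst.trans h1).trans h3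
  have hhalt : (tm P K).step w (cf P K (Sum.inr (decide (val L ≠ 0))) i T1 h') = none := by
    rfl
  refine ⟨BReach.bounded hall hhalt (Nat.zero_le _), _, BReach.reach hall, hhalt, ?_⟩
  rw [← hX]
  show (Sum.inr (decide (val L ≠ 0)) : StQ P.length) ∈ ({Sum.inr true} : Set (StQ P.length)) ↔ _
  rw [Set.mem_singleton_iff, hL1]
  simp

end Pool.Agent.Helper38.LinL
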