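import Pool.Agent.Helper38.LinL.DetCase

/-!
# Loops of bounded width
-/

namespace Pool.Agent.Helper38.LinL

open Classical

set_option linter.unusedSimpArgs false
set_option linter.unusedVariables false
set_option linter.unusedSectionVars false

variable {α : Type}

namespace LinearGrammar

variable (G : LinearGrammar α)

noncomputable instance : Fintype G.N := by
  have := G.finN
  exact Fintype.ofFinite _

/-- Number of a nonterminal. -/
noncomputable def idx (B : G.N) : ℕ := (Fintype.equivFin G.N B).val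

theorem idx_inj {B C : G.N} (h : G.idx B = G.idx C) : B = C :=
  (Fintype.equivFin G.N).injective (Fin.ext h)

theorem idx_lt (B : G.N) : G.idx B < Fintype.card G.N := (Fintype.equivFin G.N B).isLt

/-- Code of a triple. -/
noncomputable def code (a b : ℕ) (B : G.N) (p q : ℕ) : ℕ :=
  G.idx B * ((a + 1) * (b + 1)) + (p * (b + 1) + q)

theorem code_q {a b : ℕ} {B : G.N} {p q : ℕ} (hq : q ≤ b) : G.code a b B p q % (b + 1) = q := by
  unfold code
  have : G.idx B * ((a + 1) * (b + 1)) + (p * (b + 1) + q) =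
      q + (b + 1) * (G.idx B * (a + 1) + p) := by ring
  rw [this, Nat.add_mul_mod_self_left, Nat.mod_eq_of_lt (by omega)]

theorem code_div {a b : ℕ} {B : G.N} {p q : ℕ} (hq : q ≤ b) :
    G.code a b B p q / (b + 1) = G.idx B * (a + 1) + p := by
  unfold code
  have : G.idx B * ((a + 1) * (b + 1)) + (p * (b + 1) + q) =
      q + (b + 1) * (G.idx B * (a + 1) + p) := by ring
  rw [this, Nat.add_mul_div_left _ _ (by omega), Nat.div_eq_of_lt (by omega)]
  ring

theorem code_p {a b : ℕ} {B : G.N} {p q : ℕ} (hp : p ≤ a) (hq : q ≤ b) :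
    G.code a b B p q / (b + 1) % (a + 1) = p := by
  rw [G.code_div hq, add_comm, Nat.add_mul_mod_self_right, Nat.mod_eq_of_lt (by omega)]

theorem code_idx {a b : ℕ} {B : G.N} {p q : ℕ} (hp : p ≤ a) (hq : q ≤ b) :
    G.code a b B p q / (b + 1) / (a + 1) = G.idx B := by
  rw [G.code_div hq, add_comm, Nat.add_mul_div_right _ _ (by omega), Nat.div_eq_of_lt (by omega)]
  simp

theorem code_inj {a b : ℕ} {B B' : G.N} {p q p' q' : ℕ} (hp : p ≤ a) (hq : q ≤ b)
    (hp' : p' ≤ a) (hq' : q' ≤ b) (h : G.code a b B p q = G.code a b B' p' q') :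
    B = B' ∧ p = p' ∧ q = q' := by
  refine ⟨G.idx_inj ?_, ?_, ?_⟩
  · rw [← G.code_idx hp hq, h, G.code_idx hp' hq']
  · rw [← G.code_p hp hq (B := B), h, G.code_p hp' hq']
  · rw [← G.code_q hq (B := B) (a := a) (p := p), h, G.code_q hq']

theorem code_lt {a b : ℕ} {B : G.N} {p q : ℕ} (hp : p ≤ a) (hq : q ≤ b) :
    G.code a b B p q < Fintype.card G.N * ((a + 1) * (b + 1)) := by
  have h1 := G.idx_lt B
  have h2 : p * (b + 1) + q < (a + 1) * (b + 1) := by nlinarith
  unfold code
  calc G.idx B * ((a + 1) * (b + 1)) + (p * (b + 1) + q)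
      < G.idx B * ((a + 1) * (b + 1)) + (a + 1) * (b + 1) := by omega
    _ = (G.idx B + 1) * ((a + 1) * (b + 1)) := by ring
    _ ≤ _ := Nat.mul_le_mul_right _ h1

/-- An edge of the graph of configurations: application of a rule. `P` restricts the
nonterminals. -/
def Edge (P : G.N → Prop) (a b : ℕ) (cL cR : ℕ → Option α) (c c' : ℕ) : Prop :=
  ∃ r ∈ G.rules, (P r.1 ∧ P r.2.2.1) ∧ ∃ p < a + 1, ∃ q < b + 1,
    c = G.code a b r.1 p q ∧ p + r.2.1.length ≤ a ∧ q + r.2.2.2.length ≤ b ∧
    Mt (fun s => cL (p + s)) r.2.1 ∧ Mt (fun s => cR (q + s)) r.2.2.2.reverse ∧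
    c' = G.code a b r.2.2.1 (p + r.2.1.length) (q + r.2.2.2.length)

variable {G} in
theorem Derives.reach {P : G.N → Prop} {a b : ℕ} {cL cR : ℕ → Option α} {A B : G.N}
    {u v : List α} (h : G.Derives A u B v)
    (hP : ∀ C u v, G.Derives A u C v → (∃ u' v', G.Derives C u' B v') → P C) :
    u.length ≤ a → v.length ≤ b → Mt cL u → Mt cR v.reverse →
    Relation.ReflTransGen (G.Edge P a b cL cR) (G.code a b A 0 0)
      (G.code a b B u.length v.length) := by
  induction h with
  | refl => intro _ _ _ _; exact Relation.ReflTransGen.refl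
  | @step u B v u' C v' h hr ih =>
    intro hu hv hmu hmv
    simp only [List.length_append] at hu hv
    rw [Mt.append] at hmu
    rw [List.reverse_append, Mt.append] at hmv
    have h1 := ih (fun D u v h3 ⟨u'', v'', h4⟩ => hP D u v h3 ⟨_, _, Derives.step h4 hr⟩)
      (by omega) (by omega) hmu.1 hmv.1
    refine h1.tail ⟨(B, u', C, v'), hr, ⟨hP B u v h ⟨_, _, Derives.single hr⟩,
      hP C _ _ (Derives.step h hr) ⟨_, _, Derives.refl⟩⟩, u.length, by omega, v.length,
      by omega, rfl, by simp only; omega, by simp only; omega, hmu.2, ?_, ?_⟩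
    · simpa using hmv.2
    · simp only [List.length_append]
      rw [add_comm v'.length]

theorem of_reach {P : G.N → Prop} {a b : ℕ} {cL cR : ℕ → Option α} {A : G.N} {c : ℕ}
    (hA : P A)
    (h : Relation.ReflTransGen (G.Edge P a b cL cR) (G.code a b A 0 0) c) :
    ∃ B u v, G.Derives A u B v ∧ P B ∧ u.length ≤ a ∧ v.length ≤ b ∧ Mt cL u ∧ Mt cR v.reverse ∧
      c = G.code a b B u.length v.length := by
  induction h with
  | refl => exact ⟨A, [], [], Derives.refl, hA, by simp, by simp, Mt.nil, Mt.nil, rfl⟩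
  | tail _ hE ih =>
    obtain ⟨B, u, v, h1, h2, h3, h4, h5, h6, h7⟩ := ih
    obtain ⟨r, hr, ⟨hP1, hP2⟩, p, hp, q, hq, e1, e2, e3, e4, e5, e6⟩ := hE
    rw [h7] at e1
    obtain ⟨rfl, rfl, rfl⟩ := G.code_inj h3 h4 (by omega) (by omega) e1
    refine ⟨r.2.2.1, u ++ r.2.1, r.2.2.2 ++ v, Derives.step h1 hr, hP2, ?_, ?_, ?_, ?_, ?_⟩
    · simpa using e2
    · simp only [List.length_append]; omega
    · rw [Mt.append]; exact ⟨h5, e4⟩
    · rw [List.reverse_append, Mt.append]
      exact ⟨h6, by simpa using e5⟩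
    · rw [e6]
      simp only [List.length_append]
      rw [add_comm r.2.2.2.length]

theorem of_coreach {P : G.N → Prop} {a b : ℕ} {cL cR : ℕ → Option α} {A : G.N} {c : ℕ}
    (hA : P A)
    (h : Relation.ReflTransGen (G.Edge P a b cL cR) c (G.code a b A a b)) :
    ∃ B p q u v, G.Derives B u A v ∧ P B ∧ p + u.length = a ∧ q + v.length = b ∧
      Mt (fun s => cL (p + s)) u ∧ Mt (fun s => cR (q + s)) v.reverse ∧
      c = G.code a b B p q := by
  induction h using Relation.ReflTransGen.head_induction_on with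
  | refl => exact ⟨A, a, b, [], [], Derives.refl, hA, rfl, rfl, Mt.nil, Mt.nil, rfl⟩
  | head hE _ ih =>
    obtain ⟨B, p', q', u, v, h1, h2, h3, h4, h5, h6, h7⟩ := ih
    obtain ⟨r, hr, ⟨hP1, hP2⟩, p, hp, q, hq, e1, e2, e3, e4, e5, e6⟩ := hE
    rw [h7] at e6
    obtain ⟨rfl, rfl, rfl⟩ := G.code_inj (by omega) (by omega) e2 e3 e6
    refine ⟨r.1, p, q, r.2.1 ++ u, v ++ r.2.2.2, ?_, hP1, ?_, ?_, ?_, ?_, e1⟩
    · exact (Derives.single (by exact hr)).trans h1
    · simp only [List.length_append]; omega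
    · simp only [List.length_append]; omega
    · rw [Mt.append]
      refine ⟨e4, ?_⟩
      simpa only [add_assoc] using h5
    · rw [List.reverse_append, Mt.append]
      refine ⟨e5, ?_⟩
      simpa only [List.length_reverse, add_assoc] using h6

/-- The pair of sequences contains enough letters. -/
def Valid (a b : ℕ) (cL cR : ℕ → Option α) : Prop :=
  (∀ s < a, (cL s).isSome) ∧ ∀ s < b, (cR s).isSome

theorem exists_list {a : ℕ} {c : ℕ → Option α} (h : ∀ s < a, (c s).isSome) :
    ∃ x : List α, x.length = a ∧ Mt c x := by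
  refine ⟨List.ofFn fun s : Fin a => (c s.val).get (h s.val s.isLt), by simp, fun s hs => ?_⟩
  simp only [List.length_ofFn] at hs
  rw [List.getElem?_ofFn, dif_pos hs]
  simp

theorem isSome_of_mt {c : ℕ → Option α} {u : List α} (h : Mt c u) : ∀ s < u.length,
    (c s).isSome := by
  intro s hs
  rw [h s hs, List.getElem?_eq_getElem hs]
  rfl

theorem pairD_iff_reach {a b : ℕ} {cL cR : ℕ → Option α} {A : G.N} {P : G.N → Prop}
    (hP : ∀ C u v, G.Derives A u C v → (∃ u' v', G.Derives C u' A v') → P C) :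
    G.PairD A A a b cL cR ↔ (Valid a b cL cR ∧
      Relation.ReflTransGen (G.Edge P a b cL cR) (G.code a b A 0 0) (G.code a b A a b)) := by
  constructor
  · rintro ⟨u, v, h, rfl, rfl, h3, h4⟩
    refine ⟨⟨isSome_of_mt h3, ?_⟩, h.reach hP le_rfl le_rfl h3 h4⟩
    simpa using isSome_of_mt h4
  · rintro ⟨_, h⟩
    obtain ⟨B, u, v, h1, h2, h3, h4, h5, h6, h7⟩ :=
      G.of_reach (hP A [] [] Derives.refl ⟨[], [], Derives.refl⟩) h
    obtain ⟨rfl, h8, h9⟩ := G.code_inj le_rfl le_rfl h3 h4 h7
    exact ⟨u, v, h1, h8.symm, h9.symm, h5, h6⟩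

theorem prefix_of_mt {c : ℕ → Option α} {x u : List α} (hx : Mt c x) (hu : Mt c u)
    (hl : u.length ≤ x.length) : u <+: x := by
  have : u = x.take u.length := by
    refine Mt.inj hu ?_ (by simp [hl])
    intro s hs
    simp only [List.length_take] at hs
    rw [hx s (by omega), List.getElem?_take_of_lt (by omega)]
  rw [this]
  exact List.take_prefix _ _

theorem suffix_of_mt {c : ℕ → Option α} {x u : List α} {p : ℕ} (hx : Mt c x)
    (hu : Mt (fun s => c (p + s)) u) (hl : p + u.length = x.length) : u <:+ x := by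
  have : u = x.drop p := by
    refine Mt.inj hu ?_ (by simp; omega)
    intro s hs
    simp only [List.length_drop] at hs
    show c (p + s) = _
    rw [hx (p + s) (by omega), List.getElem?_drop]
  rw [this]
  exact List.drop_suffix _ _

end LinearGrammar

end Pool.Agent.Helper38.LinL
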