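import Pool.Agent.Helper38.LinL.WidthCase

/-!
# Loops of bounded width: the logarithmic space algorithms
-/

namespace Pool.Agent.Helper38.LinL

open Classical

set_option linter.unusedSimpArgs false
set_option linter.unusedVariables false
set_option linter.unusedSectionVars false

variable {α : Type}

theorem rtg_mono {β : Type} {r s : β → β → Prop} (h : ∀ a b, r a b → s a b) {a b : β}
    (hab : Relation.ReflTransGen r a b) : Relation.ReflTransGen s a b := by
  induction hab with
  | refl => exact .refl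
  | tail _ h1 ih => exact ih.tail (h _ _ h1)

section FP

variable {X : Type} [Cod X] [Finite α] (G : LinearGrammar α)

theorem FP.valid {posL posR : List α → X × ℕ → ℕ} {a b : List α → X → ℕ} (hL : Fn posL)
    (hR : Fn posR) (ha : Fn a) (hb : Fn b) :
    FP fun w x => LinearGrammar.Valid (a w x) (b w x) (rd posL w x) (rd posR w x) := by
  refine ((FP.ball ha (P := fun w z => posL w z < w.length) (FP.lt hL Fn.len)).and
    (FP.ball hb (P := fun w z => posR w z < w.length) (FP.lt hR Fn.len))).congr fun w x => ?_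
  unfold LinearGrammar.Valid rd
  simp only [isSome_getElem?]

theorem Fn.code {a b p q : List α → X → ℕ} (ha : Fn a) (hb : Fn b) (B : G.N) (hp : Fn p)
    (hq : Fn q) : Fn fun w x => G.code (a w x) (b w x) B (p w x) (q w x) := by
  unfold LinearGrammar.code
  exact ((Fn.const _).mul (ha.succ.mul hb.succ)).add ((hp.mul hb.succ).add hq)

theorem FP.edge (P : G.N → Prop) {posL posR : List α → X × ℕ → ℕ} {a b c c' : List α → X → ℕ}
    (hL : Fn posL) (hR : Fn posR) (ha : Fn a) (hb : Fn b) (hc : Fn c) (hc' : Fn c') :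
    FP fun w x => G.Edge P (a w x) (b w x) (rd posL w x) (rd posR w x) (c w x) (c' w x) := by
  unfold LinearGrammar.Edge
  refine FP.bexF _ fun r hr => (FP.constP _).and ?_
  -- parameters `((x, p), q)`
  let Z := (X × ℕ) × ℕ
  have hx : Fn fun (w : List α) (z : Z) => z.1.1 := Fn.id.fst.fst
  have hp : Fn fun (w : List α) (z : Z) => z.1.2 := Fn.id.fst.snd
  have hq : Fn fun (w : List α) (z : Z) => z.2 := Fn.id.snd
  have haz : Fn fun (w : List α) (z : Z) => a w z.1.1 := ha.comp hx
  have hbz : Fn fun (w : List α) (z : Z) => b w z.1.1 := hb.comp hx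
  have hcz : Fn fun (w : List α) (z : Z) => c w z.1.1 := hc.comp hx
  have hcz' : Fn fun (w : List α) (z : Z) => c' w z.1.1 := hc'.comp hx
  have hLz : Fn fun (w : List α) (z : Z × ℕ) => posL w (z.1.1.1, z.2) :=
    hL.comp ((hx.comp Fn.id.fst).pair Fn.id.snd)
  have hRz : Fn fun (w : List α) (z : Z × ℕ) => posR w (z.1.1.1, z.2) :=
    hR.comp ((hx.comp Fn.id.fst).pair Fn.id.snd)
  refine FP.bex (b := fun w x => a w x + 1) ha.succ
    (P := fun w (z : X × ℕ) => ∃ q < b w z.1 + 1,
      c w z.1 = G.code (a w z.1) (b w z.1) r.1 z.2 q ∧ z.2 + r.2.1.length ≤ a w z.1 ∧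
      q + r.2.2.2.length ≤ b w z.1 ∧
      LinearGrammar.Mt (fun s => rd posL w z.1 (z.2 + s)) r.2.1 ∧
      LinearGrammar.Mt (fun s => rd posR w z.1 (q + s)) r.2.2.2.reverse ∧
      c' w z.1 = G.code (a w z.1) (b w z.1) r.2.2.1 (z.2 + r.2.1.length)
        (q + r.2.2.2.length)) ?_
  refine FP.bex (b := fun w (z : X × ℕ) => b w z.1 + 1) (hb.comp Fn.id.fst).succ
    (P := fun w (z : (X × ℕ) × ℕ) =>
      c w z.1.1 = G.code (a w z.1.1) (b w z.1.1) r.1 z.1.2 z.2 ∧
      z.1.2 + r.2.1.length ≤ a w z.1.1 ∧
      z.2 + r.2.2.2.length ≤ b w z.1.1 ∧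
      LinearGrammar.Mt (fun s => rd posL w z.1.1 (z.1.2 + s)) r.2.1 ∧
      LinearGrammar.Mt (fun s => rd posR w z.1.1 (z.2 + s)) r.2.2.2.reverse ∧
      c' w z.1.1 = G.code (a w z.1.1) (b w z.1.1) r.2.2.1 (z.1.2 + r.2.1.length)
        (z.2 + r.2.2.2.length)) ?_
  refine (FP.eq hcz (Fn.code G haz hbz _ hp hq)).and ?_
  refine (FP.le (hp.add (Fn.const _)) haz).and ?_
  refine (FP.le (hq.add (Fn.const _)) hbz).and ?_
  refine (FP.mt hLz hp r.2.1).and ?_
  refine (FP.mt hRz hq r.2.2.2.reverse).and ?_
  exact FP.eq hcz' (Fn.code G haz hbz _ (hp.add (Fn.const _)) (hq.add (Fn.const _)))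

/-- An upper bound for the increment of the level. -/
noncomputable def incB (a0 b0 : ℕ) : ℕ :=
  ∑ r ∈ G.rules, (a0 * r.2.1.length + b0 * r.2.2.2.length) + 1

theorem lt_incB {a0 b0 : ℕ} {r : G.N × List α × G.N × List α} (hr : r ∈ G.rules) :
    a0 * r.2.1.length + b0 * r.2.2.2.length < incB G a0 b0 := by
  unfold incB
  have := Finset.single_le_sum (f := fun r : G.N × List α × G.N × List α =>
    a0 * r.2.1.length + b0 * r.2.2.2.length) (fun _ _ => Nat.zero_le _) hr
  omega

variable {G}

theorem FP.pair_of_narrow {A : G.N} (hA : G.Narrow A) {posL posR : List α → X × ℕ → ℕ}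
    {a b : List α → X → ℕ} (hL : Fn posL) (hR : Fn posR) (ha : Fn a) (hb : Fn b) :
    FP fun w x => G.PairD A A (a w x) (b w x) (rd posL w x) (rd posR w x) := by
  obtain ⟨a0, b0, k, hk⟩ := hA
  let P : G.N → Prop := fun B => (∃ u v, G.Derives A u B v) ∧ ∃ u v, G.Derives B u A v
  have hPA : P A := ⟨⟨[], [], .refl⟩, ⟨[], [], .refl⟩⟩
  let N : List α → X → ℕ := fun w x => Fintype.card G.N * ((a w x + 1) * (b w x + 1))
  let E : List α → X × ℕ × ℕ → Prop := fun w z =>
    LinearGrammar.Valid (a w z.1) (b w z.1) (rd posL w z.1) (rd posR w z.1) ∧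
    G.Edge P (a w z.1) (b w z.1) (rd posL w z.1) (rd posR w z.1) z.2.1 z.2.2
  let src : List α → X → ℕ := fun w x => G.code (a w x) (b w x) A 0 0
  let lev : List α → X × ℕ → ℕ := fun w z =>
    a0 * (z.2 / (b w z.1 + 1) % (a w z.1 + 1)) + b0 * (z.2 % (b w z.1 + 1))
  have hN : Fn N := (Fn.const _).mul (ha.succ.mul hb.succ)
  have hsrc : Fn src := Fn.code G ha hb A Fn.zero Fn.zero
  have hlev : Fn lev := by
    have h1 : Fn fun (w : List α) (z : X × ℕ) => b w z.1 + 1 := (hb.comp Fn.id.fst).succ
    have h2 : Fn fun (w : List α) (z : X × ℕ) => a w z.1 + 1 := (ha.comp Fn.id.fst).succ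
    have h3 : Fn fun (w : List α) (z : X × ℕ) => z.2 := Fn.id.snd
    exact ((Fn.const _).mul ((h3.div h1).mod h2)).add ((Fn.const _).mul (h3.mod h1))
  have hE : FP E := by
    have hx : Fn fun (w : List α) (z : X × ℕ × ℕ) => z.1 := Fn.id.fst
    have hLz : Fn fun (w : List α) (z : (X × ℕ × ℕ) × ℕ) => posL w (z.1.1, z.2) :=
      hL.comp ((hx.comp Fn.id.fst).pair Fn.id.snd)
    have hRz : Fn fun (w : List α) (z : (X × ℕ × ℕ) × ℕ) => posR w (z.1.1, z.2) :=
      hR.comp ((hx.comp Fn.id.fst).pair Fn.id.snd)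
    exact (FP.valid hLz hRz (ha.comp hx) (hb.comp hx)).and
      (FP.edge G P hLz hRz (ha.comp hx) (hb.comp hx) Fn.id.snd.fst Fn.id.snd.snd)
  have H : NarrowHyp N E src lev (incB G a0 b0) (k + 1) := by
    refine ⟨by unfold incB; omega, fun w x => G.code_lt (Nat.zero_le _) (Nat.zero_le _), ?_, ?_, ?_⟩
    · rintro w x c c' ⟨_, r, hr, _, p, hp, q, hq, e1, e2, e3, e4, e5, e6⟩
      rw [show c' = _ from e6]
      exact G.code_lt e2 e3
    · rintro w x c c' ⟨_, r, hr, _, p, hp, q, hq, e1, e2, e3, e4, e5, e6⟩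
      simp only at e1 e2 e3 e6 hp hq
      have h1 := lt_incB (a0 := a0) (b0 := b0) G hr
      show a0 * (c / (b w x + 1) % (a w x + 1)) + b0 * (c % (b w x + 1)) ≤
        a0 * (c' / (b w x + 1) % (a w x + 1)) + b0 * (c' % (b w x + 1)) ∧
        a0 * (c' / (b w x + 1) % (a w x + 1)) + b0 * (c' % (b w x + 1)) <
          a0 * (c / (b w x + 1) % (a w x + 1)) + b0 * (c % (b w x + 1)) + incB G a0 b0
      rw [e1, e6, G.code_p (by omega) (by omega), G.code_q (by omega), G.code_p e2 e3,
        G.code_q e3, mul_add, mul_add]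
      constructor <;> omega
    · intro w x s
      by_cases hV : LinearGrammar.Valid (a w x) (b w x) (rd posL w x) (rd posR w x)
      · refine le_trans ?_ (Nat.le_succ k)
        obtain ⟨xl, hxl, hxm⟩ := LinearGrammar.exists_list hV.1
        obtain ⟨yl, hyl, hym⟩ := LinearGrammar.exists_list hV.2
        have hch : ∀ c, Rch E src w x c → ∃ t : G.N × List α × List α,
            (G.Derives A t.2.1 t.1 t.2.2 ∧ P t.1 ∧ t.2.1.length ≤ a w x ∧
              t.2.2.length ≤ b w x ∧ LinearGrammar.Mt (rd posL w x) t.2.1 ∧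
              LinearGrammar.Mt (rd posR w x) t.2.2.reverse) ∧
              c = G.code (a w x) (b w x) t.1 t.2.1.length t.2.2.length := by
          intro c hc
          have hc' : Relation.ReflTransGen (G.Edge P (a w x) (b w x) (rd posL w x)
              (rd posR w x)) (G.code (a w x) (b w x) A 0 0) c :=
            rtg_mono (fun c c' h => h.2) hc
          obtain ⟨B, u, v, h1, h2, h3, h4, h5, h6, h7⟩ := G.of_reach hPA hc'
          exact ⟨(B, u, v), ⟨h1, h2, h3, h4, h5, h6⟩, h7⟩
        let f : ℕ → G.N × List α × List α := fun c =>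
          if h : Rch E src w x c then (hch c h).choose else (A, [], [])
        have hf : ∀ c (h : Rch E src w x c), _ := fun c h => (hch c h).choose_spec
        have hfe : ∀ c (h : Rch E src w x c), f c = (hch c h).choose := fun c h => by
          simp only [f, h, dif_pos]
        have key := hk xl yl.reverse s
        have hle := Set.encard_le_encard_of_injOn (s := (((Finset.range (N w x)).filter fun c =>
          Rch E src w x c ∧ lev w (x, c) = s : Finset ℕ) : Set ℕ)) (f := f) (t :=
            {t : G.N × List α × List α | t.2.1 <+: xl ∧ t.2.2 <:+ yl.reverse ∧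
              a0 * t.2.1.length + b0 * t.2.2.length = s ∧ G.Derives A t.2.1 t.1 t.2.2 ∧
              ∃ u v, G.Derives t.1 u A v}) ?_ ?_
        · have h1 := hle.trans key
          rw [Set.encard_coe_eq_coe_finsetCard] at h1
          exact_mod_cast h1
        · intro c hc
          simp only [Finset.coe_filter, Finset.mem_range, Set.mem_ofPred_eq] at hc
          obtain ⟨_, hr, hl⟩ := hc
          have h0 := hf c hr
          rw [← hfe c hr] at h0
          obtain ⟨⟨g1, g2, g3, g4, g5, g6⟩, g7⟩ := h0
          refine ⟨LinearGrammar.prefix_of_mt hxm g5 (by omega), ?_, ?_, g1, g2.2⟩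
          · have := LinearGrammar.prefix_of_mt hym g6 (by simp; omega)
            rw [← List.reverse_prefix]
            simpa using this
          · rw [← hl]
            show _ = a0 * (c / (b w x + 1) % (a w x + 1)) + b0 * (c % (b w x + 1))
            conv_rhs => rw [g7]
            rw [G.code_p g3 g4, G.code_q g4]
        · intro c hc c' hc' he
          simp only [Finset.coe_filter, Finset.mem_range, Set.mem_ofPred_eq] at hc hc'
          have h0 := hf c hc.2.1
          have h0' := hf c' hc'.2.1
          rw [← hfe c hc.2.1] at h0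
          rw [← hfe c' hc'.2.1] at h0'
          rw [h0.2, h0'.2, he]
      · have hsub : ((Finset.range (N w x)).filter fun c => Rch E src w x c ∧
            lev w (x, c) = s) ⊆ {src w x} := by
          intro c hc
          rw [Finset.mem_filter] at hc
          rw [Finset.mem_singleton]
          rcases Relation.ReflTransGen.cases_tail hc.2.1 with h1 | ⟨c', _, h2⟩
          · exact h1
          · exact absurd h2.1 hV
        have := Finset.card_le_card hsub
        rw [Finset.card_singleton] at this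
        omega
  refine ((FP.valid hL hR ha hb).and (FP.narrow H hN hE hsrc hlev
    (c := fun w x => G.code (a w x) (b w x) A (a w x) (b w x))
    (Fn.code G ha hb A ha hb))).congr fun w x => ?_
  rw [G.pairD_iff_reach (P := P) (fun C u v h1 h2 => ⟨⟨u, v, h1⟩, h2⟩)]
  constructor
  · rintro ⟨h1, h2⟩
    exact ⟨h1, rtg_mono (fun c c' h => ⟨h1, h⟩) h2⟩
  · rintro ⟨h1, h2⟩
    exact ⟨h1, rtg_mono (fun c c' h => h.2) h2⟩

theorem FP.pair_of_coNarrow {A : G.N} (hA : G.CoNarrow A) {posL posR : List α → X × ℕ → ℕ}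
    {a b : List α → X → ℕ} (hL : Fn posL) (hR : Fn posR) (ha : Fn a) (hb : Fn b) :
    FP fun w x => G.PairD A A (a w x) (b w x) (rd posL w x) (rd posR w x) := by
  obtain ⟨a0, b0, k, hk⟩ := hA
  let P : G.N → Prop := fun B => (∃ u v, G.Derives A u B v) ∧ ∃ u v, G.Derives B u A v
  have hPA : P A := ⟨⟨[], [], .refl⟩, ⟨[], [], .refl⟩⟩
  let N : List α → X → ℕ := fun w x => Fintype.card G.N * ((a w x + 1) * (b w x + 1))
  let E : List α → X × ℕ × ℕ → Prop := fun w z =>
    LinearGrammar.Valid (a w z.1) (b w z.1) (rd posL w z.1) (rd posR w z.1) ∧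
    G.Edge P (a w z.1) (b w z.1) (rd posL w z.1) (rd posR w z.1) z.2.2 z.2.1
  let src : List α → X → ℕ := fun w x => G.code (a w x) (b w x) A (a w x) (b w x)
  let lev : List α → X × ℕ → ℕ := fun w z =>
    a0 * (a w z.1 - z.2 / (b w z.1 + 1) % (a w z.1 + 1)) +
      b0 * (b w z.1 - z.2 % (b w z.1 + 1))
  have hN : Fn N := (Fn.const _).mul (ha.succ.mul hb.succ)
  have hsrc : Fn src := Fn.code G ha hb A ha hb
  have hlev : Fn lev := by
    have h1 : Fn fun (w : List α) (z : X × ℕ) => b w z.1 := (hb.comp Fn.id.fst)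
    have h2 : Fn fun (w : List α) (z : X × ℕ) => a w z.1 := (ha.comp Fn.id.fst)
    have h3 : Fn fun (w : List α) (z : X × ℕ) => z.2 := Fn.id.snd
    exact ((Fn.const _).mul (h2.sub ((h3.div h1.succ).mod h2.succ))).add
      ((Fn.const _).mul (h1.sub (h3.mod h1.succ)))
  have hE : FP E := by
    have hx : Fn fun (w : List α) (z : X × ℕ × ℕ) => z.1 := Fn.id.fst
    have hLz : Fn fun (w : List α) (z : (X × ℕ × ℕ) × ℕ) => posL w (z.1.1, z.2) :=
      hL.comp ((hx.comp Fn.id.fst).pair Fn.id.snd)
    have hRz : Fn fun (w : List α) (z : (X × ℕ × ℕ) × ℕ) => posR w (z.1.1, z.2) :=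
      hR.comp ((hx.comp Fn.id.fst).pair Fn.id.snd)
    exact (FP.valid hLz hRz (ha.comp hx) (hb.comp hx)).and
      (FP.edge G P hLz hRz (ha.comp hx) (hb.comp hx) Fn.id.snd.snd Fn.id.snd.fst)
  have hrev : ∀ w x c, Rch E src w x c → Relation.ReflTransGen (G.Edge P (a w x) (b w x)
      (rd posL w x) (rd posR w x)) c (G.code (a w x) (b w x) A (a w x) (b w x)) := by
    intro w x c hc
    rw [← Relation.reflTransGen_swap]
    exact rtg_mono (fun c c' h => h.2) hc
  have H : NarrowHyp N E src lev (incB G a0 b0) (k + 1) := by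
    refine ⟨by unfold incB; omega, fun w x => G.code_lt le_rfl le_rfl, ?_, ?_, ?_⟩
    · rintro w x c c' ⟨_, r, hr, _, p, hp, q, hq, e1, e2, e3, e4, e5, e6⟩
      rw [show c' = _ from e1]
      simp only at hp hq
      exact G.code_lt (by omega) (by omega)
    · rintro w x c' c ⟨_, r, hr, _, p, hp, q, hq, e1, e2, e3, e4, e5, e6⟩
      simp only at e1 e2 e3 e6 hp hq
      have h1 := lt_incB (a0 := a0) (b0 := b0) G hr
      show a0 * (a w x - c' / (b w x + 1) % (a w x + 1)) + b0 * (b w x - c' % (b w x + 1)) ≤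
        a0 * (a w x - c / (b w x + 1) % (a w x + 1)) + b0 * (b w x - c % (b w x + 1)) ∧
        a0 * (a w x - c / (b w x + 1) % (a w x + 1)) + b0 * (b w x - c % (b w x + 1)) <
          a0 * (a w x - c' / (b w x + 1) % (a w x + 1)) + b0 * (b w x - c' % (b w x + 1)) +
            incB G a0 b0
      rw [e1, e6, G.code_p e2 e3, G.code_q e3, G.code_p (p := p) (q := q) (by omega) (by omega),
        G.code_q (q := q) (by omega)]
      have h2 : a0 * (a w x - p) = a0 * (a w x - (p + r.2.1.length)) + a0 * r.2.1.length := by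
        rw [← mul_add]; congr 1; omega
      have h3 : b0 * (b w x - q) = b0 * (b w x - (q + r.2.2.2.length)) +
          b0 * r.2.2.2.length := by
        rw [← mul_add]; congr 1; omega
      rw [h2, h3]
      constructor <;> omega
    · intro w x s
      by_cases hV : LinearGrammar.Valid (a w x) (b w x) (rd posL w x) (rd posR w x)
      · refine le_trans ?_ (Nat.le_succ k)
        obtain ⟨xl, hxl, hxm⟩ := LinearGrammar.exists_list hV.1
        obtain ⟨yl, hyl, hym⟩ := LinearGrammar.exists_list hV.2
        have hch : ∀ c, Rch E src w x c → ∃ t : (G.N × List α × List α) × ℕ × ℕ,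
            (G.Derives t.1.1 t.1.2.1 A t.1.2.2 ∧ P t.1.1 ∧ t.2.1 + t.1.2.1.length = a w x ∧
              t.2.2 + t.1.2.2.length = b w x ∧
              LinearGrammar.Mt (fun s => rd posL w x (t.2.1 + s)) t.1.2.1 ∧
              LinearGrammar.Mt (fun s => rd posR w x (t.2.2 + s)) t.1.2.2.reverse) ∧
              c = G.code (a w x) (b w x) t.1.1 t.2.1 t.2.2 := by
          intro c hc
          obtain ⟨B, p, q, u, v, h1, h2, h3, h4, h5, h6, h7⟩ := G.of_coreach hPA (hrev w x c hc)
          exact ⟨((B, u, v), p, q), ⟨h1, h2, h3, h4, h5, h6⟩, h7⟩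
        let f : ℕ → (G.N × List α × List α) × ℕ × ℕ := fun c =>
          if h : Rch E src w x c then (hch c h).choose else ((A, [], []), 0, 0)
        have hf : ∀ c (h : Rch E src w x c), _ := fun c h => (hch c h).choose_spec
        have hfe : ∀ c (h : Rch E src w x c), f c = (hch c h).choose := fun c h => by
          simp only [f, h, dif_pos]
        have key := hk xl yl.reverse s
        have hle := Set.encard_le_encard_of_injOn (s := (((Finset.range (N w x)).filter fun c =>
          Rch E src w x c ∧ lev w (x, c) = s : Finset ℕ) : Set ℕ)) (f := fun c => (f c).1) (t :=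
            {t : G.N × List α × List α | t.2.1 <:+ xl ∧ t.2.2 <+: yl.reverse ∧
              a0 * t.2.1.length + b0 * t.2.2.length = s ∧ G.Derives t.1 t.2.1 A t.2.2 ∧
              ∃ u v, G.Derives A u t.1 v}) ?_ ?_
        · have h1 := hle.trans key
          rw [Set.encard_coe_eq_coe_finsetCard] at h1
          exact_mod_cast h1
        · intro c hc
          simp only [Finset.coe_filter, Finset.mem_range, Set.mem_ofPred_eq] at hc
          obtain ⟨_, hr, hl⟩ := hc
          have h0 := hf c hr
          rw [← hfe c hr] at h0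
          obtain ⟨⟨g1, g2, g3, g4, g5, g6⟩, g7⟩ := h0
          refine ⟨LinearGrammar.suffix_of_mt hxm g5 (by rw [hxl]; exact g3), ?_, ?_, g1, g2.1⟩
          · have := LinearGrammar.suffix_of_mt hym g6 (by simp; omega)
            rw [← List.reverse_suffix]
            simpa using this
          · rw [← hl]
            show _ = a0 * (a w x - c / (b w x + 1) % (a w x + 1)) +
              b0 * (b w x - c % (b w x + 1))
            conv_rhs => rw [g7]
            rw [G.code_p (by omega) (by omega), G.code_q (by omega)]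
            have h8 : a w x - (f c).2.1 = (f c).1.2.1.length := by omega
            have h9 : b w x - (f c).2.2 = (f c).1.2.2.length := by omega
            rw [h8, h9]
        · intro c hc c' hc' he
          simp only [Finset.coe_filter, Finset.mem_range, Set.mem_ofPred_eq] at hc hc' he
          have h0 := hf c hc.2.1
          have h0' := hf c' hc'.2.1
          rw [← hfe c hc.2.1] at h0
          rw [← hfe c' hc'.2.1] at h0'
          obtain ⟨⟨_, _, g3, g4, _, _⟩, g7⟩ := h0
          obtain ⟨⟨_, _, g3', g4', _, _⟩, g7'⟩ := h0'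
          have e1 : (f c).2.1 = (f c').2.1 := by rw [he] at g3; omega
          have e2 : (f c).2.2 = (f c').2.2 := by rw [he] at g4; omega
          rw [g7, g7', he, e1, e2]
      · have hsub : ((Finset.range (N w x)).filter fun c => Rch E src w x c ∧
            lev w (x, c) = s) ⊆ {src w x} := by
          intro c hc
          rw [Finset.mem_filter] at hc
          rw [Finset.mem_singleton]
          rcases Relation.ReflTransGen.cases_tail hc.2.1 with h1 | ⟨c', _, h2⟩
          · exact h1
          · exact absurd h2.1 hV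
        have := Finset.card_le_card hsub
        rw [Finset.card_singleton] at this
        omega
  refine ((FP.valid hL hR ha hb).and (FP.narrow H hN hE hsrc hlev
    (c := fun w x => G.code (a w x) (b w x) A 0 0)
    (Fn.code G ha hb A Fn.zero Fn.zero))).congr fun w x => ?_
  rw [G.pairD_iff_reach (P := P) (fun C u v h1 h2 => ⟨⟨u, v, h1⟩, h2⟩)]
  constructor
  · rintro ⟨h1, h2⟩
    refine ⟨h1, ?_⟩
    unfold Rch
    rw [← Relation.reflTransGen_swap] at h2
    exact rtg_mono (fun c c' h => ⟨h1, h⟩) h2
  · rintro ⟨h1, h2⟩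
    exact ⟨h1, hrev w x _ h2⟩

end FP

end Pool.Agent.Helper38.LinL
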